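import Mathlib

set_option autoImplicit false

namespace Pool.Agent.HK

open Order

/-- Two-sorted back-and-forth for countable types. -/
theorem bf2 {α β γ δ : Type} [Countable α] [Countable β] [Countable γ] [Countable δ]
    (P : Set (α × β) → Set (γ × δ) → Prop)
    (f0 : Set (α × β)) (g0 : Set (γ × δ)) (h0 : P f0 g0)
    (inj1 : ∀ f g, P f g → ∀ p ∈ f, ∀ q ∈ f, (p.1 = q.1 ↔ p.2 = q.2))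
    (inj2 : ∀ f g, P f g → ∀ p ∈ g, ∀ q ∈ g, (p.1 = q.1 ↔ p.2 = q.2))
    (forth1 : ∀ f g, P f g → ∀ a, ∃ f' g', f ⊆ f' ∧ g ⊆ g' ∧ P f' g' ∧ ∃ b, (a, b) ∈ f')
    (back1 : ∀ f g, P f g → ∀ b, ∃ f' g', f ⊆ f' ∧ g ⊆ g' ∧ P f' g' ∧ ∃ a, (a, b) ∈ f')
    (forth2 : ∀ f g, P f g → ∀ a, ∃ f' g', f ⊆ f' ∧ g ⊆ g' ∧ P f' g' ∧ ∃ b, (a, b) ∈ g')
    (back2 : ∀ f g, P f g → ∀ b, ∃ f' g', f ⊆ f' ∧ g ⊆ g' ∧ P f' g' ∧ ∃ a, (a, b) ∈ g') :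
    ∃ (e1 : α ≃ β) (e2 : γ ≃ δ),
      (∀ a b, ∃ f g, P f g ∧ (a, e1 a) ∈ f ∧ (b, e1 b) ∈ f) ∧
      (∀ c d, ∃ f g, P f g ∧ (c, e2 c) ∈ g ∧ (d, e2 d) ∈ g) ∧
      (∀ a c, ∃ f g, P f g ∧ (a, e1 a) ∈ f ∧ (c, e2 c) ∈ g) := by
  classical
  let Q := {p : Set (α × β) × Set (γ × δ) // P p.1 p.2}
  let ι := (α ⊕ β) ⊕ (γ ⊕ δ)
  haveI : Encodable ι := Encodable.ofCountable ι
  let 𝒟 : ι → Cofinal Q := fun i => match i with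
    | Sum.inl (Sum.inl a) => ⟨{p | ∃ b, (a, b) ∈ p.1.1}, fun p => by
        obtain ⟨f', g', h1, h2, h3, h4⟩ := forth1 p.1.1 p.1.2 p.2 a
        exact ⟨⟨(f', g'), h3⟩, h4, ⟨h1, h2⟩⟩⟩
    | Sum.inl (Sum.inr b) => ⟨{p | ∃ a, (a, b) ∈ p.1.1}, fun p => by
        obtain ⟨f', g', h1, h2, h3, h4⟩ := back1 p.1.1 p.1.2 p.2 b
        exact ⟨⟨(f', g'), h3⟩, h4, ⟨h1, h2⟩⟩⟩
    | Sum.inr (Sum.inl a) => ⟨{p | ∃ b, (a, b) ∈ p.1.2}, fun p => by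
        obtain ⟨f', g', h1, h2, h3, h4⟩ := forth2 p.1.1 p.1.2 p.2 a
        exact ⟨⟨(f', g'), h3⟩, h4, ⟨h1, h2⟩⟩⟩
    | Sum.inr (Sum.inr b) => ⟨{p | ∃ a, (a, b) ∈ p.1.2}, fun p => by
        obtain ⟨f', g', h1, h2, h3, h4⟩ := back2 p.1.1 p.1.2 p.2 b
        exact ⟨⟨(f', g'), h3⟩, h4, ⟨h1, h2⟩⟩⟩
  let I : Ideal Q := idealOfCofinals ⟨(f0, g0), h0⟩ 𝒟
  have hdir : ∀ p ∈ I, ∀ q ∈ I, ∃ r ∈ I, p ≤ r ∧ q ≤ r := I.directed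
  have m1 : ∀ a, ∃ b, ∃ p ∈ I, (a, b) ∈ p.1.1 := fun a => by
    obtain ⟨x, hx, hI⟩ := cofinal_meets_idealOfCofinals ⟨(f0, g0), h0⟩ 𝒟 (Sum.inl (Sum.inl a))
    obtain ⟨b, hb⟩ := hx
    exact ⟨b, x, hI, hb⟩
  have m2 : ∀ b, ∃ a, ∃ p ∈ I, (a, b) ∈ p.1.1 := fun a => by
    obtain ⟨x, hx, hI⟩ := cofinal_meets_idealOfCofinals ⟨(f0, g0), h0⟩ 𝒟 (Sum.inl (Sum.inr a))
    obtain ⟨b, hb⟩ := hx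
    exact ⟨b, x, hI, hb⟩
  have m3 : ∀ a, ∃ b, ∃ p ∈ I, (a, b) ∈ p.1.2 := fun a => by
    obtain ⟨x, hx, hI⟩ := cofinal_meets_idealOfCofinals ⟨(f0, g0), h0⟩ 𝒟 (Sum.inr (Sum.inl a))
    obtain ⟨b, hb⟩ := hx
    exact ⟨b, x, hI, hb⟩
  have m4 : ∀ b, ∃ a, ∃ p ∈ I, (a, b) ∈ p.1.2 := fun a => by
    obtain ⟨x, hx, hI⟩ := cofinal_meets_idealOfCofinals ⟨(f0, g0), h0⟩ 𝒟 (Sum.inr (Sum.inr a))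
    obtain ⟨b, hb⟩ := hx
    exact ⟨b, x, hI, hb⟩
  choose u1 hu1 using m1
  choose v1 hv1 using m2
  choose u2 hu2 using m3
  choose v2 hv2 using m4
  have k1 : ∀ a b a' b', (∃ p ∈ I, (a, b) ∈ p.1.1) → (∃ p ∈ I, (a', b') ∈ p.1.1) →
      (a = a' ↔ b = b') := by
    rintro a b a' b' ⟨p, hp, hp'⟩ ⟨q, hq, hq'⟩
    obtain ⟨r, hr, hpr, hqr⟩ := hdir p hp q hq
    exact inj1 _ _ r.2 (a, b) (hpr.1 hp') (a', b') (hqr.1 hq')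
  have k2 : ∀ a b a' b', (∃ p ∈ I, (a, b) ∈ p.1.2) → (∃ p ∈ I, (a', b') ∈ p.1.2) →
      (a = a' ↔ b = b') := by
    rintro a b a' b' ⟨p, hp, hp'⟩ ⟨q, hq, hq'⟩
    obtain ⟨r, hr, hpr, hqr⟩ := hdir p hp q hq
    exact inj2 _ _ r.2 (a, b) (hpr.2 hp') (a', b') (hqr.2 hq')
  refine ⟨⟨u1, v1, fun a => (k1 _ _ _ _ (hv1 (u1 a)) (hu1 a)).2 rfl,
      fun b => (k1 _ _ _ _ (hu1 (v1 b)) (hv1 b)).1 rfl⟩,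
    ⟨u2, v2, fun a => (k2 _ _ _ _ (hv2 (u2 a)) (hu2 a)).2 rfl,
      fun b => (k2 _ _ _ _ (hu2 (v2 b)) (hv2 b)).1 rfl⟩, ?_, ?_, ?_⟩
  · intro a b
    obtain ⟨p, hp, hp'⟩ := hu1 a
    obtain ⟨q, hq, hq'⟩ := hu1 b
    obtain ⟨r, hr, hpr, hqr⟩ := hdir p hp q hq
    exact ⟨r.1.1, r.1.2, r.2, hpr.1 hp', hqr.1 hq'⟩
  · intro a b
    obtain ⟨p, hp, hp'⟩ := hu2 a
    obtain ⟨q, hq, hq'⟩ := hu2 b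
    obtain ⟨r, hr, hpr, hqr⟩ := hdir p hp q hq
    exact ⟨r.1.1, r.1.2, r.2, hpr.2 hp', hqr.2 hq'⟩
  · intro a b
    obtain ⟨p, hp, hp'⟩ := hu1 a
    obtain ⟨q, hq, hq'⟩ := hu2 b
    obtain ⟨r, hr, hpr, hqr⟩ := hdir p hp q hq
    exact ⟨r.1.1, r.1.2, r.2, hpr.1 hp', hqr.2 hq'⟩

end Pool.Agent.HK
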