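import Mathlib

set_option autoImplicit false

namespace Pool.Agent.HK

/-- Raw data of the signature on a universe `U`. -/
@[ext] structure Raw (U : Type) where
  Hp : U → Prop
  Sp : U → Prop
  lt : U → U → Prop
  lam : U → U → Prop
  R : U → U → Prop
  eta : U → U → U → Prop
  rho : U → U → U → Prop
  hh : ℕ → U → Prop
  C : ℕ → ℕ → U → Prop

/-- The third sort. -/
def Raw.Bp {U : Type} (X : Raw U) (x : U) : Prop := ¬ X.Hp x ∧ ¬ X.Sp x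

/-- The reflexive closure of `lt`. -/
def Raw.le {U : Type} (X : Raw U) (c d : U) : Prop := c = d ∨ X.lt c d

/-- The axioms. -/
structure Raw.Ax {U : Type} (X : Raw U) : Prop where
  disj : ∀ x, X.Hp x → ¬ X.Sp x
  lt_ty : ∀ x y, X.lt x y → X.Hp x ∧ X.Hp y
  lt_irrefl : ∀ x, ¬ X.lt x x
  lt_trans : ∀ x y z, X.lt x y → X.lt y z → X.lt x z
  lt_tot : ∀ x y, X.Hp x → X.Hp y → X.lt x y ∨ x = y ∨ X.lt y x
  lt_dense : ∀ x y, X.lt x y → ∃ z, X.lt x z ∧ X.lt z y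
  lt_up : ∀ x, X.Hp x → ∃ y, X.lt x y
  lt_dn : ∀ x, X.Hp x → ∃ y, X.lt y x
  hh_ty : ∀ k x, X.hh k x → X.Hp x
  hh_ex : ∀ k, ∃ x, X.hh k x
  hh_un : ∀ k x y, X.hh k x → X.hh k y → x = y
  hh_lt : ∀ k x y, X.hh k x → X.hh (k + 1) y → X.lt x y
  eta_ty : ∀ x y d, X.eta x y d → X.Sp x ∧ X.Sp y ∧ X.Hp d ∧ ¬ x = y
  eta_un : ∀ x y c d, X.eta x y c → X.eta x y d → c = d
  eta_ex : ∀ x y, X.Sp x → X.Sp y → ¬ x = y → ∃ d, X.eta x y d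
  eta_symm : ∀ x y d, X.eta x y d → X.eta y x d
  eta_ultra : ∀ x y z a b c, X.eta x y a → X.eta y z b → X.eta x z c → X.le c a ∨ X.le c b
  lam_ty : ∀ o d, X.lam o d → X.Bp o ∧ X.Hp d
  lam_un : ∀ o c d, X.lam o c → X.lam o d → c = d
  lam_ex : ∀ o, X.Bp o → ∃ d, X.lam o d
  lam_surj : ∀ d, X.Hp d → ∃ o, X.lam o d
  rho_ty : ∀ x y c, X.rho x y c → X.Hp c ∧ ¬ x = y ∧ ∃ d, X.lam x d ∧ X.lam y d
  rho_un : ∀ x y c d, X.rho x y c → X.rho x y d → c = d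
  rho_ex : ∀ x y d, X.lam x d → X.lam y d → ¬ x = y → ∃ c, X.rho x y c
  rho_symm : ∀ x y d, X.rho x y d → X.rho y x d
  rho_ultra : ∀ x y z a b c, X.rho x y a → X.rho y z b → X.rho x z c → X.le a c ∨ X.le b c
  R_ty : ∀ x o, X.R x o → X.Sp x ∧ X.Bp o
  R_inv : ∀ x y o c d, X.eta x y c → X.lam o d → X.le c d → X.R x o → X.R y o
  C_ex : ∀ n k, ∃ o, X.C n k o
  C_ty : ∀ n k o d, X.C n k o → X.hh n d → X.lam o d
  C_mono : ∀ n k o, X.C n (k + 1) o → X.C n k o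
  C_ball : ∀ n k o p d e, X.C n k o → X.hh n d → X.hh k e → X.lam p d →
    (X.C n k p ↔ p = o ∨ ∃ c, X.rho o p c ∧ X.le e c)
  S_ex : ∃ x, X.Sp x
  XS : ∀ a p q : ℕ, ∀ (x : Fin a → U) (y : Fin p → U) (w : Fin q → U) (z d : U),
    X.Sp z → X.Hp d → (∀ i, X.Sp (x i)) → (∀ i, ∃ c, X.lam (y i) c ∧ X.lt c d) →
    (∀ i, ∃ c, X.lam (w i) c ∧ X.lt c d) → (∀ i j, ¬ y i = w j) →
    ∃ s, X.eta s z d ∧ (∀ i, ∃ c, X.eta s (x i) c ∧ X.le d c) ∧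
      (∀ i, X.R s (y i)) ∧ (∀ i, ¬ X.R s (w i))
  XB : ∀ a p q : ℕ, ∀ (x : Fin a → U) (y : Fin p → U) (w : Fin q → U) (u l d : U),
    X.lam u l → X.Hp d → (∀ i, X.lam (x i) l) → (∀ i, X.Sp (y i)) → (∀ i, X.Sp (w i)) →
    (∀ i j, ∃ c, X.eta (y i) (w j) c ∧ X.lt l c) →
    ∃ o, X.lam o l ∧ X.rho o u d ∧ (∀ i, ∃ c, X.rho o (x i) c ∧ X.le c d) ∧
      (∀ i, X.R (y i) o) ∧ (∀ i, ¬ X.R (w i) o)

end Pool.Agent.HK
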