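import Pool.Agent.MP_e47bfc_lc.Typed
import Pool.Agent.MP_e47bfc_lc.Raw

set_option autoImplicit false
set_option linter.unusedVariables false
set_option linter.unusedSectionVars false
set_option linter.style.haveILetI false

namespace Pool.Agent.HK

open Classical

variable {U : Type} {X : Raw U}

/-- The height sort. -/
def HT (hX : X.Ax) : Type := {x : U // X.Hp x}
/-- The `S` sort. -/
def ST (hX : X.Ax) : Type := {x : U // X.Sp x}
/-- The `B` sort. -/
def BT (hX : X.Ax) : Type := {x : U // X.Bp x}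

instance [Countable U] (hX : X.Ax) : Countable (HT hX) := inferInstanceAs (Countable {x : U // X.Hp x})
instance [Countable U] (hX : X.Ax) : Countable (ST hX) := inferInstanceAs (Countable {x : U // X.Sp x})
instance [Countable U] (hX : X.Ax) : Countable (BT hX) := inferInstanceAs (Countable {x : U // X.Bp x})

theorem Raw.Ax.lt_asymm (hX : X.Ax) {x y : U} (h : X.lt x y) : ¬ X.lt y x :=
  fun h' => hX.lt_irrefl x (hX.lt_trans _ _ _ h h')

noncomputable instance (hX : X.Ax) : LinearOrder (HT hX) where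
  le a b := X.le a.1 b.1
  lt a b := X.lt a.1 b.1
  le_refl a := Or.inl rfl
  le_trans a b c := by
    rintro (h | h) (h' | h')
    · exact Or.inl (h.trans h')
    · exact Or.inr (h ▸ h')
    · exact Or.inr (h' ▸ h)
    · exact Or.inr (hX.lt_trans _ _ _ h h')
  lt_iff_le_not_ge a b := by
    constructor
    · intro h
      refine ⟨Or.inr h, ?_⟩
      rintro (h' | h')
      · exact hX.lt_irrefl a.1 (by rw [← h'] at h; rw [h'] at h; exact h' ▸ h)
      · exact hX.lt_asymm h h'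
    · rintro ⟨h | h, h'⟩
      · exact absurd (Or.inl h.symm) h'
      · exact h
  le_antisymm a b := by
    rintro (h | h) (h' | h')
    · exact Subtype.ext h
    · exact Subtype.ext h
    · exact Subtype.ext h'.symm
    · exact absurd h' (hX.lt_asymm h)
  le_total a b := by
    rcases hX.lt_tot a.1 b.1 a.2 b.2 with h | h | h
    · exact Or.inl (Or.inr h)
    · exact Or.inl (Or.inl h)
    · exact Or.inr (Or.inr h)
  toDecidableLE := Classical.decRel _

theorem HT.le_iff {hX : X.Ax} (a b : HT hX) : a ≤ b ↔ X.le a.1 b.1 := Iff.rfl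
theorem HT.lt_iff {hX : X.Ax} (a b : HT hX) : a < b ↔ X.lt a.1 b.1 := Iff.rfl

instance (hX : X.Ax) : DenselyOrdered (HT hX) where
  dense a b h := by
    obtain ⟨z, h1, h2⟩ := hX.lt_dense a.1 b.1 h
    exact ⟨⟨z, (hX.lt_ty _ _ h1).2⟩, h1, h2⟩

instance (hX : X.Ax) : NoMaxOrder (HT hX) where
  exists_gt a := by
    obtain ⟨z, h1⟩ := hX.lt_up a.1 a.2
    exact ⟨⟨z, (hX.lt_ty _ _ h1).2⟩, h1⟩

instance (hX : X.Ax) : NoMinOrder (HT hX) where
  exists_lt a := by
    obtain ⟨z, h1⟩ := hX.lt_dn a.1 a.2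
    exact ⟨⟨z, (hX.lt_ty _ _ h1).1⟩, h1⟩

/-- The named heights. -/
noncomputable def hT (hX : X.Ax) (k : ℕ) : HT hX :=
  ⟨(hX.hh_ex k).choose, hX.hh_ty k _ (hX.hh_ex k).choose_spec⟩

theorem hT_spec (hX : X.Ax) (k : ℕ) : X.hh k (hT hX k).1 := (hX.hh_ex k).choose_spec

theorem hT_eq (hX : X.Ax) {k : ℕ} {x : U} (h : X.hh k x) : (hT hX k).1 = x :=
  hX.hh_un k _ _ (hT_spec hX k) h

theorem hT_mono (hX : X.Ax) : StrictMono (hT hX) :=
  strictMono_nat_of_lt_succ fun n => hX.hh_lt n _ _ (hT_spec hX n) (hT_spec hX (n + 1))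

/-- `lam` as a function. -/
noncomputable def lamT (hX : X.Ax) (o : BT hX) : HT hX :=
  ⟨(hX.lam_ex o.1 o.2).choose, (hX.lam_ty _ _ (hX.lam_ex o.1 o.2).choose_spec).2⟩

theorem lamT_spec (hX : X.Ax) (o : BT hX) : X.lam o.1 (lamT hX o).1 :=
  (hX.lam_ex o.1 o.2).choose_spec

theorem lamT_iff (hX : X.Ax) (o : BT hX) (d : HT hX) : lamT hX o = d ↔ X.lam o.1 d.1 := by
  constructor
  · rintro rfl; exact lamT_spec hX o
  · intro h; exact Subtype.ext (hX.lam_un _ _ _ (lamT_spec hX o) h)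

theorem lamT_h (hX : X.Ax) (o : BT hX) (n : ℕ) {d : U} (hd : X.hh n d) :
    lamT hX o = hT hX n ↔ X.lam o.1 d := by
  rw [lamT_iff, hT_eq hX hd]

/-- `eta` as a function. -/
noncomputable def etaT (hX : X.Ax) (x y : ST hX) : WithBot (HT hX) :=
  if h : ∃ d, X.eta x.1 y.1 d then
    WithBot.some (⟨h.choose, (hX.eta_ty _ _ _ h.choose_spec).2.2.1⟩ : HT hX) else ⊥

theorem etaT_iff (hX : X.Ax) (x y : ST hX) (d : HT hX) :
    etaT hX x y = (d : WithBot (HT hX)) ↔ X.eta x.1 y.1 d.1 := by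
  unfold etaT
  constructor
  · intro h
    split_ifs at h with h1
    · have := WithBot.coe_inj.1 h
      rw [← this]; exact h1.choose_spec
    · exact absurd h.symm WithBot.coe_ne_bot
  · intro h
    have h1 : ∃ d, X.eta x.1 y.1 d := ⟨_, h⟩
    rw [dif_pos h1]
    exact WithBot.coe_inj.2 (Subtype.ext (hX.eta_un _ _ _ _ h1.choose_spec h))

theorem etaT_bot (hX : X.Ax) (x y : ST hX) : etaT hX x y = ⊥ ↔ x = y := by
  constructor
  · intro h
    by_contra hne
    obtain ⟨d, hd⟩ := hX.eta_ex x.1 y.1 x.2 y.2 (fun h => hne (Subtype.ext h))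
    have := (etaT_iff hX x y ⟨d, (hX.eta_ty _ _ _ hd).2.2.1⟩).2 hd
    rw [h] at this
    exact WithBot.coe_ne_bot this.symm
  · rintro rfl
    by_contra hne
    obtain ⟨d, hd⟩ := WithBot.ne_bot_iff_exists.1 hne
    have := (etaT_iff hX x x d).1 hd.symm
    exact (hX.eta_ty _ _ _ this).2.2.2 rfl

/-- `rho` as a function. -/
noncomputable def rhoT (hX : X.Ax) (x y : BT hX) : WithTop (HT hX) :=
  if h : ∃ d, X.rho x.1 y.1 d then
    WithTop.some (⟨h.choose, (hX.rho_ty _ _ _ h.choose_spec).1⟩ : HT hX) else ⊤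

theorem rhoT_iff (hX : X.Ax) (x y : BT hX) (d : HT hX) :
    rhoT hX x y = (d : WithTop (HT hX)) ↔ X.rho x.1 y.1 d.1 := by
  unfold rhoT
  constructor
  · intro h
    split_ifs at h with h1
    · have := WithTop.coe_inj.1 h
      rw [← this]; exact h1.choose_spec
    · exact absurd h.symm WithTop.coe_ne_top
  · intro h
    have h1 : ∃ d, X.rho x.1 y.1 d := ⟨_, h⟩
    rw [dif_pos h1]
    exact WithTop.coe_inj.2 (Subtype.ext (hX.rho_un _ _ _ _ h1.choose_spec h))

theorem rhoT_top (hX : X.Ax) (x y : BT hX) (hl : lamT hX x = lamT hX y) :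
    rhoT hX x y = ⊤ ↔ x = y := by
  constructor
  · intro h
    by_contra hne
    obtain ⟨d, hd⟩ := hX.rho_ex x.1 y.1 (lamT hX x).1 (lamT_spec hX x)
      ((lamT_iff hX y _).1 hl.symm) (fun h => hne (Subtype.ext h))
    have := (rhoT_iff hX x y ⟨d, (hX.rho_ty _ _ _ hd).1⟩).2 hd
    rw [h] at this
    exact WithTop.coe_ne_top this.symm
  · rintro rfl
    by_contra hne
    obtain ⟨d, hd⟩ := WithTop.ne_top_iff_exists.1 hne
    have := (rhoT_iff hX x x d).1 hd.symm
    exact (hX.rho_ty _ _ _ this).2.1 rfl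

theorem etaT_symm (hX : X.Ax) (x y : ST hX) : etaT hX x y = etaT hX y x := by
  by_cases hxy : x = y
  · rw [hxy]
  · obtain ⟨d, hd⟩ := WithBot.ne_bot_iff_exists.1 (fun h => hxy ((etaT_bot hX x y).1 h))
    rw [← hd]
    exact ((etaT_iff hX y x d).2 (hX.eta_symm _ _ _ ((etaT_iff hX x y d).1 hd.symm))).symm

theorem etaT_ultra (hX : X.Ax) (x y z : ST hX) :
    etaT hX x z ≤ max (etaT hX x y) (etaT hX y z) := by
  by_cases hxy : x = y
  · rw [hxy]; exact le_max_right _ _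
  by_cases hyz : y = z
  · rw [hyz]; exact le_max_left _ _
  by_cases hxz : x = z
  · rw [(etaT_bot hX x z).2 hxz]; exact bot_le
  obtain ⟨a, ha⟩ := WithBot.ne_bot_iff_exists.1 (fun h => hxy ((etaT_bot hX x y).1 h))
  obtain ⟨b, hb⟩ := WithBot.ne_bot_iff_exists.1 (fun h => hyz ((etaT_bot hX y z).1 h))
  obtain ⟨c, hc⟩ := WithBot.ne_bot_iff_exists.1 (fun h => hxz ((etaT_bot hX x z).1 h))
  rw [← ha, ← hb, ← hc]
  rcases hX.eta_ultra _ _ _ _ _ _ ((etaT_iff hX x y a).1 ha.symm) ((etaT_iff hX y z b).1 hb.symm)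
    ((etaT_iff hX x z c).1 hc.symm) with h | h
  · exact le_max_of_le_left (WithBot.coe_le_coe.2 h)
  · exact le_max_of_le_right (WithBot.coe_le_coe.2 h)

theorem rhoT_symm (hX : X.Ax) (x y : BT hX) (hl : lamT hX x = lamT hX y) :
    rhoT hX x y = rhoT hX y x := by
  by_cases hxy : x = y
  · rw [hxy]
  · obtain ⟨d, hd⟩ := WithTop.ne_top_iff_exists.1 (fun h => hxy ((rhoT_top hX x y hl).1 h))
    rw [← hd]
    exact ((rhoT_iff hX y x d).2 (hX.rho_symm _ _ _ ((rhoT_iff hX x y d).1 hd.symm))).symm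

theorem rhoT_ultra (hX : X.Ax) (x y z : BT hX) (hl : lamT hX x = lamT hX y)
    (hl' : lamT hX y = lamT hX z) :
    min (rhoT hX x y) (rhoT hX y z) ≤ rhoT hX x z := by
  by_cases hxy : x = y
  · rw [hxy]; exact min_le_right _ _
  by_cases hyz : y = z
  · rw [hyz]; exact min_le_left _ _
  by_cases hxz : x = z
  · rw [(rhoT_top hX x z (hl.trans hl')).2 hxz]; exact le_top
  obtain ⟨a, ha⟩ := WithTop.ne_top_iff_exists.1 (fun h => hxy ((rhoT_top hX x y hl).1 h))
  obtain ⟨b, hb⟩ := WithTop.ne_top_iff_exists.1 (fun h => hyz ((rhoT_top hX y z hl').1 h))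
  obtain ⟨c, hc⟩ := WithTop.ne_top_iff_exists.1
    (fun h => hxz ((rhoT_top hX x z (hl.trans hl')).1 h))
  rw [← ha, ← hb, ← hc]
  rcases hX.rho_ultra _ _ _ _ _ _ ((rhoT_iff hX x y a).1 ha.symm) ((rhoT_iff hX y z b).1 hb.symm)
    ((rhoT_iff hX x z c).1 hc.symm) with h | h
  · exact min_le_of_left_le (WithTop.coe_le_coe.2 h)
  · exact min_le_of_right_le (WithTop.coe_le_coe.2 h)

theorem C_Bp (hX : X.Ax) {n k : ℕ} {o : U} (h : X.C n k o) : X.Bp o :=
  (hX.lam_ty _ _ (hX.C_ty n k o _ h (hT_spec hX n))).1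

theorem C_lam (hX : X.Ax) {n k : ℕ} {o : BT hX} (h : X.C n k o.1) : lamT hX o = hT hX n :=
  (lamT_iff hX o _).2 (hX.C_ty n k o.1 _ h (hT_spec hX n))

theorem C_anti (hX : X.Ax) {n k l : ℕ} {o : U} (hkl : k ≤ l) (h : X.C n l o) : X.C n k o := by
  induction l with
  | zero => obtain rfl : k = 0 := by omega
            exact h
  | succ l ih =>
    rcases Nat.lt_or_ge k (l + 1) with h1 | h1
    · exact ih (by omega) (hX.C_mono _ _ _ h)
    · obtain rfl : k = l + 1 := by omega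
      exact h

theorem C_ball' (hX : X.Ax) {n k : ℕ} {o p : BT hX} (h : X.C n k o.1) (hp : lamT hX p = hT hX n) :
    X.C n k p.1 ↔ ((hT hX k : HT hX) : WithTop (HT hX)) ≤ rhoT hX o p := by
  have ho := C_lam hX h
  rw [hX.C_ball n k o.1 p.1 _ _ h (hT_spec hX n) (hT_spec hX k) ((lamT_iff hX p _).1 hp)]
  constructor
  · rintro (h1 | ⟨c, h1, h2⟩)
    · rw [(rhoT_top hX o p (ho.trans hp.symm)).2 (Subtype.ext h1.symm)]
      exact le_top
    · have h3 := (rhoT_iff hX o p ⟨c, (hX.rho_ty _ _ _ h1).1⟩).2 h1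
      rw [h3]
      exact WithTop.coe_le_coe.2 h2
  · intro h1
    by_cases hop : o = p
    · exact Or.inl (by rw [hop])
    · obtain ⟨c, hc⟩ := WithTop.ne_top_iff_exists.1
        (fun h => hop ((rhoT_top hX o p (ho.trans hp.symm)).1 h))
      rw [← hc] at h1
      exact Or.inr ⟨c.1, (rhoT_iff hX o p c).1 hc.symm, WithTop.coe_le_coe.1 h1⟩

/-- A chosen element of `C n k`. -/
noncomputable def cT (hX : X.Ax) (n k : ℕ) : BT hX :=
  ⟨(hX.C_ex n k).choose, C_Bp hX (hX.C_ex n k).choose_spec⟩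

theorem cT_spec (hX : X.Ax) (n k : ℕ) : X.C n k (cT hX n k).1 := (hX.C_ex n k).choose_spec

/-- Distance to the branch. -/
noncomputable def eT (hX : X.Ax) (o : BT hX) : WithTop (HT hX) :=
  if h : ∃ nk : ℕ × ℕ, lamT hX o = hT hX nk.1 ∧ ¬ X.C nk.1 nk.2 o.1 then
    rhoT hX o (cT hX h.choose.1 h.choose.2) else ⊤

theorem eT_key (hX : X.Ax) (o u : BT hX) (n K : ℕ) (c : HT hX) (ho : lamT hX o = hT hX n)
    (hc : c ≤ hT hX K) (hu : X.C n K u.1) :
    (c : WithTop (HT hX)) ≤ eT hX o ↔ (c : WithTop (HT hX)) ≤ rhoT hX o u := by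
  have hul := C_lam hX hu
  unfold eT
  split_ifs with h
  · obtain ⟨h1, h2⟩ := h.choose_spec
    set n' := h.choose.1
    set K0 := h.choose.2
    have hn : n = n' := (hT_mono hX).injective (ho.symm.trans h1)
    rw [← hn] at h1 h2 ⊢
    have hu0 := cT_spec hX n K0
    set u0 := cT hX n K0
    have hu0l := C_lam hX hu0
    have hlt : rhoT hX o u0 < ((hT hX K0 : HT hX) : WithTop (HT hX)) := by
      rw [C_ball' hX hu0 ho, not_le, rhoT_symm hX _ _ (hu0l.trans ho.symm)] at h2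
      exact h2
    rcases le_total K0 K with hK | hK
    · have h3 : ((hT hX K0 : HT hX) : WithTop (HT hX)) ≤ rhoT hX u0 u :=
        (C_ball' hX hu0 hul).1 (C_anti hX hK hu)
      have e1 : rhoT hX o u0 = rhoT hX o u := by
        apply le_antisymm
        · have := rhoT_ultra hX o u0 u (ho.trans hu0l.symm) (hu0l.trans hul.symm)
          rwa [min_eq_left (hlt.le.trans h3)] at this
        · have := rhoT_ultra hX o u u0 (ho.trans hul.symm) (hul.trans hu0l.symm)
          rw [rhoT_symm hX u u0 (hul.trans hu0l.symm)] at this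
          rcases min_le_iff.1 this with h4 | h4
          · exact h4
          · exact absurd (h3.trans h4) (not_le.2 hlt)
      rw [e1]
    · have h3 : ((hT hX K : HT hX) : WithTop (HT hX)) ≤ rhoT hX u u0 :=
        (C_ball' hX hu hu0l).1 (C_anti hX hK hu0)
      have h3' : (c : WithTop (HT hX)) ≤ rhoT hX u u0 := (WithTop.coe_le_coe.2 hc).trans h3
      constructor
      · intro h4
        have := rhoT_ultra hX o u0 u (ho.trans hu0l.symm) (hu0l.trans hul.symm)
        rw [rhoT_symm hX u0 u (hu0l.trans hul.symm)] at this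
        exact (le_min h4 h3').trans this
      · intro h4
        have := rhoT_ultra hX o u u0 (ho.trans hul.symm) (hul.trans hu0l.symm)
        exact (le_min h4 h3').trans this
  · push Not at h
    have h1 : X.C n K o.1 := h (n, K) ho
    have h2 := (C_ball' hX h1 hul).1 hu
    simp only [le_top, true_iff]
    exact (WithTop.coe_le_coe.2 hc).trans h2

theorem eT_C (hX : X.Ax) (o : BT hX) (n K : ℕ) (ho : lamT hX o = hT hX n) :
    ((hT hX K : HT hX) : WithTop (HT hX)) ≤ eT hX o ↔ X.C n K o.1 := by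
  have hu := cT_spec hX n K
  rw [eT_key hX o (cT hX n K) n K _ ho le_rfl hu, C_ball' hX hu ho,
    rhoT_symm hX _ _ (ho.trans (C_lam hX hu).symm)]

theorem eT_top (hX : X.Ax) (o : BT hX) (n : ℕ) (ho : lamT hX o = hT hX n) :
    eT hX o = ⊤ ↔ ∀ k, X.C n k o.1 := by
  constructor
  · intro h k
    rw [← eT_C hX o n k ho, h]
    exact le_top
  · intro h
    unfold eT
    rw [dif_neg]
    rintro ⟨⟨n', k⟩, h1, h2⟩
    have hn : n = n' := (hT_mono hX).injective (ho.symm.trans h1)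
    simp only at h1 h2
    rw [← hn] at h2
    exact h2 (h k)

/-- The typed model of a raw model. -/
noncomputable def gm (hX : X.Ax) : GM (HT hX) (hT hX) where
  S := ST hX
  B := BT hX
  eta := etaT hX
  lam := lamT hX
  rho := rhoT hX
  R x o := X.R x.1 o.1
  e := eT hX
  eta_bot := etaT_bot hX
  eta_symm := etaT_symm hX
  eta_ultra := etaT_ultra hX
  rho_top := rhoT_top hX
  rho_symm := rhoT_symm hX
  rho_ultra := rhoT_ultra hX
  R_inv := by
    intro x y o h
    by_cases hxy : x = y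
    · rw [hxy]
    obtain ⟨a, ha⟩ := WithBot.ne_bot_iff_exists.1 (fun h => hxy ((etaT_bot hX x y).1 h))
    rw [← ha] at h
    have h1 := (etaT_iff hX x y a).1 ha.symm
    have h2 := WithBot.coe_le_coe.1 h
    constructor
    · exact hX.R_inv _ _ _ _ _ h1 (lamT_spec hX o) h2
    · exact hX.R_inv _ _ _ _ _ (hX.eta_symm _ _ _ h1) (lamT_spec hX o) h2
  e_or := by
    intro n o ho
    by_cases h : ∀ k, X.C n k o.1
    · exact Or.inl ((eT_top hX o n ho).2 h)
    · push Not at h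
      obtain ⟨k, hk⟩ := h
      exact Or.inr ⟨k, not_le.1 (fun h => hk ((eT_C hX o n k ho).1 h))⟩
  e_tri1 := by
    intro n k c o p ho hp hc h1 h2
    have hu := cT_spec hX n k
    have hul := C_lam hX hu
    rw [eT_key hX _ (cT hX n k) n k c ho hc hu] at h1
    rw [eT_key hX _ (cT hX n k) n k c hp hc hu]
    refine le_trans ?_ (rhoT_ultra hX p o _ (hp.trans ho.symm) (ho.trans hul.symm))
    rw [rhoT_symm hX p o (hp.trans ho.symm)]
    exact le_min h2 h1
  e_tri2 := by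
    intro n k c o p ho hp hc h1 h2
    have hu := cT_spec hX n k
    have hul := C_lam hX hu
    rw [eT_key hX _ (cT hX n k) n k c ho hc hu] at h1
    rw [eT_key hX _ (cT hX n k) n k c hp hc hu] at h2
    refine le_trans ?_ (rhoT_ultra hX o (cT hX n k) p (ho.trans hul.symm) (hul.trans hp.symm))
    rw [rhoT_symm hX _ p (hul.trans hp.symm)]
    exact le_min h1 h2
  e_ne := by
    intro n k
    exact ⟨cT hX n k, C_lam hX (cT_spec hX n k),
      (eT_C hX _ n k (C_lam hX (cT_spec hX n k))).2 (cT_spec hX n k)⟩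
  Bne := by
    intro d
    obtain ⟨o, ho⟩ := hX.lam_surj d.1 d.2
    exact ⟨⟨o, (hX.lam_ty _ _ ho).1⟩, (lamT_iff hX _ _).2 ho⟩
  XS := by
    intro z d A P Q hA hP hQ hd h1 h2
    obtain ⟨a, x, -, rfl⟩ := hA.fin_param
    obtain ⟨p, y, -, rfl⟩ := hP.fin_param
    obtain ⟨q, w, -, rfl⟩ := hQ.fin_param
    obtain ⟨s, k1, k2, k3, k4⟩ := hX.XS a p q (fun i => (x i).1) (fun i => (y i).1)
      (fun i => (w i).1) z.1 d.1 z.2 d.2 (fun i => (x i).2)
      (fun i => ⟨_, lamT_spec hX (y i), h1 _ ⟨i, rfl⟩⟩)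
      (fun i => ⟨_, lamT_spec hX (w i), h2 _ ⟨i, rfl⟩⟩)
      (fun i j h => Set.disjoint_left.1 hd ⟨i, rfl⟩ ⟨j, (Subtype.ext h).symm⟩)
    have hs : X.Sp s := (hX.eta_ty _ _ _ k1).1
    refine ⟨⟨s, hs⟩, (etaT_iff hX _ _ _).2 k1, ?_, ?_, ?_⟩
    · rintro _ ⟨i, rfl⟩
      obtain ⟨c, h3, h4⟩ := k2 i
      rw [(etaT_iff hX ⟨s, hs⟩ (x i) ⟨c, (hX.eta_ty _ _ _ h3).2.2.1⟩).2 h3]
      exact WithBot.coe_le_coe.2 h4
    · rintro _ ⟨i, rfl⟩; exact k3 i
    · rintro _ ⟨i, rfl⟩; exact k4 i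
  XB := by
    intro u d A P Q hA hP hQ hA' h1
    obtain ⟨a, x, -, rfl⟩ := hA.fin_param
    obtain ⟨p, y, -, rfl⟩ := hP.fin_param
    obtain ⟨q, w, -, rfl⟩ := hQ.fin_param
    obtain ⟨s, k0, k1, k2, k3, k4⟩ := hX.XB a p q (fun i => (x i).1) (fun i => (y i).1)
      (fun i => (w i).1) u.1 (lamT hX u).1 d.1 (lamT_spec hX u) d.2
      (fun i => (lamT_iff hX _ _).1 (hA' _ ⟨i, rfl⟩)) (fun i => (y i).2) (fun i => (w i).2)
      (fun i j => by
        have h2 := h1 _ ⟨i, rfl⟩ _ ⟨j, rfl⟩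
        rw [not_le] at h2
        obtain ⟨c, hc⟩ := WithBot.ne_bot_iff_exists.1
          (lt_of_le_of_lt bot_le h2).ne'
        rw [← hc] at h2
        exact ⟨c.1, (etaT_iff hX _ _ _).1 hc.symm, WithBot.coe_lt_coe.1 h2⟩)
    have hs : X.Bp s := (hX.lam_ty _ _ k0).1
    refine ⟨⟨s, hs⟩, (lamT_iff hX _ _).2 k0, (rhoT_iff hX _ _ _).2 k1, ?_, ?_, ?_⟩
    · rintro _ ⟨i, rfl⟩
      obtain ⟨c, h3, h4⟩ := k2 i
      rw [(rhoT_iff hX ⟨s, hs⟩ (x i) ⟨c, (hX.rho_ty _ _ _ h3).1⟩).2 h3]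
      exact WithTop.coe_le_coe.2 h4
    · rintro _ ⟨i, rfl⟩; exact k3 i
    · rintro _ ⟨i, rfl⟩; exact k4 i

end Pool.Agent.HK
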