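import Pool.Agent.MP_e47bfc_lc.Raw

set_option autoImplicit false
set_option linter.unusedVariables false
set_option linter.style.haveILetI false

namespace Pool.Agent.HK

open FirstOrder FirstOrder.Language

/-- Relation symbols. -/
inductive Rel : ℕ → Type
  | Hp : Rel 1
  | Sp : Rel 1
  | hh (k : ℕ) : Rel 1
  | C (n k : ℕ) : Rel 1
  | lt : Rel 2
  | lam : Rel 2
  | R : Rel 2
  | eta : Rel 3
  | rho : Rel 3

/-- The language. -/
def L : FirstOrder.Language.{0, 0} := ⟨fun _ => Empty, Rel⟩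

/-- The raw data of an `L`-structure. -/
def raw (A : L.Structure ℕ) : Raw ℕ where
  Hp x := A.RelMap (Rel.Hp : L.Relations 1) ![x]
  Sp x := A.RelMap (Rel.Sp : L.Relations 1) ![x]
  lt x y := A.RelMap (Rel.lt : L.Relations 2) ![x, y]
  lam x y := A.RelMap (Rel.lam : L.Relations 2) ![x, y]
  R x y := A.RelMap (Rel.R : L.Relations 2) ![x, y]
  eta x y z := A.RelMap (Rel.eta : L.Relations 3) ![x, y, z]
  rho x y z := A.RelMap (Rel.rho : L.Relations 3) ![x, y, z]
  hh k x := A.RelMap (Rel.hh k : L.Relations 1) ![x]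
  C n k x := A.RelMap (Rel.C n k : L.Relations 1) ![x]

/-- Uniform first-order definability over structures on `ℕ`. -/
def FO {α : Type} (P : L.Structure ℕ → (α → ℕ) → Prop) : Prop :=
  ∃ φ : L.Formula α, ∀ (A : L.Structure ℕ) (v : α → ℕ), (@Formula.Realize L ℕ A α φ v) ↔ P A v

theorem FO.rel1 {α : Type} (r : L.Relations 1) (i : α) : FO (fun A (v : α → ℕ) =>
    A.RelMap r ![v i]) := by
  refine ⟨Relations.formula₁ r (Term.var i), fun A v => ?_⟩
  letI := A
  rw [Formula.realize_rel₁]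
  rfl

theorem FO.rel2 {α : Type} (r : L.Relations 2) (i j : α) : FO (fun A (v : α → ℕ) =>
    A.RelMap r ![v i, v j]) := by
  refine ⟨Relations.formula₂ r (Term.var i) (Term.var j), fun A v => ?_⟩
  letI := A
  rw [Formula.realize_rel₂]
  rfl

theorem FO.rel3 {α : Type} (r : L.Relations 3) (i j k : α) : FO (fun A (v : α → ℕ) =>
    A.RelMap r ![v i, v j, v k]) := by
  refine ⟨Relations.formula r ![Term.var i, Term.var j, Term.var k], fun A v => ?_⟩
  letI := A
  rw [Formula.realize_rel, iff_iff_eq]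
  congr 1
  funext t
  fin_cases t <;> rfl

section
variable {α : Type}

theorem FO.Hp (i : α) : FO (fun A (v : α → ℕ) => (raw A).Hp (v i)) := FO.rel1 Rel.Hp i
theorem FO.Sp (i : α) : FO (fun A (v : α → ℕ) => (raw A).Sp (v i)) := FO.rel1 Rel.Sp i
theorem FO.hh (k : ℕ) (i : α) : FO (fun A (v : α → ℕ) => (raw A).hh k (v i)) := FO.rel1 (Rel.hh k) i
theorem FO.C (n k : ℕ) (i : α) : FO (fun A (v : α → ℕ) => (raw A).C n k (v i)) :=
  FO.rel1 (Rel.C n k) i
theorem FO.lt (i j : α) : FO (fun A (v : α → ℕ) => (raw A).lt (v i) (v j)) := FO.rel2 Rel.lt i j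
theorem FO.lam (i j : α) : FO (fun A (v : α → ℕ) => (raw A).lam (v i) (v j)) := FO.rel2 Rel.lam i j
theorem FO.R (i j : α) : FO (fun A (v : α → ℕ) => (raw A).R (v i) (v j)) := FO.rel2 Rel.R i j
theorem FO.eta (i j k : α) : FO (fun A (v : α → ℕ) => (raw A).eta (v i) (v j) (v k)) :=
  FO.rel3 Rel.eta i j k
theorem FO.rho (i j k : α) : FO (fun A (v : α → ℕ) => (raw A).rho (v i) (v j) (v k)) :=
  FO.rel3 Rel.rho i j k

theorem FO.eq (i j : α) : FO (fun _ (v : α → ℕ) => v i = v j) := by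
  refine ⟨Term.equal (Term.var i) (Term.var j), fun A v => ?_⟩
  letI := A
  rw [Formula.realize_equal]
  rfl

theorem FO.not {P : L.Structure ℕ → (α → ℕ) → Prop} (h : FO P) : FO (fun A v => ¬ P A v) := by
  obtain ⟨φ, hφ⟩ := h
  refine ⟨φ.not, fun A v => ?_⟩
  letI := A
  rw [Formula.realize_not, hφ]

theorem FO.and {P Q : L.Structure ℕ → (α → ℕ) → Prop} (h : FO P) (h' : FO Q) :
    FO (fun A v => P A v ∧ Q A v) := by
  obtain ⟨φ, hφ⟩ := h
  obtain ⟨ψ, hψ⟩ := h'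
  refine ⟨φ ⊓ ψ, fun A v => ?_⟩
  letI := A
  rw [Formula.realize_inf, hφ, hψ]

theorem FO.or {P Q : L.Structure ℕ → (α → ℕ) → Prop} (h : FO P) (h' : FO Q) :
    FO (fun A v => P A v ∨ Q A v) := by
  obtain ⟨φ, hφ⟩ := h
  obtain ⟨ψ, hψ⟩ := h'
  refine ⟨φ ⊔ ψ, fun A v => ?_⟩
  letI := A
  rw [Formula.realize_sup, hφ, hψ]

theorem FO.imp {P Q : L.Structure ℕ → (α → ℕ) → Prop} (h : FO P) (h' : FO Q) :
    FO (fun A v => P A v → Q A v) := by
  obtain ⟨φ, hφ⟩ := h
  obtain ⟨ψ, hψ⟩ := h'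
  refine ⟨φ.imp ψ, fun A v => ?_⟩
  letI := A
  rw [Formula.realize_imp, hφ, hψ]

theorem FO.iff {P Q : L.Structure ℕ → (α → ℕ) → Prop} (h : FO P) (h' : FO Q) :
    FO (fun A v => (P A v ↔ Q A v)) := by
  obtain ⟨φ, hφ⟩ := h
  obtain ⟨ψ, hψ⟩ := h'
  refine ⟨φ.iff ψ, fun A v => ?_⟩
  letI := A
  rw [Formula.realize_iff, hφ, hψ]

theorem FO.conj {ι : Type} [Finite ι] {P : ι → L.Structure ℕ → (α → ℕ) → Prop}
    (h : ∀ i, FO (P i)) : FO (fun A v => ∀ i, P i A v) := by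
  choose φ hφ using h
  refine ⟨Formula.iInf φ, fun A v => ?_⟩
  letI := A
  rw [Formula.realize_iInf]
  exact forall_congr' fun i => hφ i A v

theorem FO.alls {β : Type} [Finite β] {P : L.Structure ℕ → (α → ℕ) → (β → ℕ) → Prop}
    (h : FO (fun A (v : α ⊕ β → ℕ) => P A (fun i => v (Sum.inl i)) (fun i => v (Sum.inr i)))) :
    FO (fun A v => ∀ w, P A v w) := by
  obtain ⟨φ, hφ⟩ := h
  refine ⟨φ.iAlls β, fun A v => ?_⟩
  letI := A
  rw [Formula.realize_iAlls]
  exact forall_congr' fun i => hφ A _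

theorem FO.all {P : L.Structure ℕ → (α → ℕ) → ℕ → Prop}
    (h : FO (fun A (v : α ⊕ Unit → ℕ) => P A (fun i => v (Sum.inl i)) (v (Sum.inr ())))) :
    FO (fun A v => ∀ x, P A v x) := by
  obtain ⟨φ, hφ⟩ := h
  refine ⟨φ.iAlls Unit, fun A v => ?_⟩
  letI := A
  rw [Formula.realize_iAlls]
  constructor
  · intro h x
    exact (hφ A _).1 (h (fun _ => x))
  · intro h w
    exact (hφ A _).2 (h (w ()))

theorem FO.ex {P : L.Structure ℕ → (α → ℕ) → ℕ → Prop}
    (h : FO (fun A (v : α ⊕ Unit → ℕ) => P A (fun i => v (Sum.inl i)) (v (Sum.inr ())))) :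
    FO (fun A v => ∃ x, P A v x) := by
  obtain ⟨φ, hφ⟩ := h
  refine ⟨φ.iExs Unit, fun A v => ?_⟩
  letI := A
  rw [Formula.realize_iExs]
  constructor
  · rintro ⟨w, hw⟩
    exact ⟨w (), (hφ A _).1 hw⟩
  · rintro ⟨x, hx⟩
    exact ⟨fun _ => x, (hφ A _).2 hx⟩

theorem FO.le (i j : α) : FO (fun A (v : α → ℕ) => (raw A).le (v i) (v j)) :=
  FO.or (FO.eq i j) (FO.lt i j)

theorem FO.Bp (i : α) : FO (fun A (v : α → ℕ) => (raw A).Bp (v i)) :=
  FO.and (FO.not (FO.Hp i)) (FO.not (FO.Sp i))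

end

/-- The theory: the theory of all structures on `ℕ` satisfying the axioms. -/
def T : L.Theory := {φ | ∀ A : L.Structure ℕ, (raw A).Ax → @Sentence.Realize L ℕ A φ}

theorem ax_of_FO {P : L.Structure ℕ → Prop} (hP : FO (α := Empty) (fun A _ => P A))
    (h : ∀ A, (raw A).Ax → P A) (A : L.Structure ℕ) (hA : @Theory.Model L ℕ A T) : P A := by
  obtain ⟨φ, hφ⟩ := hP
  have h1 : φ ∈ T := by
    intro B hB
    exact (hφ B _).2 (h B hB)
  letI := A
  exact (hφ A _).1 (Theory.realize_sentence_of_mem T h1 : @Sentence.Realize L ℕ A φ)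

theorem ax_of_model (A : L.Structure ℕ) (hA : @Theory.Model L ℕ A T) : (raw A).Ax := by
  refine {
  disj := ax_of_FO (P := fun A => ∀ x, (raw A).Hp x → ¬ (raw A).Sp x) ?_
    (fun A h => h.disj) A hA
  lt_ty := ax_of_FO (P := fun A => ∀ x y, (raw A).lt x y → (raw A).Hp x ∧ (raw A).Hp y) ?_
    (fun A h => h.lt_ty) A hA
  lt_irrefl := ax_of_FO (P := fun A => ∀ x, ¬ (raw A).lt x x) ?_
    (fun A h => h.lt_irrefl) A hA
  lt_trans := ax_of_FO (P := fun A => ∀ x y z, (raw A).lt x y → (raw A).lt y z → (raw A).lt x z) ?_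
    (fun A h => h.lt_trans) A hA
  lt_tot := ax_of_FO (P := fun A => ∀ x y, (raw A).Hp x → (raw A).Hp y → (raw A).lt x y ∨ x = y ∨ (raw A).lt y x) ?_
    (fun A h => h.lt_tot) A hA
  lt_dense := ax_of_FO (P := fun A => ∀ x y, (raw A).lt x y → ∃ z, (raw A).lt x z ∧ (raw A).lt z y) ?_
    (fun A h => h.lt_dense) A hA
  lt_up := ax_of_FO (P := fun A => ∀ x, (raw A).Hp x → ∃ y, (raw A).lt x y) ?_
    (fun A h => h.lt_up) A hA
  lt_dn := ax_of_FO (P := fun A => ∀ x, (raw A).Hp x → ∃ y, (raw A).lt y x) ?_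
    (fun A h => h.lt_dn) A hA
  hh_ty := fun k => ax_of_FO (P := fun A => ∀ x, (raw A).hh k x → (raw A).Hp x) ?_
    (fun A h => h.hh_ty k) A hA
  hh_ex := fun k => ax_of_FO (P := fun A => ∃ x, (raw A).hh k x) ?_
    (fun A h => h.hh_ex k) A hA
  hh_un := fun k => ax_of_FO (P := fun A => ∀ x y, (raw A).hh k x → (raw A).hh k y → x = y) ?_
    (fun A h => h.hh_un k) A hA
  hh_lt := fun k => ax_of_FO (P := fun A => ∀ x y, (raw A).hh k x → (raw A).hh (k + 1) y → (raw A).lt x y) ?_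
    (fun A h => h.hh_lt k) A hA
  eta_ty := ax_of_FO (P := fun A => ∀ x y d, (raw A).eta x y d → (raw A).Sp x ∧ (raw A).Sp y ∧ (raw A).Hp d ∧ ¬ x = y) ?_
    (fun A h => h.eta_ty) A hA
  eta_un := ax_of_FO (P := fun A => ∀ x y c d, (raw A).eta x y c → (raw A).eta x y d → c = d) ?_
    (fun A h => h.eta_un) A hA
  eta_ex := ax_of_FO (P := fun A => ∀ x y, (raw A).Sp x → (raw A).Sp y → ¬ x = y → ∃ d, (raw A).eta x y d) ?_
    (fun A h => h.eta_ex) A hA
  eta_symm := ax_of_FO (P := fun A => ∀ x y d, (raw A).eta x y d → (raw A).eta y x d) ?_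
    (fun A h => h.eta_symm) A hA
  eta_ultra := ax_of_FO (P := fun A => ∀ x y z a b c, (raw A).eta x y a → (raw A).eta y z b → (raw A).eta x z c → (raw A).le c a ∨ (raw A).le c b) ?_
    (fun A h => h.eta_ultra) A hA
  lam_ty := ax_of_FO (P := fun A => ∀ o d, (raw A).lam o d → (raw A).Bp o ∧ (raw A).Hp d) ?_
    (fun A h => h.lam_ty) A hA
  lam_un := ax_of_FO (P := fun A => ∀ o c d, (raw A).lam o c → (raw A).lam o d → c = d) ?_
    (fun A h => h.lam_un) A hA
  lam_ex := ax_of_FO (P := fun A => ∀ o, (raw A).Bp o → ∃ d, (raw A).lam o d) ?_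
    (fun A h => h.lam_ex) A hA
  lam_surj := ax_of_FO (P := fun A => ∀ d, (raw A).Hp d → ∃ o, (raw A).lam o d) ?_
    (fun A h => h.lam_surj) A hA
  rho_ty := ax_of_FO (P := fun A => ∀ x y c, (raw A).rho x y c → (raw A).Hp c ∧ ¬ x = y ∧ ∃ d, (raw A).lam x d ∧ (raw A).lam y d) ?_
    (fun A h => h.rho_ty) A hA
  rho_un := ax_of_FO (P := fun A => ∀ x y c d, (raw A).rho x y c → (raw A).rho x y d → c = d) ?_
    (fun A h => h.rho_un) A hA
  rho_ex := ax_of_FO (P := fun A => ∀ x y d, (raw A).lam x d → (raw A).lam y d → ¬ x = y → ∃ c, (raw A).rho x y c) ?_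
    (fun A h => h.rho_ex) A hA
  rho_symm := ax_of_FO (P := fun A => ∀ x y d, (raw A).rho x y d → (raw A).rho y x d) ?_
    (fun A h => h.rho_symm) A hA
  rho_ultra := ax_of_FO (P := fun A => ∀ x y z a b c, (raw A).rho x y a → (raw A).rho y z b → (raw A).rho x z c → (raw A).le a c ∨ (raw A).le b c) ?_
    (fun A h => h.rho_ultra) A hA
  R_ty := ax_of_FO (P := fun A => ∀ x o, (raw A).R x o → (raw A).Sp x ∧ (raw A).Bp o) ?_
    (fun A h => h.R_ty) A hA
  R_inv := ax_of_FO (P := fun A => ∀ x y o c d, (raw A).eta x y c → (raw A).lam o d → (raw A).le c d → (raw A).R x o → (raw A).R y o) ?_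
    (fun A h => h.R_inv) A hA
  C_ex := fun n k => ax_of_FO (P := fun A => ∃ o, (raw A).C n k o) ?_
    (fun A h => h.C_ex n k) A hA
  C_ty := fun n k => ax_of_FO (P := fun A => ∀ o d, (raw A).C n k o → (raw A).hh n d → (raw A).lam o d) ?_
    (fun A h => h.C_ty n k) A hA
  C_mono := fun n k => ax_of_FO (P := fun A => ∀ o, (raw A).C n (k + 1) o → (raw A).C n k o) ?_
    (fun A h => h.C_mono n k) A hA
  C_ball := fun n k => ax_of_FO (P := fun A => ∀ o p d e, (raw A).C n k o → (raw A).hh n d → (raw A).hh k e → (raw A).lam p d →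
    ((raw A).C n k p ↔ p = o ∨ ∃ c, (raw A).rho o p c ∧ (raw A).le e c)) ?_
    (fun A h => h.C_ball n k) A hA
  S_ex := ax_of_FO (P := fun A => ∃ x, (raw A).Sp x) ?_
    (fun A h => h.S_ex) A hA
  XS := fun a p q => ax_of_FO (P := fun A => ∀ (x : Fin a → ℕ) (y : Fin p → ℕ) (w : Fin q → ℕ) (z d : ℕ),
    (raw A).Sp z → (raw A).Hp d → (∀ i, (raw A).Sp (x i)) → (∀ i, ∃ c, (raw A).lam (y i) c ∧ (raw A).lt c d) →
    (∀ i, ∃ c, (raw A).lam (w i) c ∧ (raw A).lt c d) → (∀ i j, ¬ y i = w j) →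
    ∃ s, (raw A).eta s z d ∧ (∀ i, ∃ c, (raw A).eta s (x i) c ∧ (raw A).le d c) ∧
    (∀ i, (raw A).R s (y i)) ∧ (∀ i, ¬ (raw A).R s (w i))) ?_
    (fun A h => h.XS a p q) A hA
  XB := fun a p q => ax_of_FO (P := fun A => ∀ (x : Fin a → ℕ) (y : Fin p → ℕ) (w : Fin q → ℕ) (u l d : ℕ),
    (raw A).lam u l → (raw A).Hp d → (∀ i, (raw A).lam (x i) l) → (∀ i, (raw A).Sp (y i)) → (∀ i, (raw A).Sp (w i)) →
    (∀ i j, ∃ c, (raw A).eta (y i) (w j) c ∧ (raw A).lt l c) →
    ∃ o, (raw A).lam o l ∧ (raw A).rho o u d ∧ (∀ i, ∃ c, (raw A).rho o (x i) c ∧ (raw A).le c d) ∧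
    (∀ i, (raw A).R (y i) o) ∧ (∀ i, ¬ (raw A).R (w i) o)) ?_
    (fun A h => h.XB a p q) A hA }
  all_goals repeat' first
    | exact FO.Hp _ | exact FO.Sp _ | exact FO.hh _ _ | exact FO.C _ _ _ | exact FO.lt _ _
    | exact FO.lam _ _ | exact FO.R _ _ | exact FO.eta _ _ _ | exact FO.rho _ _ _
    | exact FO.eq _ _ | exact FO.le _ _ | exact FO.Bp _
    | refine FO.and ?_ ?_ | refine FO.or ?_ ?_ | refine FO.not ?_ | refine FO.iff ?_ ?_
    | refine FO.ex ?_ | refine FO.all ?_ | refine FO.alls ?_ | refine FO.conj fun _ => ?_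
    | refine FO.imp ?_ ?_

theorem model_of_ax (A : L.Structure ℕ) (hA : (raw A).Ax) : @Theory.Model L ℕ A T := by
  letI := A
  exact ⟨fun φ hφ => hφ A hA⟩

/-- Pull back along a map. -/
def Raw.comap {U V : Type} (e : U → V) (X : Raw V) : Raw U where
  Hp x := X.Hp (e x)
  Sp x := X.Sp (e x)
  lt x y := X.lt (e x) (e y)
  lam x y := X.lam (e x) (e y)
  R x y := X.R (e x) (e y)
  eta x y z := X.eta (e x) (e y) (e z)
  rho x y z := X.rho (e x) (e y) (e z)
  hh k x := X.hh k (e x)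
  C n k x := X.C n k (e x)

/-- The structure with given raw data. -/
def ofRaw (X : Raw ℕ) : L.Structure ℕ where
  funMap := fun {_} f => Empty.elim f
  RelMap := fun {n} r v => match n, r, v with
    | _, Rel.Hp, v => X.Hp (v 0)
    | _, Rel.Sp, v => X.Sp (v 0)
    | _, Rel.hh k, v => X.hh k (v 0)
    | _, Rel.C n k, v => X.C n k (v 0)
    | _, Rel.lt, v => X.lt (v 0) (v 1)
    | _, Rel.lam, v => X.lam (v 0) (v 1)
    | _, Rel.R, v => X.R (v 0) (v 1)
    | _, Rel.eta, v => X.eta (v 0) (v 1) (v 2)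
    | _, Rel.rho, v => X.rho (v 0) (v 1) (v 2)

theorem raw_ofRaw (X : Raw ℕ) : raw (ofRaw X) = X := rfl

instance : Countable L.Symbols := by
  have h1 : Countable (Σ n, L.Functions n) := by
    have : IsEmpty (Σ n, L.Functions n) := ⟨fun x => Empty.elim x.2⟩
    infer_instance
  have h2 : Countable (Σ n, L.Relations n) := by
    let f : (Σ n, Rel n) → ℕ × ℕ × ℕ := fun x => match x with
      | ⟨_, Rel.Hp⟩ => (0, 0, 0)
      | ⟨_, Rel.Sp⟩ => (1, 0, 0)
      | ⟨_, Rel.hh k⟩ => (2, k, 0)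
      | ⟨_, Rel.C n k⟩ => (3, n, k)
      | ⟨_, Rel.lt⟩ => (4, 0, 0)
      | ⟨_, Rel.lam⟩ => (5, 0, 0)
      | ⟨_, Rel.R⟩ => (6, 0, 0)
      | ⟨_, Rel.eta⟩ => (7, 0, 0)
      | ⟨_, Rel.rho⟩ => (8, 0, 0)
    have hf : Function.Injective f := by
      rintro ⟨_, a⟩ ⟨_, b⟩ h
      cases a <;> cases b <;> simp_all [f]
    exact hf.countable
  exact inferInstanceAs (Countable ((Σ n, L.Functions n) ⊕ (Σ n, L.Relations n)))

theorem vec1 (x : Fin 1 → ℕ) : x = ![x 0] := by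
  funext i; fin_cases i; rfl

theorem vec2 (x : Fin 2 → ℕ) : x = ![x 0, x 1] := by
  funext i; fin_cases i <;> rfl

theorem vec3 (x : Fin 3 → ℕ) : x = ![x 0, x 1, x 2] := by
  funext i; fin_cases i <;> rfl

theorem iso_iff (A B : L.Structure ℕ) : Nonempty (@FirstOrder.Language.Equiv L ℕ ℕ A B) ↔
    ∃ e : ℕ ≃ ℕ, raw A = (raw B).comap e := by
  constructor
  · rintro ⟨E⟩
    have key0 : ∀ {n : ℕ} (r : L.Relations n) (x : Fin n → ℕ),
        B.RelMap r ((@FirstOrder.Language.Equiv.toEquiv L ℕ ℕ A B E) ∘ x) ↔ A.RelMap r x :=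
      fun {n} r x => @FirstOrder.Language.Equiv.map_rel' L ℕ ℕ A B E n r x
    generalize (@FirstOrder.Language.Equiv.toEquiv L ℕ ℕ A B E) = e at key0
    refine ⟨e, ?_⟩
    have key : ∀ {n : ℕ} (r : L.Relations n) (x : Fin n → ℕ),
        B.RelMap r (e ∘ x) ↔ A.RelMap r x := key0
    have e1 : ∀ x : ℕ, e ∘ ![x] = ![e x] := by
      intro x; funext i; fin_cases i; rfl
    have e2 : ∀ x y : ℕ, e ∘ ![x, y] = ![e x, e y] := by
      intro x y; funext i; fin_cases i <;> rfl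
    have e3 : ∀ x y z : ℕ, e ∘ ![x, y, z] =
        ![e x, e y, e z] := by
      intro x y z; funext i; fin_cases i <;> rfl
    ext
    · exact (key _ _).symm.trans (by rw [e1]; rfl)
    · exact (key _ _).symm.trans (by rw [e1]; rfl)
    · exact (key _ _).symm.trans (by rw [e2]; rfl)
    · exact (key _ _).symm.trans (by rw [e2]; rfl)
    · exact (key _ _).symm.trans (by rw [e2]; rfl)
    · exact (key _ _).symm.trans (by rw [e3]; rfl)
    · exact (key _ _).symm.trans (by rw [e3]; rfl)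
    · exact (key _ _).symm.trans (by rw [e1]; rfl)
    · exact (key _ _).symm.trans (by rw [e1]; rfl)
  · rintro ⟨e, he⟩
    have hr : ∀ {n : ℕ} (r : Rel n) (x : Fin n → ℕ),
        (B.RelMap (r : L.Relations n) (e ∘ x) ↔ A.RelMap (r : L.Relations n) x) := by
      intro n r x
      cases r
      · have := congrFun (congrArg Raw.Hp he) (x 0)
        rw [vec1 (e ∘ x), vec1 x]; exact (iff_of_eq this).symm
      · have := congrFun (congrArg Raw.Sp he) (x 0)
        rw [vec1 (e ∘ x), vec1 x]; exact (iff_of_eq this).symm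
      · rename_i k
        have := congrFun (congrFun (congrArg Raw.hh he) k) (x 0)
        rw [vec1 (e ∘ x), vec1 x]; exact (iff_of_eq this).symm
      · rename_i n k
        have := congrFun (congrFun (congrFun (congrArg Raw.C he) n) k) (x 0)
        rw [vec1 (e ∘ x), vec1 x]; exact (iff_of_eq this).symm
      · have := congrFun (congrFun (congrArg Raw.lt he) (x 0)) (x 1)
        rw [vec2 (e ∘ x), vec2 x]; exact (iff_of_eq this).symm
      · have := congrFun (congrFun (congrArg Raw.lam he) (x 0)) (x 1)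
        rw [vec2 (e ∘ x), vec2 x]; exact (iff_of_eq this).symm
      · have := congrFun (congrFun (congrArg Raw.R he) (x 0)) (x 1)
        rw [vec2 (e ∘ x), vec2 x]; exact (iff_of_eq this).symm
      · have := congrFun (congrFun (congrFun (congrArg Raw.eta he) (x 0)) (x 1)) (x 2)
        rw [vec3 (e ∘ x), vec3 x]; exact (iff_of_eq this).symm
      · have := congrFun (congrFun (congrFun (congrArg Raw.rho he) (x 0)) (x 1)) (x 2)
        rw [vec3 (e ∘ x), vec3 x]; exact (iff_of_eq this).symm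
    letI := A
    exact ⟨@FirstOrder.Language.Equiv.mk L ℕ ℕ A B e (fun {n} f => Empty.elim f)
      (fun {n} r x => hr r x)⟩

end Pool.Agent.HK
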