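import Pool.Agent.MP_e47bfc_lc.Bridge
import Pool.Agent.MP_e47bfc_lc.Lang

set_option autoImplicit false
set_option linter.unusedVariables false
set_option linter.unusedSectionVars false
set_option linter.style.haveILetI false

namespace Pool.Agent.HK

/-- Transport of a typed model along an order isomorphism of the heights. -/
def GM.transport {H H' : Type} [LinearOrder H] [LinearOrder H'] (θ : H' ≃o H) {h' : ℕ → H'}
    {h : ℕ → H} (hθ : ∀ k, θ (h' k) = h k) (M : GM H' h') : GM H h where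
  S := M.S
  B := M.B
  eta x y := θ.withBotCongr (M.eta x y)
  lam o := θ (M.lam o)
  rho x y := θ.withTopCongr (M.rho x y)
  R := M.R
  e o := θ.withTopCongr (M.e o)
  eta_bot x y := by
    rw [← M.eta_bot, map_eq_bot_iff]
  eta_symm x y := by rw [M.eta_symm]
  eta_ultra x y z := by
    rw [← θ.withBotCongr.monotone.map_max]
    exact θ.withBotCongr.monotone (M.eta_ultra x y z)
  rho_top x y hl := by
    rw [← M.rho_top x y (θ.injective hl), map_eq_top_iff]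
  rho_symm x y hl := by rw [M.rho_symm x y (θ.injective hl)]
  rho_ultra x y z hl hl' := by
    rw [← θ.withTopCongr.monotone.map_min]
    exact θ.withTopCongr.monotone (M.rho_ultra x y z (θ.injective hl) (θ.injective hl'))
  R_inv x y o h := by
    refine M.R_inv x y o (θ.withBotCongr.le_iff_le.1 ?_)
    exact h
  e_or n o ho := by
    have ho' : M.lam o = h' n := θ.injective (ho.trans (hθ n).symm)
    rcases M.e_or n o ho' with h1 | ⟨k, hk⟩
    · exact Or.inl (by rw [h1, map_top])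
    · refine Or.inr ⟨k, ?_⟩
      rw [← hθ k]
      exact θ.withTopCongr.lt_iff_lt.2 hk
  e_tri1 n k c o p ho hp hc h1 h2 := by
    have ho' : M.lam o = h' n := θ.injective (ho.trans (hθ n).symm)
    have hp' : M.lam p = h' n := θ.injective (hp.trans (hθ n).symm)
    obtain ⟨c, rfl⟩ := θ.surjective c
    rw [← hθ k, θ.le_iff_le] at hc
    exact θ.withTopCongr.le_iff_le.2 (M.e_tri1 n k c o p ho' hp' hc
      (θ.withTopCongr.le_iff_le.1 h1) (θ.withTopCongr.le_iff_le.1 h2))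
  e_tri2 n k c o p ho hp hc h1 h2 := by
    have ho' : M.lam o = h' n := θ.injective (ho.trans (hθ n).symm)
    have hp' : M.lam p = h' n := θ.injective (hp.trans (hθ n).symm)
    obtain ⟨c, rfl⟩ := θ.surjective c
    rw [← hθ k, θ.le_iff_le] at hc
    exact θ.withTopCongr.le_iff_le.2 (M.e_tri2 n k c o p ho' hp' hc
      (θ.withTopCongr.le_iff_le.1 h1) (θ.withTopCongr.le_iff_le.1 h2))
  e_ne n k := by
    obtain ⟨o, h1, h2⟩ := M.e_ne n k
    refine ⟨o, by rw [h1, hθ], ?_⟩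
    rw [← hθ k]
    exact θ.withTopCongr.le_iff_le.2 h2
  Bne d := by
    obtain ⟨d, rfl⟩ := θ.surjective d
    obtain ⟨o, ho⟩ := M.Bne d
    exact ⟨o, by rw [ho]⟩
  XS z d A P Q hA hP hQ hd h1 h2 := by
    obtain ⟨d, rfl⟩ := θ.surjective d
    obtain ⟨w, k1, k2, k3, k4⟩ := M.XS z d A P Q hA hP hQ hd
      (fun o ho => θ.lt_iff_lt.1 (h1 o ho)) (fun o ho => θ.lt_iff_lt.1 (h2 o ho))
    refine ⟨w, by rw [k1]; rfl, ?_, k3, k4⟩
    intro a ha
    exact θ.withBotCongr.le_iff_le.2 (k2 a ha)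
  XB u d A P Q hA hP hQ hA' h1 := by
    obtain ⟨d, rfl⟩ := θ.surjective d
    obtain ⟨w, k0, k1, k2, k3, k4⟩ := M.XB u d A P Q hA hP hQ
      (fun o ho => θ.injective (hA' o ho))
      (fun p hp q hq hle => h1 p hp q hq (θ.withBotCongr.le_iff_le.2 hle))
    refine ⟨w, by rw [k0], by rw [k1]; rfl, ?_, k3, k4⟩
    intro a ha
    exact θ.withTopCongr.le_iff_le.2 (k2 a ha)

/-- Every finite modification of the trace is realised. -/
theorem GM.adjust {H : Type} [LinearOrder H] {h : ℕ → H} (M : GM H h) (hm : StrictMono h)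
    (hc : Cof h) (x : M.S) (s : ℕ → Prop) (hs : ∀ n, s n → M.a n) (m : ℕ)
    (hsm : ∀ n, m ≤ n → (s n ↔ M.r x n)) : ∃ y, ∀ n, (M.r y n ↔ s n) := by
  have fin : ∀ t : ℕ → Prop, {o | ∃ n, n < m ∧ M.lam o = h n ∧ M.e o = ⊤ ∧ t n}.Finite := by
    intro t
    have : {o | ∃ n, n < m ∧ M.lam o = h n ∧ M.e o = ⊤ ∧ t n} ⊆
        ⋃ n ∈ Set.Iio m, {o | M.lam o = h n ∧ M.e o = ⊤} := by
      rintro o' ⟨n, h1, h2, h3, _⟩
      simp only [Set.mem_iUnion]
      exact ⟨n, h1, h2, h3⟩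
    refine Set.Finite.subset (Set.Finite.biUnion (Set.finite_Iio m) ?_) this
    intro n _
    apply Set.Subsingleton.finite
    rintro a ⟨h1, h2⟩ b ⟨h3, h4⟩
    exact M.uniq hc h1 h3 h2 h4
  obtain ⟨y, h1, -, h3, h4⟩ := M.XS x (h m) ∅ _ _ Set.finite_empty (fin s) (fin (fun n => ¬ s n))
    (by
      rw [Set.disjoint_left]
      rintro o ⟨n, h1, h2, h3, h4⟩ ⟨n', h1', h2', h3', h4'⟩
      have : n = n' := hm.injective (h2.symm.trans h2')
      rw [this] at h4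
      exact h4' h4)
    (by rintro o ⟨n, h1, h2, h3, h4⟩; rw [h2]; exact hm h1)
    (by rintro o ⟨n, h1, h2, h3, h4⟩; rw [h2]; exact hm h1)
  refine ⟨y, fun n => ?_⟩
  rcases lt_or_ge n m with hn | hn
  · by_cases hsn : s n
    · simp only [hsn, iff_true]
      obtain ⟨o, k1, k2⟩ := hs n hsn
      exact ⟨o, k1, k2, h3 o ⟨n, hn, k1, k2, hsn⟩⟩
    · simp only [hsn, iff_false]
      rintro ⟨o, k1, k2, k3⟩
      exact h4 o ⟨n, hn, k1, k2, hsn⟩ k3
  · rw [hsm n hn]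
    apply M.r_inv
    rw [h1]
    exact WithBot.coe_le_coe.2 (hm.monotone hn)

/-- In a cofinal model all traces are eventually equal. -/
theorem GM.r_eventually {H : Type} [LinearOrder H] {h : ℕ → H} (M : GM H h) (hm : StrictMono h)
    (hc : Cof h) (x y : M.S) : ∃ m, ∀ n, m ≤ n → (M.r x n ↔ M.r y n) := by
  by_cases hxy : x = y
  · exact ⟨0, fun n _ => by rw [hxy]⟩
  obtain ⟨d, hd⟩ := WithBot.ne_bot_iff_exists.1 (fun h => hxy ((M.eta_bot x y).1 h))
  obtain ⟨m, hm'⟩ := hc d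
  refine ⟨m, fun n hn => M.r_inv ?_⟩
  rw [← hd]
  exact WithBot.coe_le_coe.2 (hm'.le.trans (hm.monotone hn))

section invariants
variable {U V : Type}

/-- The named heights are cofinal. -/
def iCof (X : Raw U) : Prop := ∀ d, X.Hp d → ∃ k c, X.hh k c ∧ X.lt d c

/-- There is a least upper bound of the named heights. -/
def iMin (X : Raw U) : Prop := ∃ d, X.Hp d ∧ (∀ k c, X.hh k c → X.lt c d) ∧
  ∀ d', X.Hp d' → (∀ k c, X.hh k c → X.lt c d') → X.le d d'

/-- The `n`-th branch is realised. -/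
def iA (X : Raw U) (n : ℕ) : Prop := ∃ o, ∀ k, X.C n k o

/-- `x` is related to a point on the `n`-th branch. -/
def iR (X : Raw U) (x : U) (n : ℕ) : Prop := ∃ o, (∀ k, X.C n k o) ∧ X.R x o

variable {X : Raw U} {Y : Raw V}

theorem iCof_iff (hX : X.Ax) : iCof X ↔ Cof (hT hX) := by
  constructor
  · intro h d
    obtain ⟨k, c, h1, h2⟩ := h d.1 d.2
    refine ⟨k, ?_⟩
    rw [HT.lt_iff, hT_eq hX h1]
    exact h2
  · intro h d hd
    obtain ⟨k, hk⟩ := h ⟨d, hd⟩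
    exact ⟨k, _, hT_spec hX k, hk⟩

theorem iMin_iff (hX : X.Ax) :
    iMin X ↔ ∃ d, IsLeast (upperBounds (Set.range (hT hX))) d := by
  have key : ∀ d : HT hX, d ∈ upperBounds (Set.range (hT hX)) ↔ ∀ k c, X.hh k c → X.lt c d.1 := by
    intro d
    constructor
    · intro h k c hc
      rw [← hT_eq hX hc, ← HT.lt_iff]
      exact lt_of_lt_of_le (hT_mono hX (Nat.lt_succ_self k)) (h ⟨k + 1, rfl⟩)
    · rintro h _ ⟨k, rfl⟩
      exact le_of_lt (h k _ (hT_spec hX k))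
  constructor
  · rintro ⟨d, h1, h2, h3⟩
    refine ⟨⟨d, h1⟩, (key _).2 h2, ?_⟩
    intro d' hd'
    exact h3 d'.1 d'.2 ((key _).1 hd')
  · rintro ⟨d, h1, h2⟩
    refine ⟨d.1, d.2, (key _).1 h1, ?_⟩
    intro d' hd' h
    exact h2 ((key ⟨d', hd'⟩).2 h)

theorem iA_iff (hX : X.Ax) (n : ℕ) : iA X n ↔ (gm hX).a n := by
  constructor
  · rintro ⟨o, ho⟩
    have hl : lamT hX ⟨o, C_Bp hX (ho 0)⟩ = hT hX n := C_lam hX (ho 0)
    exact ⟨⟨o, C_Bp hX (ho 0)⟩, hl, (eT_top hX _ n hl).2 ho⟩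
  · rintro ⟨o, h1, h2⟩
    exact ⟨o.1, (eT_top hX _ n h1).1 h2⟩

theorem iR_iff (hX : X.Ax) (x : ST hX) (n : ℕ) : iR X x.1 n ↔ (gm hX).r x n := by
  constructor
  · rintro ⟨o, ho, hR⟩
    have hl : lamT hX ⟨o, C_Bp hX (ho 0)⟩ = hT hX n := C_lam hX (ho 0)
    exact ⟨⟨o, C_Bp hX (ho 0)⟩, hl, (eT_top hX _ n hl).2 ho, hR⟩
  · rintro ⟨o, h1, h2, h3⟩
    exact ⟨o.1, (eT_top hX _ n h1).1 h2, h3⟩

end invariants

end Pool.Agent.HK
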