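import Mathlib

set_option autoImplicit false

namespace Pool.Agent.HK

open Order

namespace HIsoAux

/-- `x` and `x'` have the same position with respect to the two named sequences. -/
def Same {H H' : Type} [LinearOrder H] [LinearOrder H'] (h : ℕ → H) (h' : ℕ → H')
    (x : H) (x' : H') : Prop :=
  (∀ k, x < h k ↔ x' < h' k) ∧ (∀ k, h k < x ↔ h' k < x') ∧
    (IsLeast (upperBounds (Set.range h)) x ↔ IsLeast (upperBounds (Set.range h')) x')

/-- Finite partial isomorphisms. -/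
def PI {H H' : Type} [LinearOrder H] [LinearOrder H'] (h : ℕ → H) (h' : ℕ → H')
    (f : Set (H × H')) : Prop :=
  f.Finite ∧ (∀ p ∈ f, Same h h' p.1 p.2) ∧ ∀ p ∈ f, ∀ q ∈ f, (p.1 < q.1 ↔ p.2 < q.2)

variable {H H' : Type} [LinearOrder H] [LinearOrder H'] {h : ℕ → H} {h' : ℕ → H'}

theorem Same.symm {x : H} {x' : H'} (s : Same h h' x x') : Same h' h x' x :=
  ⟨fun k => (s.1 k).symm, fun k => (s.2.1 k).symm, s.2.2.symm⟩

theorem PI.swap {f : Set (H × H')} (hf : PI h h' f) : PI h' h (Prod.swap '' f) := by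
  refine ⟨hf.1.image _, ?_, ?_⟩
  · rintro _ ⟨p, hp, rfl⟩
    exact (hf.2.1 p hp).symm
  · rintro _ ⟨p, hp, rfl⟩ _ ⟨q, hq, rfl⟩
    exact (hf.2.2 p hp q hq).symm

theorem iffs {p x : H} {q x' : H'} (hne : p ≠ x) (h1 : p < x → q < x') (h2 : x < p → x' < q) :
    (p < x ↔ q < x') ∧ (x < p ↔ x' < q) := by
  rcases lt_or_gt_of_ne hne with h3 | h3
  · exact ⟨⟨fun _ => h1 h3, fun _ => h3⟩, ⟨fun h4 => absurd h3 (not_lt.2 h4.le),
      fun h4 => absurd (h1 h3) (not_lt.2 h4.le)⟩⟩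
  · exact ⟨⟨fun h4 => absurd h3 (not_lt.2 h4.le), fun h4 => absurd (h2 h3) (not_lt.2 h4.le)⟩,
      ⟨fun _ => h2 h3, fun _ => h3⟩⟩

theorem not_least (hm : StrictMono h) {x : H} {k : ℕ} (hk : x ≤ h k) :
    ¬ IsLeast (upperBounds (Set.range h)) x := by
  intro hl
  have h1 : h (k + 1) ≤ x := hl.1 ⟨k + 1, rfl⟩
  exact absurd (hm (Nat.lt_succ_self k)) (not_lt.2 (h1.trans hk))

theorem forth [DenselyOrdered H'] [NoMinOrder H'] [NoMaxOrder H'] (hm : StrictMono h)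
    (hm' : StrictMono h')
    (hc : (∀ d, ∃ k, d < h k) ↔ (∀ d, ∃ k, d < h' k))
    (hmin : (∃ d, IsLeast (upperBounds (Set.range h)) d) ↔
      (∃ d, IsLeast (upperBounds (Set.range h')) d)) (f : Set (H × H')) (hf : PI h h' f) (x : H) :
    ∃ x', Same h h' x x' ∧ ∀ p ∈ f, (p.1 < x ↔ p.2 < x') ∧ (x < p.1 ↔ x' < p.2) := by
  classical
  have : Nonempty H' := ⟨h' 0⟩
  obtain ⟨hfin, hS, hO⟩ := hf
  by_cases h0 : ∃ y, (x, y) ∈ f
  · obtain ⟨y, hy⟩ := h0
    exact ⟨y, hS _ hy, fun p hp => ⟨hO p hp _ hy, hO _ hy p hp⟩⟩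
  have hne : ∀ p ∈ f, p.1 ≠ x := by
    rintro ⟨a, b⟩ hp rfl
    exact h0 ⟨b, hp⟩
  by_cases ha : ∃ k, x = h k
  · obtain ⟨k, rfl⟩ := ha
    refine ⟨h' k, ⟨fun j => ?_, fun j => ?_, ?_⟩, fun p hp => ⟨(hS p hp).1 k, (hS p hp).2.1 k⟩⟩
    · rw [hm.lt_iff_lt, hm'.lt_iff_lt]
    · rw [hm.lt_iff_lt, hm'.lt_iff_lt]
    · exact ⟨fun h1 => absurd h1 (not_least hm le_rfl), fun h1 => absurd h1 (not_least hm' le_rfl)⟩
  have hxne : ∀ k, x ≠ h k := fun k hk => ha ⟨k, hk⟩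
  by_cases hb : ∃ k, x < h k
  · obtain ⟨k, hk, hk'⟩ : ∃ k, x < h k ∧ ∀ j < k, h j < x :=
      ⟨Nat.find hb, Nat.find_spec hb, fun j hj =>
        lt_of_le_of_ne (not_lt.1 (Nat.find_min hb hj)) (hxne j).symm⟩
    obtain ⟨x', hx1, hx2⟩ := exists_between_finsets
      ((hfin.toFinset.filter (fun p => p.1 < x)).image Prod.snd ∪ (Finset.range k).image h')
      ((hfin.toFinset.filter (fun p => x < p.1)).image Prod.snd ∪ {h' k}) (by
        intro u hu v hv
        simp only [Finset.mem_union, Finset.mem_image, Finset.mem_filter, Set.Finite.mem_toFinset,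
          Finset.mem_range, Finset.mem_singleton] at hu hv
        rcases hu with ⟨p, ⟨hp, hpx⟩, rfl⟩ | ⟨j, hj, rfl⟩ <;>
          rcases hv with ⟨q, ⟨hq, hqx⟩, rfl⟩ | rfl
        · exact (hO p hp q hq).1 (hpx.trans hqx)
        · exact ((hS p hp).1 k).1 (hpx.trans hk)
        · exact ((hS q hq).2.1 j).1 ((hk' j hj).trans hqx)
        · exact hm' hj)
    simp only [Finset.mem_union, Finset.mem_image, Finset.mem_filter, Set.Finite.mem_toFinset,
          Finset.mem_range, Finset.mem_singleton] at hx1 hx2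
    have hxk : x' < h' k := hx2 _ (Or.inr rfl)
    have hxj : ∀ j < k, h' j < x' := fun j hj => hx1 _ (Or.inr ⟨j, hj, rfl⟩)
    refine ⟨x', ⟨fun j => ?_, fun j => ?_, ?_⟩, fun p hp => iffs (hne p hp)
      (fun h1 => hx1 _ (Or.inl ⟨p, ⟨hp, h1⟩, rfl⟩)) (fun h1 => hx2 _ (Or.inl ⟨p, ⟨hp, h1⟩, rfl⟩))⟩
    · rcases lt_or_ge j k with hj | hj
      · exact ⟨fun h1 => absurd h1 (not_lt.2 (hk' j hj).le),
          fun h1 => absurd h1 (not_lt.2 (hxj j hj).le)⟩
      · exact ⟨fun _ => hxk.trans_le (hm'.monotone hj), fun _ => hk.trans_le (hm.monotone hj)⟩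
    · rcases lt_or_ge j k with hj | hj
      · exact ⟨fun _ => hxj j hj, fun _ => hk' j hj⟩
      · exact ⟨fun h1 => absurd h1 (not_lt.2 (hk.trans_le (hm.monotone hj)).le),
          fun h1 => absurd h1 (not_lt.2 (hxk.trans_le (hm'.monotone hj)).le)⟩
    · exact ⟨fun h1 => absurd h1 (not_least hm hk.le), fun h1 => absurd h1 (not_least hm' hxk.le)⟩
  have hxb : ∀ k, h k < x := fun k => lt_of_le_of_ne (not_lt.1 fun h1 => hb ⟨k, h1⟩) (hxne k).symm
  have hxub : x ∈ upperBounds (Set.range h) := by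
    rintro _ ⟨k, rfl⟩
    exact (hxb k).le
  by_cases hl : IsLeast (upperBounds (Set.range h)) x
  · obtain ⟨m', hm1⟩ := hmin.1 ⟨x, hl⟩
    have hm2 : ∀ k, h' k < m' := fun k =>
      (hm' (Nat.lt_succ_self k)).trans_le (hm1.1 ⟨k + 1, rfl⟩)
    refine ⟨m', ⟨fun j => ?_, fun j => ?_, ?_⟩, fun p hp => iffs (hne p hp) ?_ ?_⟩
    · exact ⟨fun h1 => absurd h1 (not_lt.2 (hxb j).le), fun h1 => absurd h1 (not_lt.2 (hm2 j).le)⟩
    · exact ⟨fun _ => hm2 j, fun _ => hxb j⟩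
    · exact ⟨fun _ => hm1, fun _ => hl⟩
    · intro h1
      obtain ⟨k, hk⟩ : ∃ k, p.1 < h k := by
        by_contra hcon
        push Not at hcon
        have hub : p.1 ∈ upperBounds (Set.range h) := by
          rintro _ ⟨k, rfl⟩
          exact hcon k
        exact absurd (hl.2 hub) (not_le.2 h1)
      exact (((hS p hp).1 k).1 hk).trans (hm2 k)
    · intro h1
      have h2 : p.2 ∈ upperBounds (Set.range h') := by
        rintro _ ⟨k, rfl⟩
        exact (((hS p hp).2.1 k).1 ((hxb k).trans h1)).le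
      refine lt_of_le_of_ne (hm1.2 h2) ?_
      rintro h3
      have h4 : IsLeast (upperBounds (Set.range h)) p.1 := (hS p hp).2.2.2 (h3 ▸ hm1)
      exact absurd h1 (not_lt.2 (h4.2 hxub))
  · obtain ⟨l', hl1, hl2⟩ : ∃ l', (∀ k, h' k ≤ l') ∧ ∀ p ∈ f, x < p.1 → l' < p.2 := by
      rcases (((hfin.toFinset.filter (fun p => x < p.1)).image Prod.snd)).eq_empty_or_nonempty with
        he | hne'
      · obtain ⟨d, hd⟩ : ∃ d, ∀ k, h' k ≤ d := by
          by_contra hcon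
          push Not at hcon
          obtain ⟨k, hk⟩ := hc.2 hcon x
          exact absurd hk (not_lt.2 (hxb k).le)
        refine ⟨d, hd, fun p hp h1 => ?_⟩
        have : p.2 ∈ ((hfin.toFinset.filter (fun p => x < p.1)).image Prod.snd) := by
          simp only [Finset.mem_image, Finset.mem_filter, Set.Finite.mem_toFinset]
          exact ⟨p, ⟨hp, h1⟩, rfl⟩
        rw [he] at this
        simp at this
      · obtain ⟨t, ht, hmint⟩ := Finset.exists_min_image _ id hne'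
        simp only [Finset.mem_image, Finset.mem_filter, Set.Finite.mem_toFinset, id] at ht hmint
        obtain ⟨p, ⟨hp, hpx⟩, rfl⟩ := ht
        have h2 : p.2 ∈ upperBounds (Set.range h') := by
          rintro _ ⟨k, rfl⟩
          exact (((hS p hp).2.1 k).1 ((hxb k).trans hpx)).le
        have h3 : ¬ IsLeast (upperBounds (Set.range h')) p.2 := by
          intro h4
          exact absurd (((hS p hp).2.2.2 h4).2 hxub) (not_le.2 hpx)
        obtain ⟨l', hl1, hl2⟩ : ∃ l' ∈ upperBounds (Set.range h'), l' < p.2 := by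
          by_contra hcon
          push Not at hcon
          exact h3 ⟨h2, hcon⟩
        exact ⟨l', fun k => hl1 ⟨k, rfl⟩, fun q hq h1 => hl2.trans_le (hmint _ ⟨q, ⟨hq, h1⟩, rfl⟩)⟩
    obtain ⟨x', hx1, hx2⟩ := exists_between_finsets
      ((hfin.toFinset.filter (fun p => p.1 < x)).image Prod.snd ∪ {l'})
      ((hfin.toFinset.filter (fun p => x < p.1)).image Prod.snd) (by
        intro u hu v hv
        simp only [Finset.mem_union, Finset.mem_image, Finset.mem_filter, Set.Finite.mem_toFinset,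
          Finset.mem_singleton] at hu hv
        obtain ⟨q, ⟨hq, hqx⟩, rfl⟩ := hv
        rcases hu with ⟨p, ⟨hp, hpx⟩, rfl⟩ | rfl
        · exact (hO p hp q hq).1 (hpx.trans hqx)
        · exact hl2 q hq hqx)
    simp only [Finset.mem_union, Finset.mem_image, Finset.mem_filter, Set.Finite.mem_toFinset,
          Finset.mem_singleton] at hx1 hx2
    have hlx : l' < x' := hx1 _ (Or.inr rfl)
    refine ⟨x', ⟨fun j => ?_, fun j => ?_, ?_⟩, fun p hp => iffs (hne p hp)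
      (fun h1 => hx1 _ (Or.inl ⟨p, ⟨hp, h1⟩, rfl⟩)) (fun h1 => hx2 _ ⟨p, ⟨hp, h1⟩, rfl⟩)⟩
    · exact ⟨fun h1 => absurd h1 (not_lt.2 (hxb j).le),
        fun h1 => absurd h1 (not_lt.2 ((hl1 j).trans hlx.le))⟩
    · exact ⟨fun _ => (hl1 j).trans_lt hlx, fun _ => hxb j⟩
    · refine ⟨fun h1 => absurd h1 hl, fun h1 => ?_⟩
      have hub : l' ∈ upperBounds (Set.range h') := by
        rintro _ ⟨k, rfl⟩
        exact hl1 k
      exact absurd (h1.2 hub) (not_le.2 hlx)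

theorem PI.insert {f : Set (H × H')} (hf : PI h h' f) {x : H} {x' : H'} (hs : Same h h' x x')
    (hx : ∀ p ∈ f, (p.1 < x ↔ p.2 < x') ∧ (x < p.1 ↔ x' < p.2)) : PI h h' (insert (x, x') f) := by
  refine ⟨hf.1.insert _, ?_, ?_⟩
  · rintro p (rfl | hp)
    · exact hs
    · exact hf.2.1 p hp
  · rintro p (rfl | hp) q (rfl | hq)
    · exact ⟨fun h1 => absurd h1 (lt_irrefl _), fun h1 => absurd h1 (lt_irrefl _)⟩
    · exact (hx q hq).2
    · exact (hx p hp).1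
    · exact hf.2.2 p hp q hq

end HIsoAux

open HIsoAux

theorem H_iso {H H' : Type} [LinearOrder H] [LinearOrder H'] [Countable H] [Countable H']
    [DenselyOrdered H] [DenselyOrdered H'] [NoMinOrder H] [NoMaxOrder H] [NoMinOrder H']
    [NoMaxOrder H'] (h : ℕ → H) (h' : ℕ → H') (hm : StrictMono h) (hm' : StrictMono h')
    (hc : (∀ d, ∃ k, d < h k) ↔ (∀ d, ∃ k, d < h' k))
    (hmin : (∃ d, IsLeast (upperBounds (Set.range h)) d) ↔
      (∃ d, IsLeast (upperBounds (Set.range h')) d)) :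
    ∃ θ : H ≃o H', ∀ k, θ (h k) = h' k := by
  classical
  let Q := {f : Set (H × H') // PI h h' f}
  let ι := H ⊕ H'
  have : Encodable ι := Encodable.ofCountable ι
  let 𝒟 : ι → Cofinal Q := fun i => match i with
    | Sum.inl a => ⟨{p | ∃ b, (a, b) ∈ p.1}, fun p => by
        obtain ⟨x', h1, h2⟩ := forth hm hm' hc hmin p.1 p.2 a
        exact ⟨⟨insert (a, x') p.1, p.2.insert h1 h2⟩, ⟨x', Set.mem_insert _ _⟩,
          Set.subset_insert _ _⟩⟩
    | Sum.inr b => ⟨{p | ∃ a, (a, b) ∈ p.1}, fun p => by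
        obtain ⟨x', h1, h2⟩ := forth hm' hm hc.symm hmin.symm _ p.2.swap b
        exact ⟨⟨insert (x', b) p.1, p.2.insert h1.symm (fun q hq =>
            ⟨(h2 _ ⟨q, hq, rfl⟩).1.symm, (h2 _ ⟨q, hq, rfl⟩).2.symm⟩)⟩, ⟨x', Set.mem_insert _ _⟩,
          Set.subset_insert _ _⟩⟩
  have h00 : PI h h' (∅ : Set (H × H')) :=
    ⟨Set.finite_empty, fun p hp => absurd hp (Set.notMem_empty _),
      fun p hp => absurd hp (Set.notMem_empty _)⟩
  let I : Ideal Q := idealOfCofinals ⟨∅, h00⟩ 𝒟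
  have hdir : ∀ p ∈ I, ∀ q ∈ I, ∃ r ∈ I, p ≤ r ∧ q ≤ r := I.directed
  have m1 : ∀ a, ∃ b, ∃ p ∈ I, (a, b) ∈ p.1 := fun a => by
    obtain ⟨x, hx, hI⟩ := cofinal_meets_idealOfCofinals ⟨∅, h00⟩ 𝒟 (Sum.inl a)
    obtain ⟨b, hb⟩ := hx
    exact ⟨b, x, hI, hb⟩
  have m2 : ∀ b, ∃ a, ∃ p ∈ I, (a, b) ∈ p.1 := fun a => by
    obtain ⟨x, hx, hI⟩ := cofinal_meets_idealOfCofinals ⟨∅, h00⟩ 𝒟 (Sum.inr a)
    obtain ⟨b, hb⟩ := hx
    exact ⟨b, x, hI, hb⟩
  choose u hu using m1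
  choose v hv using m2
  have k1 : ∀ a b a' b', (∃ p ∈ I, (a, b) ∈ p.1) → (∃ p ∈ I, (a', b') ∈ p.1) →
      (a < a' ↔ b < b') := by
    rintro a b a' b' ⟨p, hp, hp'⟩ ⟨q, hq, hq'⟩
    obtain ⟨r, hr, hpr, hqr⟩ := hdir p hp q hq
    exact r.2.2.2 (a, b) (hpr hp') (a', b') (hqr hq')
  have k2 : ∀ a b a' b', (∃ p ∈ I, (a, b) ∈ p.1) → (∃ p ∈ I, (a', b') ∈ p.1) →
      (a = a' ↔ b = b') := by
    intro a b a' b' h1 h2
    have h3 := k1 _ _ _ _ h1 h2
    have h4 := k1 _ _ _ _ h2 h1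
    constructor
    · rintro rfl
      exact le_antisymm (not_lt.1 fun h5 => lt_irrefl _ (h4.2 h5))
        (not_lt.1 fun h5 => lt_irrefl _ (h3.2 h5))
    · rintro rfl
      exact le_antisymm (not_lt.1 fun h5 => lt_irrefl _ (h4.1 h5))
        (not_lt.1 fun h5 => lt_irrefl _ (h3.1 h5))
  let e : H ≃ H' := ⟨u, v, fun a => (k2 _ _ _ _ (hv (u a)) (hu a)).2 rfl,
      fun b => (k2 _ _ _ _ (hu (v b)) (hv b)).1 rfl⟩
  have he : ∀ a, e a = u a := fun _ => rfl
  refine ⟨⟨e, ?_⟩, ?_⟩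
  · intro a b
    rw [he, he, ← not_lt, ← not_lt, not_iff_not]
    exact (k1 _ _ _ _ (hu b) (hu a)).symm
  · intro k
    change u (h k) = h' k
    obtain ⟨p, hp, hp'⟩ := hu (h k)
    obtain ⟨s1, s2, -⟩ := p.2.2.1 _ hp'
    refine le_antisymm (not_lt.1 fun h5 => lt_irrefl _ ((s2 k).2 h5))
        (not_lt.1 fun h5 => lt_irrefl _ ((s1 k).2 h5))

end Pool.Agent.HK
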