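import Pool.Agent.MP_e47bfc_lc.Classify
import Pool.Agent.MP_e47bfc_lc.HIso

set_option autoImplicit false
set_option linter.unusedVariables false
set_option linter.unusedSectionVars false
set_option linter.style.haveILetI false

namespace Pool.Agent.HK

section assemble
variable {U V : Type} {X : Raw U} {Y : Raw V}

/-- A universe is the disjoint union of its three sorts. -/
noncomputable def joinE (hX : X.Ax) : (HT hX ⊕ (ST hX ⊕ BT hX)) ≃ U :=
  Equiv.ofBijective (Sum.elim Subtype.val (Sum.elim Subtype.val Subtype.val)) (by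
    constructor
    · rintro (a | a | a) (b | b | b) h
      · exact congrArg Sum.inl (Subtype.ext h)
      · exact absurd b.2 (by have := hX.disj a.1 a.2; rwa [show a.1 = b.1 from h] at this)
      · exact absurd a.2 (by rw [show a.1 = b.1 from h]; exact b.2.1)
      · exact absurd a.2 (by have := hX.disj b.1 b.2; rwa [show b.1 = a.1 from h.symm] at this)
      · exact congrArg (Sum.inr ∘ Sum.inl) (Subtype.ext h)
      · exact absurd a.2 (by rw [show a.1 = b.1 from h]; exact b.2.2)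
      · exact absurd b.2 (by rw [show b.1 = a.1 from h.symm]; exact a.2.1)
      · exact absurd b.2 (by rw [show b.1 = a.1 from h.symm]; exact a.2.2)
      · exact congrArg (Sum.inr ∘ Sum.inr) (Subtype.ext h)
    · intro x
      by_cases h1 : X.Hp x
      · exact ⟨Sum.inl ⟨x, h1⟩, rfl⟩
      · by_cases h2 : X.Sp x
        · exact ⟨Sum.inr (Sum.inl ⟨x, h2⟩), rfl⟩
        · exact ⟨Sum.inr (Sum.inr ⟨x, h1, h2⟩), rfl⟩)

theorem assemble (hX : X.Ax) (hY : Y.Ax) (θ : HT hX ≃o HT hY)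
    (hθ : ∀ k, θ (hT hX k) = hT hY k) (eS : ST hX ≃ ST hY) (eB : BT hX ≃ BT hY)
    (h1 : ∀ x y d, etaT hX x y = WithBot.some d ↔ etaT hY (eS x) (eS y) = WithBot.some (θ d))
    (h2 : ∀ o, θ (lamT hX o) = lamT hY (eB o))
    (h3 : ∀ o p, lamT hX o = lamT hX p → ∀ d,
      (rhoT hX o p = WithTop.some d ↔ rhoT hY (eB o) (eB p) = WithTop.some (θ d)))
    (h4 : ∀ o n k, lamT hX o = hT hX n → (X.C n k o.1 ↔ Y.C n k (eB o).1))
    (h5 : ∀ x o, X.R x.1 o.1 ↔ Y.R (eS x).1 (eB o).1) : ∃ e : U ≃ V, X = Y.comap e := by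
  let e : U ≃ V := (joinE hX).symm.trans
    ((Equiv.sumCongr θ.toEquiv (Equiv.sumCongr eS eB)).trans (joinE hY))
  have eH : ∀ a : HT hX, e a.1 = (θ a).1 := by
    intro a
    have : (joinE hX).symm a.1 = Sum.inl a := (joinE hX).symm_apply_eq.2 rfl
    change (joinE hY) ((Equiv.sumCongr θ.toEquiv (Equiv.sumCongr eS eB)) ((joinE hX).symm a.1)) = _
    rw [this]; rfl
  have eSs : ∀ a : ST hX, e a.1 = (eS a).1 := by
    intro a
    have : (joinE hX).symm a.1 = Sum.inr (Sum.inl a) := (joinE hX).symm_apply_eq.2 rfl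
    change (joinE hY) ((Equiv.sumCongr θ.toEquiv (Equiv.sumCongr eS eB)) ((joinE hX).symm a.1)) = _
    rw [this]; rfl
  have eBs : ∀ a : BT hX, e a.1 = (eB a).1 := by
    intro a
    have : (joinE hX).symm a.1 = Sum.inr (Sum.inr a) := (joinE hX).symm_apply_eq.2 rfl
    change (joinE hY) ((Equiv.sumCongr θ.toEquiv (Equiv.sumCongr eS eB)) ((joinE hX).symm a.1)) = _
    rw [this]; rfl
  have kinds : ∀ x : U, (∃ a : HT hX, x = a.1) ∨ (∃ a : ST hX, x = a.1) ∨ ∃ a : BT hX, x = a.1 := by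
    intro x
    by_cases k1 : X.Hp x
    · exact Or.inl ⟨⟨x, k1⟩, rfl⟩
    · by_cases k2 : X.Sp x
      · exact Or.inr (Or.inl ⟨⟨x, k2⟩, rfl⟩)
      · exact Or.inr (Or.inr ⟨⟨x, k1, k2⟩, rfl⟩)
  have pH : ∀ x, X.Hp x ↔ Y.Hp (e x) := by
    intro x
    rcases kinds x with ⟨a, rfl⟩ | ⟨a, rfl⟩ | ⟨a, rfl⟩
    · rw [eH]; exact iff_of_true a.2 (θ a).2
    · rw [eSs]; exact iff_of_false (fun h => hX.disj _ h a.2) (fun h => hY.disj _ h (eS a).2)
    · rw [eBs]; exact iff_of_false a.2.1 (eB a).2.1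
  have pS : ∀ x, X.Sp x ↔ Y.Sp (e x) := by
    intro x
    rcases kinds x with ⟨a, rfl⟩ | ⟨a, rfl⟩ | ⟨a, rfl⟩
    · rw [eH]; exact iff_of_false (hX.disj _ a.2) (hY.disj _ (θ a).2)
    · rw [eSs]; exact iff_of_true a.2 (eS a).2
    · rw [eBs]; exact iff_of_false a.2.2 (eB a).2.2
  have pB : ∀ x, X.Bp x ↔ Y.Bp (e x) := by
    intro x
    unfold Raw.Bp
    rw [pH, pS]
  have lH : ∀ x, X.Hp x → ∃ a : HT hX, x = a.1 := fun x hx => ⟨⟨x, hx⟩, rfl⟩
  have lS : ∀ x, X.Sp x → ∃ a : ST hX, x = a.1 := fun x hx => ⟨⟨x, hx⟩, rfl⟩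
  have lB : ∀ x, X.Bp x → ∃ a : BT hX, x = a.1 := fun x hx => ⟨⟨x, hx⟩, rfl⟩
  have lH' : ∀ x, Y.Hp x → ∃ a : HT hY, x = a.1 := fun x hx => ⟨⟨x, hx⟩, rfl⟩
  refine ⟨e, ?_⟩
  ext
  · rename_i x
    exact pH x
  · rename_i x
    exact pS x
  · rename_i x y
    change X.lt x y ↔ Y.lt (e x) (e y)
    by_cases hx : X.Hp x ∧ X.Hp y
    · obtain ⟨a, rfl⟩ := lH x hx.1
      obtain ⟨b, rfl⟩ := lH y hx.2
      have := θ.lt_iff_lt (x := a) (y := b)
      rw [HT.lt_iff, HT.lt_iff, ← eH, ← eH] at this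
      exact this.symm
    · refine iff_of_false (fun h => hx (hX.lt_ty _ _ h)) (fun h => hx ?_)
      rw [pH, pH]
      exact hY.lt_ty _ _ h
  · rename_i x y
    change X.lam x y ↔ Y.lam (e x) (e y)
    by_cases hx : X.Bp x ∧ X.Hp y
    · obtain ⟨a, rfl⟩ := lB x hx.1
      obtain ⟨b, rfl⟩ := lH y hx.2
      have k1 := lamT_iff hX a b
      have k2 := lamT_iff hY (eB a) (θ b)
      rw [← eH, ← eBs, ← h2, θ.injective.eq_iff, k1] at k2
      exact k2
    · refine iff_of_false (fun h => hx (hX.lam_ty _ _ h)) (fun h => hx ?_)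
      rw [pB, pH]
      exact hY.lam_ty _ _ h
  · rename_i x y
    change X.R x y ↔ Y.R (e x) (e y)
    by_cases hx : X.Sp x ∧ X.Bp y
    · obtain ⟨a, rfl⟩ := lS x hx.1
      obtain ⟨b, rfl⟩ := lB y hx.2
      have := h5 a b
      rw [← eSs, ← eBs] at this
      exact this
    · refine iff_of_false (fun h => hx (hX.R_ty _ _ h)) (fun h => hx ?_)
      rw [pS, pB]
      exact hY.R_ty _ _ h
  · rename_i x y z
    change X.eta x y z ↔ Y.eta (e x) (e y) (e z)
    by_cases hx : X.Sp x ∧ X.Sp y ∧ X.Hp z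
    · obtain ⟨a, rfl⟩ := lS x hx.1
      obtain ⟨b, rfl⟩ := lS y hx.2.1
      obtain ⟨c, rfl⟩ := lH z hx.2.2
      have := h1 a b c
      rw [etaT_iff, etaT_iff, ← eSs, ← eSs, ← eH] at this
      exact this
    · refine iff_of_false (fun h => hx ⟨(hX.eta_ty _ _ _ h).1, (hX.eta_ty _ _ _ h).2.1,
        (hX.eta_ty _ _ _ h).2.2.1⟩) (fun h => hx ?_)
      rw [pS, pS, pH]
      exact ⟨(hY.eta_ty _ _ _ h).1, (hY.eta_ty _ _ _ h).2.1, (hY.eta_ty _ _ _ h).2.2.1⟩
  · rename_i x y z
    change X.rho x y z ↔ Y.rho (e x) (e y) (e z)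
    by_cases hx : ∃ (a b : BT hX) (c : HT hX), x = a.1 ∧ y = b.1 ∧ z = c.1 ∧ lamT hX a = lamT hX b
    · obtain ⟨a, b, c, rfl, rfl, rfl, hl⟩ := hx
      have := h3 a b hl c
      rw [rhoT_iff, rhoT_iff, ← eBs, ← eBs, ← eH] at this
      exact this
    · refine iff_of_false (fun h => hx ?_) (fun h => hx ?_)
      · obtain ⟨hz, _, d, hd1, hd2⟩ := hX.rho_ty _ _ _ h
        obtain ⟨a, rfl⟩ := lB x (hX.lam_ty _ _ hd1).1
        obtain ⟨b, rfl⟩ := lB y (hX.lam_ty _ _ hd2).1
        obtain ⟨d, rfl⟩ := lH d (hX.lam_ty _ _ hd1).2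
        obtain ⟨c, rfl⟩ := lH z hz
        exact ⟨a, b, c, rfl, rfl, rfl, ((lamT_iff hX a d).2 hd1).trans
          ((lamT_iff hX b d).2 hd2).symm⟩
      · obtain ⟨hz, _, d, hd1, hd2⟩ := hY.rho_ty _ _ _ h
        obtain ⟨a, rfl⟩ := lB x ((pB x).2 (hY.lam_ty _ _ hd1).1)
        obtain ⟨b, rfl⟩ := lB y ((pB y).2 (hY.lam_ty _ _ hd2).1)
        obtain ⟨d, rfl⟩ := lH' d (hY.lam_ty _ _ hd1).2
        obtain ⟨c, rfl⟩ := lH z ((pH z).2 hz)
        refine ⟨a, b, c, rfl, rfl, rfl, θ.injective ?_⟩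
        rw [eBs] at hd1 hd2
        rw [h2, h2, (lamT_iff hY _ d).2 hd1, (lamT_iff hY _ d).2 hd2]
  · rename_i k x
    change X.hh k x ↔ Y.hh k (e x)
    by_cases hx : X.Hp x
    · obtain ⟨a, rfl⟩ := lH x hx
      have k1 : X.hh k a.1 ↔ hT hX k = a := by
        constructor
        · intro h; exact Subtype.ext (hT_eq hX h)
        · intro h; have := hT_spec hX k; rw [h] at this; exact this
      have k2 : Y.hh k (e a.1) ↔ hT hY k = θ a := by
        rw [eH]
        constructor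
        · intro h; exact Subtype.ext (hT_eq hY h)
        · intro h; have := hT_spec hY k; rw [h] at this; exact this
      rw [k1, k2, ← hθ, θ.injective.eq_iff]
    · refine iff_of_false (fun h => hx (hX.hh_ty _ _ h)) (fun h => hx ?_)
      rw [pH]
      exact hY.hh_ty _ _ h
  · rename_i n k x
    change X.C n k x ↔ Y.C n k (e x)
    by_cases hx : ∃ a : BT hX, x = a.1 ∧ lamT hX a = hT hX n
    · obtain ⟨a, rfl, hl⟩ := hx
      have := h4 a n k hl
      rw [← eBs] at this
      exact this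
    · refine iff_of_false (fun h => hx ?_) (fun h => hx ?_)
      · obtain ⟨a, rfl⟩ := lB x (C_Bp hX h)
        exact ⟨a, rfl, C_lam hX h⟩
      · obtain ⟨a, rfl⟩ := lB x ((pB x).2 (C_Bp hY h))
        refine ⟨a, rfl, θ.injective ?_⟩
        rw [h2, hθ]
        rw [eBs] at h
        exact C_lam hY h

end assemble

theorem inv_of_iso {U V : Type} {X : Raw U} {Y : Raw V} (e : U ≃ V) (he : X = Y.comap e) :
    (iCof X ↔ iCof Y) ∧ (iMin X ↔ iMin Y) ∧ (∀ n, iA X n ↔ iA Y n) ∧
      ∀ x n, iR X x n ↔ iR Y (e x) n := by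
  subst he
  refine ⟨?_, ?_, ?_, ?_⟩
  · constructor
    · intro h d hd
      obtain ⟨k, c, h1, h2⟩ := h (e.symm d) (by change Y.Hp (e (e.symm d)); rwa [e.apply_symm_apply])
      refine ⟨k, e c, h1, ?_⟩
      change Y.lt (e (e.symm d)) (e c) at h2
      rwa [e.apply_symm_apply] at h2
    · intro h d hd
      obtain ⟨k, c, h1, h2⟩ := h (e d) hd
      refine ⟨k, e.symm c, ?_, ?_⟩
      · change Y.hh k (e (e.symm c)); rwa [e.apply_symm_apply]
      · change Y.lt (e d) (e (e.symm c)); rwa [e.apply_symm_apply]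
  · constructor
    · rintro ⟨d, h1, h2, h3⟩
      refine ⟨e d, h1, ?_, ?_⟩
      · intro k c hc
        have := h2 k (e.symm c) (by change Y.hh k (e (e.symm c)); rwa [e.apply_symm_apply])
        change Y.lt (e (e.symm c)) (e d) at this
        rwa [e.apply_symm_apply] at this
      · intro d' hd' hub
        have := h3 (e.symm d') (by change Y.Hp (e (e.symm d')); rwa [e.apply_symm_apply]) (by
          intro k c hc
          change Y.lt (e c) (e (e.symm d'))
          rw [e.apply_symm_apply]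
          exact hub k _ hc)
        rcases this with h | h
        · left; rw [h, e.apply_symm_apply]
        · right
          change Y.lt (e d) (e (e.symm d')) at h
          rwa [e.apply_symm_apply] at h
    · rintro ⟨d, h1, h2, h3⟩
      refine ⟨e.symm d, ?_, ?_, ?_⟩
      · change Y.Hp (e (e.symm d)); rwa [e.apply_symm_apply]
      · intro k c hc
        change Y.lt (e c) (e (e.symm d))
        rw [e.apply_symm_apply]
        exact h2 k _ hc
      · intro d' hd' hub
        have := h3 (e d') hd' (by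
          intro k c hc
          have := hub k (e.symm c) (by change Y.hh k (e (e.symm c)); rwa [e.apply_symm_apply])
          change Y.lt (e (e.symm c)) (e d') at this
          rwa [e.apply_symm_apply] at this)
        rcases this with h | h
        · left; rw [h, e.symm_apply_apply]
        · right
          change Y.lt (e (e.symm d)) (e d')
          rwa [e.apply_symm_apply]
  · intro n
    constructor
    · rintro ⟨o, ho⟩; exact ⟨e o, ho⟩
    · rintro ⟨o, ho⟩
      refine ⟨e.symm o, fun k => ?_⟩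
      change Y.C n k (e (e.symm o))
      rw [e.apply_symm_apply]; exact ho k
  · intro x n
    constructor
    · rintro ⟨o, ho, hR⟩; exact ⟨e o, ho, hR⟩
    · rintro ⟨o, ho, hR⟩
      refine ⟨e.symm o, fun k => ?_, ?_⟩
      · change Y.C n k (e (e.symm o))
        rw [e.apply_symm_apply]; exact ho k
      · change Y.R (e x) (e (e.symm o))
        rwa [e.apply_symm_apply]

/-- Classification of the countable models. -/
theorem classify {U V : Type} [Countable U] [Countable V] {X : Raw U} {Y : Raw V}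
    (hX : X.Ax) (hY : Y.Ax) (x : U) (hx : X.Sp x) (y : V) (hy : Y.Sp y) :
    (∃ e : U ≃ V, X = Y.comap e) ↔
      (iCof X ↔ iCof Y) ∧ (iMin X ↔ iMin Y) ∧ (∀ n, iA X n ↔ iA Y n) ∧
      (iCof X → ∃ m, ∀ n, m ≤ n → (iR X x n ↔ iR Y y n)) := by
  constructor
  · rintro ⟨e, he⟩
    obtain ⟨h1, h2, h3, h4⟩ := inv_of_iso e he
    refine ⟨h1, h2, h3, fun hc => ?_⟩
    have hex : Y.Sp (e x) := by rw [he] at hx; exact hx
    obtain ⟨x', hx'⟩ : ∃ x' : ST hY, x'.1 = e x := ⟨⟨e x, hex⟩, rfl⟩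
    obtain ⟨y', rfl⟩ : ∃ y' : ST hY, y'.1 = y := ⟨⟨y, hy⟩, rfl⟩
    obtain ⟨m, hm⟩ := (gm hY).r_eventually (hT_mono hY) ((iCof_iff hY).1 (h1.1 hc)) x' y'
    refine ⟨m, fun n hn => ?_⟩
    rw [h4 x n, ← hx', iR_iff hY x' n, iR_iff hY y' n]
    exact hm n hn
  · rintro ⟨h1, h2, h3, h4⟩
    obtain ⟨x, rfl⟩ : ∃ x' : ST hX, x'.1 = x := ⟨⟨x, hx⟩, rfl⟩
    obtain ⟨y, rfl⟩ : ∃ y' : ST hY, y'.1 = y := ⟨⟨y, hy⟩, rfl⟩
    obtain ⟨θ, hθ⟩ := H_iso (hT hX) (hT hY) (hT_mono hX) (hT_mono hY)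
      (by rw [iCof_iff hX, iCof_iff hY] at h1; exact h1)
      (by rw [iMin_iff hX, iMin_iff hY] at h2; exact h2)
    have hθ' : ∀ k, θ.symm (hT hY k) = hT hX k := fun k => by rw [← hθ, θ.symm_apply_apply]
    let M := gm hX
    let M' : GM (HT hX) (hT hX) := (gm hY).transport θ.symm hθ'
    have ha' : ∀ n, M'.a n ↔ (gm hY).a n := by
      intro n
      constructor
      · rintro ⟨o, k1, k2⟩
        refine ⟨o, ?_, ?_⟩
        · exact θ.symm.injective (k1.trans (hθ' n).symm)
        · exact (map_eq_top_iff θ.symm.withTopCongr).1 k2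
      · rintro ⟨o, k1, k2⟩
        refine ⟨o, ?_, ?_⟩
        · change θ.symm ((gm hY).lam o) = _
          rw [k1, hθ']
        · exact (map_eq_top_iff θ.symm.withTopCongr).2 k2
    have hr' : ∀ z n, M'.r z n ↔ (gm hY).r z n := by
      intro z n
      constructor
      · rintro ⟨o, k1, k2, k3⟩
        refine ⟨o, ?_, ?_, k3⟩
        · exact θ.symm.injective (k1.trans (hθ' n).symm)
        · exact (map_eq_top_iff θ.symm.withTopCongr).1 k2
      · rintro ⟨o, k1, k2, k3⟩
        refine ⟨o, ?_, ?_, k3⟩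
        · change θ.symm ((gm hY).lam o) = _
          rw [k1, hθ']
        · exact (map_eq_top_iff θ.symm.withTopCongr).2 k2
    have ha : ∀ n, M.a n ↔ M'.a n := by
      intro n
      rw [ha', ← iA_iff hY, ← iA_iff hX, h3]
    obtain ⟨z, hz⟩ : ∃ z : M'.S, Cof (hT hX) → ∀ n, M.r x n ↔ M'.r z n := by
      by_cases hc : Cof (hT hX)
      · obtain ⟨m, hm⟩ := h4 ((iCof_iff hX).2 hc)
        obtain ⟨z, hz⟩ := M'.adjust (hT_mono hX) hc y (fun n => M.r x n)
          (fun n hn => (ha n).1 (by obtain ⟨o, k1, k2, _⟩ := hn; exact ⟨o, k1, k2⟩)) m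
          (fun n hn => by
            have e1 := hm n hn
            rw [iR_iff hX x n, iR_iff hY y n, ← hr' y n] at e1
            exact e1)
        exact ⟨z, fun _ n => (hz n).symm⟩
      · exact ⟨y, fun h => absurd h hc⟩
    haveI : Countable M.S := inferInstanceAs (Countable (ST hX))
    haveI : Countable M.B := inferInstanceAs (Countable (BT hX))
    haveI : Countable M'.S := inferInstanceAs (Countable (ST hY))
    haveI : Countable M'.B := inferInstanceAs (Countable (BT hY))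
    obtain ⟨eS, eB, k1, k2, k3, k4, k5⟩ := typed_iso M M' (hT_mono hX) ha _ z hz
    have eS' : ∃ eS : ST hX ≃ ST hY, ∃ eB : BT hX ≃ BT hY,
        (∀ a b, etaT hX a b = θ.symm.withBotCongr (etaT hY (eS a) (eS b))) ∧
        (∀ o, lamT hX o = θ.symm (lamT hY (eB o))) ∧
        (∀ a b, lamT hX a = lamT hX b → rhoT hX a b =
          θ.symm.withTopCongr (rhoT hY (eB a) (eB b))) ∧
        (∀ o n, lamT hX o = hT hX n → eT hX o = θ.symm.withTopCongr (eT hY (eB o))) ∧
        (∀ a o, X.R a.1 o.1 ↔ Y.R (eS a).1 (eB o).1) := ⟨eS, eB, k1, k2, k3, k4, k5⟩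
    clear k1 k2 k3 k4 k5 hz z ha hr' ha' eS eB
    obtain ⟨eS, eB, k1, k2, k3, k4, k5⟩ := eS'
    have tb : ∀ (t : WithBot (HT hY)) (d : HT hX),
        θ.symm.withBotCongr t = WithBot.some d ↔ t = WithBot.some (θ d) := by
      intro t d
      constructor
      · intro h
        have h' := congrArg θ.withBotCongr h
        have e1 : θ.withBotCongr (θ.symm.withBotCongr t) = t := θ.withBotCongr.apply_symm_apply _
        rw [e1] at h'
        exact h'
      · rintro rfl
        change WithBot.some (θ.symm (θ d)) = _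
        rw [θ.symm_apply_apply]
    have tt : ∀ (t : WithTop (HT hY)) (d : HT hX),
        θ.symm.withTopCongr t = WithTop.some d ↔ t = WithTop.some (θ d) := by
      intro t d
      constructor
      · intro h
        have h' := congrArg θ.withTopCongr h
        have e1 : θ.withTopCongr (θ.symm.withTopCongr t) = t := θ.withTopCongr.apply_symm_apply _
        rw [e1] at h'
        exact h'
      · rintro rfl
        change WithTop.some (θ.symm (θ d)) = _
        rw [θ.symm_apply_apply]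
    refine assemble hX hY θ hθ eS eB ?_ ?_ ?_ ?_ k5
    · intro a b d
      rw [k1 a b, tb]
    · intro o
      rw [k2 o, θ.apply_symm_apply]
    · intro a b hl d
      rw [k3 a b hl, tt]
    · intro o n k hl
      have hl' : lamT hY (eB o) = hT hY n := by
        rw [← hθ, ← hl, k2 o, θ.apply_symm_apply]
      rw [← eT_C hX o n k hl, ← eT_C hY (eB o) n k hl', k4 o n hl, ← hθ' k]
      exact θ.symm.withTopCongr.le_iff_le (x := ((hT hY k : HT hY) : WithTop (HT hY)))

end Pool.Agent.HK
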