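import Mathlib

/-!
MP_e47bfc_lc, module Model: an explicit generic bipartite structure between two ultrametric trees
over `ℚ`.
-/

set_option autoImplicit false

namespace Pool.Agent.HK

namespace ModelAux

open Finset

/-- the bijection between codes and finite sets of codes. -/
noncomputable def D : ℕ ≃ Finset ℕ := (Denumerable.eqv (Finset ℕ)).symm

lemma choose_v (P Q bad : Set ℕ) (hP : P.Finite) (hQ : Q.Finite) (hbad : bad.Finite)
    (hd : Disjoint P Q) : ∃ v ∉ bad, (∀ p ∈ P, p ∈ D v) ∧ ∀ q ∈ Q, q ∉ D v := by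
  classical
  set P' := hP.toFinset with hP'
  set Q' := hQ.toFinset with hQ'
  have hinf : ({N : ℕ | N ∉ P' ∧ N ∉ Q'} : Set ℕ).Infinite := by
    have : ({N : ℕ | N ∉ P' ∧ N ∉ Q'} : Set ℕ) = ((P' ∪ Q' : Finset ℕ) : Set ℕ)ᶜ := by
      ext N; simp
    rw [this]
    exact (Finset.finite_toSet _).infinite_compl
  have hinj : Set.InjOn (fun N => D.symm (insert N P')) {N : ℕ | N ∉ P' ∧ N ∉ Q'} := by
    intro N hN N' hN' h
    have h1 : insert N P' = insert N' P' := D.symm.injective h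
    have h2 : N ∈ insert N' P' := by rw [← h1]; exact mem_insert_self _ _
    rcases mem_insert.1 h2 with h3 | h3
    · exact h3
    · exact absurd h3 hN.1
  obtain ⟨v, ⟨N, hN, rfl⟩, hv⟩ := (hinf.image hinj).exists_notMem_finite hbad
  refine ⟨_, hv, ?_, ?_⟩
  · intro p hp
    simp only [Equiv.apply_symm_apply]
    exact mem_insert_of_mem (hP.mem_toFinset.2 hp)
  · intro q hq
    simp only [Equiv.apply_symm_apply, mem_insert, not_or]
    refine ⟨?_, fun h => ?_⟩
    · rintro rfl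
      exact hN.2 (hQ.mem_toFinset.2 hq)
    · exact Set.disjoint_left.1 hd (hP.mem_toFinset.1 h) hq

abbrev Sp := ℚ →₀ ℕ
abbrev Bp := ℚ × (ℚ →₀ ℕ)

noncomputable def cS : Sp → ℕ := (exists_injective_nat Sp).choose
lemma cS_inj : Function.Injective cS := (exists_injective_nat Sp).choose_spec
noncomputable def cB : Bp → ℕ := (exists_injective_nat Bp).choose
lemma cB_inj : Function.Injective cB := (exists_injective_nat Bp).choose_spec

noncomputable def eta (z z' : Sp) : WithBot ℚ := (z.neLocus z').max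
noncomputable def rho (u u' : Bp) : WithTop ℚ := (u.2.neLocus u'.2).min

noncomputable def cut (z : Sp) (δ : ℚ) : Sp := z.filter (δ < ·)

def Rel (c : Sp) (o : Bp) : Prop :=
  (∃ q : ℚ, o.2.support.max = (q : WithBot ℚ) ∧ cS c ∈ D (o.2 q)) ∨
    (∃ q : ℚ, c.support.min = (q : WithTop ℚ) ∧ cB o ∈ D (c q))

def R (z : Sp) (o : Bp) : Prop := Rel (cut z o.1) o

lemma cut_eq_iff {x y : Sp} {δ : ℚ} : cut x δ = cut y δ ↔ eta x y ≤ (δ : WithBot ℚ) := by
  constructor
  · intro h
    refine Finset.max_le fun q hq => ?_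
    rw [Finsupp.mem_neLocus] at hq
    by_contra hlt
    rw [WithBot.coe_le_coe, not_le] at hlt
    apply hq
    have := DFunLike.congr_fun h q
    rwa [cut, cut, Finsupp.filter_apply_pos _ _ hlt, Finsupp.filter_apply_pos _ _ hlt] at this
  · intro h
    ext q
    by_cases hq : δ < q
    · rw [cut, cut, Finsupp.filter_apply_pos _ _ hq, Finsupp.filter_apply_pos _ _ hq]
      by_contra hne
      have h1 : (q : WithBot ℚ) ≤ eta x y := Finset.le_max (Finsupp.mem_neLocus.2 hne)
      have h2 := h1.trans h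
      rw [WithBot.coe_le_coe] at h2
      exact absurd hq (not_lt.2 h2)
    · rw [cut, cut, Finsupp.filter_apply_neg _ _ hq, Finsupp.filter_apply_neg _ _ hq]

/-- the modified point for clause 8. -/
noncomputable def ws (z : Sp) (d : ℚ) (v : ℕ) : Sp := z.filter (d < ·) + Finsupp.single d v

lemma ws_gt {z : Sp} {d q : ℚ} (v : ℕ) (h : d < q) : ws z d v q = z q := by
  rw [ws, Finsupp.add_apply, Finsupp.filter_apply_pos _ _ h, Finsupp.single_eq_of_ne h.ne',
    add_zero]

lemma ws_self (z : Sp) (d : ℚ) (v : ℕ) : ws z d v d = v := by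
  rw [ws, Finsupp.add_apply, Finsupp.filter_apply_neg _ _ (lt_irrefl d), Finsupp.single_eq_same,
    zero_add]

lemma ws_lt {z : Sp} {d q : ℚ} (v : ℕ) (h : q < d) : ws z d v q = 0 := by
  rw [ws, Finsupp.add_apply, Finsupp.filter_apply_neg _ _ (not_lt.2 h.le),
    Finsupp.single_eq_of_ne h.ne, add_zero]

/-- the modified point for clause 9. -/
noncomputable def wb (z : Sp) (d : ℚ) (v : ℕ) : Sp := z.filter (· < d) + Finsupp.single d v

lemma wb_lt {z : Sp} {d q : ℚ} (v : ℕ) (h : q < d) : wb z d v q = z q := by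
  rw [wb, Finsupp.add_apply, Finsupp.filter_apply_pos (fun x : ℚ => x < d) _ h, Finsupp.single_eq_of_ne h.ne,
    add_zero]

lemma wb_self (z : Sp) (d : ℚ) (v : ℕ) : wb z d v d = v := by
  rw [wb, Finsupp.add_apply, Finsupp.filter_apply_neg (fun x : ℚ => x < d) _ (lt_irrefl d), Finsupp.single_eq_same,
    zero_add]

lemma wb_gt {z : Sp} {d q : ℚ} (v : ℕ) (h : d < q) : wb z d v q = 0 := by
  rw [wb, Finsupp.add_apply, Finsupp.filter_apply_neg (fun x : ℚ => x < d) _ (not_lt.2 h.le),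
    Finsupp.single_eq_of_ne h.ne', add_zero]

lemma clause8 (z : Sp) (d : ℚ) (A : Set Sp) (P Q : Set Bp) (hA : A.Finite) (hP : P.Finite)
    (hQ : Q.Finite) (hd : Disjoint P Q) (hP1 : ∀ o ∈ P, o.1 < d) (hQ1 : ∀ o ∈ Q, o.1 < d) :
    ∃ w, eta w z = (d : WithBot ℚ) ∧ (∀ a ∈ A, (d : WithBot ℚ) ≤ eta w a) ∧
        (∀ o ∈ P, R w o) ∧ (∀ o ∈ Q, ¬ R w o) := by
  classical
  -- the finite set of forbidden codes
  let F : Set ℕ := ⋃ o ∈ Q, {n | ∃ q : ℚ, o.2.support.max = (q : WithBot ℚ) ∧ n ∈ D (o.2 q)}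
  have hF : F.Finite := by
    refine hQ.biUnion fun o _ => ?_
    rcases hm : o.2.support.max with _ | q
    · refine Set.Finite.subset Set.finite_empty ?_
      rintro n ⟨q, hq, -⟩
      exact absurd hq (by exact WithBot.bot_ne_coe)
    · refine Set.Finite.subset (D (o.2 q)).finite_toSet ?_
      rintro n ⟨q', hq', hn⟩
      have : q = q' := by
        have h : ((q : ℚ) : WithBot ℚ) = (q' : WithBot ℚ) := hq'
        exact WithBot.coe_injective h
      subst this
      exact hn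
  have hinj : Function.Injective fun v => cS (ws z d v) := by
    intro v v' h
    have h1 := DFunLike.congr_fun (cS_inj h) d
    rwa [ws_self, ws_self] at h1
  let bad : Set ℕ := ({0, z d} : Set ℕ) ∪ ((fun a : Sp => a d) '' A) ∪
    {v | cS (ws z d v) ∈ F}
  have hbad : bad.Finite := by
    refine ((Set.toFinite _).union (hA.image _)).union ?_
    exact hF.preimage (hinj.injOn)
  obtain ⟨v, hv, hvP, hvQ⟩ := choose_v (cB '' P) (cB '' Q) bad (hP.image _) (hQ.image _) hbad
    (Set.disjoint_image_of_injective cB_inj hd)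
  have hv0 : v ≠ 0 := fun h => hv (Or.inl (Or.inl (by simp [h])))
  have hvz : v ≠ z d := fun h => hv (Or.inl (Or.inl (by simp [h])))
  have hva : ∀ a ∈ A, v ≠ a d := fun a ha h => hv (Or.inl (Or.inr ⟨a, ha, h.symm⟩))
  have hvF : cS (ws z d v) ∉ F := fun h => hv (Or.inr h)
  have hcut : ∀ δ < d, cut (ws z d v) δ = ws z d v := by
    intro δ hδ
    rw [cut, Finsupp.filter_eq_self_iff]
    intro q hq
    by_contra hcon
    exact hq (ws_lt v (lt_of_le_of_lt (not_lt.1 hcon) hδ))
  have hmin : (ws z d v).support.min = (d : WithTop ℚ) := by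
    refine le_antisymm (Finset.min_le ?_) (Finset.le_min fun q hq => ?_)
    · rw [Finsupp.mem_support_iff, ws_self]; exact hv0
    · rw [WithTop.coe_le_coe]
      by_contra hcon
      rw [Finsupp.mem_support_iff] at hq
      exact hq (ws_lt v (not_le.1 hcon))
  refine ⟨ws z d v, ?_, ?_, ?_, ?_⟩
  · refine le_antisymm (Finset.max_le fun q hq => ?_) (Finset.le_max ?_)
    · rw [WithBot.coe_le_coe]
      by_contra hcon
      rw [Finsupp.mem_neLocus] at hq
      exact hq (ws_gt v (not_le.1 hcon))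
    · rw [Finsupp.mem_neLocus, ws_self]; exact hvz
  · intro a ha
    refine Finset.le_max ?_
    rw [Finsupp.mem_neLocus, ws_self]
    exact hva a ha
  · intro o ho
    rw [R, hcut _ (hP1 o ho)]
    right
    exact ⟨d, hmin, by rw [ws_self]; exact hvP _ ⟨o, ho, rfl⟩⟩
  · intro o ho
    rw [R, hcut _ (hQ1 o ho)]
    rintro (⟨q, hq, hmem⟩ | ⟨q, hq, hmem⟩)
    · apply hvF
      exact Set.mem_biUnion ho ⟨q, hq, hmem⟩
    · rw [hmin] at hq
      have : d = q := WithTop.coe_injective hq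
      subst this
      rw [ws_self] at hmem
      exact hvQ _ ⟨o, ho, rfl⟩ hmem

lemma clause9 (u : Bp) (d : ℚ) (A : Set Bp) (P Q : Set Sp) (hA : A.Finite) (hP : P.Finite)
    (hQ : Q.Finite) (hPQ : ∀ p ∈ P, ∀ q ∈ Q, ¬ eta p q ≤ ((u.1 : ℚ) : WithBot ℚ)) :
    ∃ o : Bp, o.1 = u.1 ∧ rho o u = (d : WithTop ℚ) ∧ (∀ a ∈ A, rho o a ≤ (d : WithTop ℚ)) ∧
        (∀ p ∈ P, R p o) ∧ (∀ q ∈ Q, ¬ R q o) := by
  classical
  let F : Set ℕ := ⋃ q ∈ Q, {n | ∃ r : ℚ, (cut q u.1).support.min = (r : WithTop ℚ) ∧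
    n ∈ D (cut q u.1 r)}
  have hF : F.Finite := by
    refine hQ.biUnion fun o _ => ?_
    rcases hm : (cut o u.1).support.min with _ | q
    · refine Set.Finite.subset Set.finite_empty ?_
      rintro n ⟨q, hq, -⟩
      exact absurd hq (by exact WithTop.top_ne_coe)
    · refine Set.Finite.subset (D (cut o u.1 q)).finite_toSet ?_
      rintro n ⟨q', hq', hn⟩
      have : q = q' := by
        have h : ((q : ℚ) : WithTop ℚ) = (q' : WithTop ℚ) := hq'
        exact WithTop.coe_injective h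
      subst this
      exact hn
  have hinj : Function.Injective fun v => cB (u.1, wb u.2 d v) := by
    intro v v' h
    have h1 := congrArg Prod.snd (cB_inj h)
    have h2 := DFunLike.congr_fun h1 d
    simp only at h2
    rwa [wb_self, wb_self] at h2
  let bad : Set ℕ := ({0, u.2 d} : Set ℕ) ∪ ((fun a : Bp => a.2 d) '' A) ∪
    {v | cB (u.1, wb u.2 d v) ∈ F}
  have hbad : bad.Finite := by
    refine ((Set.toFinite _).union (hA.image _)).union ?_
    exact hF.preimage (hinj.injOn)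
  have hdisj : Disjoint ((fun p => cS (cut p u.1)) '' P) ((fun p => cS (cut p u.1)) '' Q) := by
    rw [Set.disjoint_left]
    rintro n ⟨p, hp, rfl⟩ ⟨q, hq, h⟩
    exact hPQ p hp q hq (cut_eq_iff.1 (cS_inj h).symm)
  obtain ⟨v, hv, hvP, hvQ⟩ := choose_v _ _ bad (hP.image _) (hQ.image _) hbad hdisj
  have hv0 : v ≠ 0 := fun h => hv (Or.inl (Or.inl (by simp [h])))
  have hvz : v ≠ u.2 d := fun h => hv (Or.inl (Or.inl (by simp [h])))
  have hva : ∀ a ∈ A, v ≠ a.2 d := fun a ha h => hv (Or.inl (Or.inr ⟨a, ha, h.symm⟩))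
  have hvF : cB (u.1, wb u.2 d v) ∉ F := fun h => hv (Or.inr h)
  have hmax : (wb u.2 d v).support.max = (d : WithBot ℚ) := by
    refine le_antisymm (Finset.max_le fun q hq => ?_) (Finset.le_max ?_)
    · rw [WithBot.coe_le_coe]
      by_contra hcon
      rw [Finsupp.mem_support_iff] at hq
      exact hq (wb_gt v (not_le.1 hcon))
    · rw [Finsupp.mem_support_iff, wb_self]; exact hv0
  refine ⟨(u.1, wb u.2 d v), rfl, ?_, ?_, ?_, ?_⟩
  · refine le_antisymm (Finset.min_le ?_) (Finset.le_min fun q hq => ?_)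
    · rw [Finsupp.mem_neLocus]
      change wb u.2 d v d ≠ _
      rw [wb_self]; exact hvz
    · rw [WithTop.coe_le_coe]
      by_contra hcon
      rw [Finsupp.mem_neLocus] at hq
      exact hq (wb_lt v (not_le.1 hcon))
  · intro a ha
    refine Finset.min_le ?_
    rw [Finsupp.mem_neLocus]
    change wb u.2 d v d ≠ _
    rw [wb_self]
    exact hva a ha
  · intro p hp
    left
    refine ⟨d, hmax, ?_⟩
    change cS (cut p u.1) ∈ D (wb u.2 d v d)
    rw [wb_self]
    exact hvP _ ⟨p, hp, rfl⟩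
  · intro q hq
    rintro (⟨r, hr, hmem⟩ | ⟨r, hr, hmem⟩)
    · change (wb u.2 d v).support.max = _ at hr
      rw [hmax] at hr
      have : d = r := WithBot.coe_injective hr
      subst this
      change cS (cut q u.1) ∈ D (wb u.2 d v d) at hmem
      rw [wb_self] at hmem
      exact hvQ _ ⟨q, hq, rfl⟩ hmem
    · exact hvF (Set.mem_biUnion hq ⟨r, hr, hmem⟩)

end ModelAux

open ModelAux in
theorem exists_base : ∃ (S B : Type) (_ : Countable S) (_ : Countable B)
    (eta : S → S → WithBot ℚ) (lam : B → ℚ) (rho : B → B → WithTop ℚ) (R : S → B → Prop)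
    (z0 : S) (o : ℕ → Bool → B),
    (∀ x y, eta x y = ⊥ ↔ x = y) ∧
    (∀ x y, eta x y = eta y x) ∧
    (∀ x y z, eta x z ≤ max (eta x y) (eta y z)) ∧
    (∀ x y, lam x = lam y → (rho x y = ⊤ ↔ x = y)) ∧
    (∀ x y, lam x = lam y → rho x y = rho y x) ∧
    (∀ x y z, lam x = lam y → lam y = lam z → min (rho x y) (rho y z) ≤ rho x z) ∧
    (∀ x y o, eta x y ≤ ((lam o : ℚ) : WithBot ℚ) → (R x o ↔ R y o)) ∧
    (∀ (z : S) (d : ℚ) (A : Set S) (P Q : Set B), A.Finite → P.Finite → Q.Finite →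
      Disjoint P Q → (∀ o ∈ P, lam o < d) → (∀ o ∈ Q, lam o < d) →
      ∃ w, eta w z = (d : WithBot ℚ) ∧ (∀ a ∈ A, (d : WithBot ℚ) ≤ eta w a) ∧
        (∀ o ∈ P, R w o) ∧ (∀ o ∈ Q, ¬ R w o)) ∧
    (∀ (u : B) (d : ℚ) (A : Set B) (P Q : Set S), A.Finite → P.Finite → Q.Finite →
      (∀ a ∈ A, lam a = lam u) → (∀ p ∈ P, ∀ q ∈ Q, ¬ eta p q ≤ ((lam u : ℚ) : WithBot ℚ)) →
      ∃ o, lam o = lam u ∧ rho o u = (d : WithTop ℚ) ∧ (∀ a ∈ A, rho o a ≤ (d : WithTop ℚ)) ∧
        (∀ p ∈ P, R p o) ∧ (∀ q ∈ Q, ¬ R q o)) ∧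
    (∀ d, ∃ o, lam o = d) ∧
    (∀ n b, lam (o n b) = (n : ℚ)) ∧ (∀ n b, R z0 (o n b) ↔ b = true) := by
  classical
  obtain ⟨v1, hv1, hv1P, -⟩ := choose_v {cS 0} ∅ {0} (Set.finite_singleton _) Set.finite_empty
    (Set.finite_singleton _) (Set.disjoint_empty _)
  refine ⟨Sp, Bp, inferInstance, inferInstance, ModelAux.eta, Prod.fst, ModelAux.rho,
    ModelAux.R, 0, fun n b => ((n : ℚ), if b then Finsupp.single 0 v1 else 0),
    ?_, ?_, ?_, ?_, ?_, ?_, ?_, ?_, ?_, ?_, ?_, ?_⟩
  · intro x y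
    rw [ModelAux.eta, Finset.max_eq_bot, Finsupp.neLocus_eq_empty]
  · intro x y
    rw [ModelAux.eta, ModelAux.eta, Finsupp.neLocus_comm]
  · intro x y z
    refine Finset.max_le fun q hq => ?_
    rw [Finsupp.mem_neLocus] at hq
    by_cases h : x q = y q
    · rw [h] at hq
      exact (Finset.le_max (Finsupp.mem_neLocus.2 hq)).trans (le_max_right _ _)
    · exact (Finset.le_max (Finsupp.mem_neLocus.2 h)).trans (le_max_left _ _)
  · intro x y h
    rw [ModelAux.rho, Finset.min_eq_top, Finsupp.neLocus_eq_empty]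
    constructor
    · intro h2; exact Prod.ext h h2
    · rintro rfl; rfl
  · intro x y _
    rw [ModelAux.rho, ModelAux.rho, Finsupp.neLocus_comm]
  · intro x y z _ _
    refine Finset.le_min fun q hq => ?_
    rw [Finsupp.mem_neLocus] at hq
    by_cases h : x.2 q = y.2 q
    · rw [h] at hq
      exact (min_le_right _ _).trans (Finset.min_le (Finsupp.mem_neLocus.2 hq))
    · exact (min_le_left _ _).trans (Finset.min_le (Finsupp.mem_neLocus.2 h))
  · intro x y o h
    have := cut_eq_iff.2 h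
    rw [ModelAux.R, ModelAux.R, this]
  · intro z d A P Q hA hP hQ hd hP1 hQ1
    exact clause8 z d A P Q hA hP hQ hd hP1 hQ1
  · intro u d A P Q hA hP hQ _ hPQ
    exact clause9 u d A P Q hA hP hQ hPQ
  · intro d
    exact ⟨(d, 0), rfl⟩
  · intro n b
    rfl
  · intro n b
    have hcut : cut 0 (n : ℚ) = 0 := by rw [cut, Finsupp.filter_zero]
    have h2 : ∀ o : Bp, ¬ ∃ q : ℚ, (0 : Sp).support.min = (q : WithTop ℚ) ∧
        cB o ∈ D ((0 : Sp) q) := by
      rintro o ⟨q, hq, -⟩
      rw [Finsupp.support_zero, Finset.min_empty] at hq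
      exact WithTop.top_ne_coe hq
    cases b
    · simp only [Bool.false_eq_true, if_false, iff_false]
      rw [ModelAux.R]
      change ¬ Rel (cut 0 (n : ℚ)) _
      rw [hcut]
      rintro (⟨q, hq, -⟩ | h)
      · simp only [Finsupp.support_zero, Finset.max_empty] at hq
        exact WithBot.bot_ne_coe hq
      · exact h2 _ h
    · simp only [if_true, iff_true]
      rw [ModelAux.R]
      change Rel (cut 0 (n : ℚ)) _
      rw [hcut]
      left
      refine ⟨0, ?_, ?_⟩
      · change (Finsupp.single (0 : ℚ) v1).support.max = _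
        rw [Finsupp.support_single_ne_zero _ (by simpa using hv1), Finset.max_singleton]
      · change cS 0 ∈ D (Finsupp.single (0 : ℚ) v1 0)
        rw [Finsupp.single_eq_same]
        exact hv1P _ rfl

end Pool.Agent.HK
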