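import Pool.Agent.MP_e47bfc_lc.Classify2
import Pool.Agent.MP_e47bfc_lc.Model

set_option autoImplicit false
set_option linter.unusedVariables false
set_option linter.unusedSectionVars false
set_option linter.style.haveILetI false

namespace Pool.Agent.HK

/-- The explicit structure over `ℚ`. -/
structure BD where
  S : Type
  B : Type
  cS : Countable S
  cB : Countable B
  eta : S → S → WithBot ℚ
  lam : B → ℚ
  rho : B → B → WithTop ℚ
  R : S → B → Prop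
  z0 : S
  o : ℕ → Bool → B
  eta_bot : ∀ x y, eta x y = ⊥ ↔ x = y
  eta_symm : ∀ x y, eta x y = eta y x
  eta_ultra : ∀ x y z, eta x z ≤ max (eta x y) (eta y z)
  rho_top : ∀ x y, lam x = lam y → (rho x y = ⊤ ↔ x = y)
  rho_symm : ∀ x y, lam x = lam y → rho x y = rho y x
  rho_ultra : ∀ x y z, lam x = lam y → lam y = lam z → min (rho x y) (rho y z) ≤ rho x z
  R_inv : ∀ x y o, eta x y ≤ ((lam o : ℚ) : WithBot ℚ) → (R x o ↔ R y o)
  XS : ∀ (z : S) (d : ℚ) (A : Set S) (P Q : Set B), A.Finite → P.Finite → Q.Finite →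
      Disjoint P Q → (∀ o ∈ P, lam o < d) → (∀ o ∈ Q, lam o < d) →
      ∃ w, eta w z = (d : WithBot ℚ) ∧ (∀ a ∈ A, (d : WithBot ℚ) ≤ eta w a) ∧
        (∀ o ∈ P, R w o) ∧ (∀ o ∈ Q, ¬ R w o)
  XB : ∀ (u : B) (d : ℚ) (A : Set B) (P Q : Set S), A.Finite → P.Finite → Q.Finite →
      (∀ a ∈ A, lam a = lam u) → (∀ p ∈ P, ∀ q ∈ Q, ¬ eta p q ≤ ((lam u : ℚ) : WithBot ℚ)) →
      ∃ o, lam o = lam u ∧ rho o u = (d : WithTop ℚ) ∧ (∀ a ∈ A, rho o a ≤ (d : WithTop ℚ)) ∧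
        (∀ p ∈ P, R p o) ∧ (∀ q ∈ Q, ¬ R q o)
  Bne : ∀ d, ∃ o, lam o = d
  o_lam : ∀ n b, lam (o n b) = (n : ℚ)
  o_R : ∀ n b, R z0 (o n b) ↔ b = true

theorem exists_BD : Nonempty BD := by
  obtain ⟨S, B, cS, cB, eta, lam, rho, R, z0, o, h1, h2, h3, h4, h5, h6, h7, h8, h9, h10, h11,
    h12⟩ := exists_base
  exact ⟨⟨S, B, cS, cB, eta, lam, rho, R, z0, o, h1, h2, h3, h4, h5, h6, h7, h8, h9, h10, h11,
    h12⟩⟩

open Sum

/-- The raw structure with branches coded by `x`. -/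
def BD.rawx (D : BD) (x : ℕ → Bool) : Raw (ℚ ⊕ (D.S ⊕ D.B)) where
  Hp u := ∃ q, u = inl q
  Sp u := ∃ z, u = inr (inl z)
  lt u v := ∃ p q : ℚ, u = inl p ∧ v = inl q ∧ p < q
  lam u v := ∃ o, u = inr (inr o) ∧ v = inl (D.lam o)
  R u v := ∃ z o, u = inr (inl z) ∧ v = inr (inr o) ∧ D.R z o
  eta u v w := ∃ z z', ∃ q : ℚ, u = inr (inl z) ∧ v = inr (inl z') ∧ w = inl q ∧
    D.eta z z' = (q : WithBot ℚ)
  rho u v w := ∃ o p, ∃ q : ℚ, u = inr (inr o) ∧ v = inr (inr p) ∧ w = inl q ∧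
    D.lam o = D.lam p ∧ D.rho o p = (q : WithTop ℚ)
  hh k u := u = inl (k : ℚ)
  C n k u := ∃ o, u = inr (inr o) ∧ D.lam o = (n : ℚ) ∧
    (((k : ℚ) : WithTop ℚ)) ≤ D.rho o (D.o n (x n))

theorem BD.Bp_iff (D : BD) (x : ℕ → Bool) (u : ℚ ⊕ (D.S ⊕ D.B)) :
    (D.rawx x).Bp u ↔ ∃ o, u = inr (inr o) := by
  unfold Raw.Bp BD.rawx
  rcases u with q | z | o <;> simp

theorem BD.le_iff (D : BD) (x : ℕ → Bool) (p q : ℚ) :
    (D.rawx x).le (inl p) (inl q) ↔ p ≤ q := by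
  unfold Raw.le BD.rawx
  simp [le_iff_eq_or_lt]

theorem BD.rho_self (D : BD) (o : D.B) : D.rho o o = ⊤ := (D.rho_top o o rfl).2 rfl

theorem BD.ax (D : BD) (x : ℕ → Bool) : (D.rawx x).Ax where
  disj := by rintro _ ⟨q, rfl⟩ ⟨z, h⟩; cases h
  lt_ty := by rintro _ _ ⟨p, q, rfl, rfl, h⟩; exact ⟨⟨p, rfl⟩, ⟨q, rfl⟩⟩
  lt_irrefl := by
    rintro _ ⟨p, q, rfl, h', h⟩
    cases h'
    exact lt_irrefl _ h
  lt_trans := by
    rintro _ _ _ ⟨p, q, rfl, rfl, h⟩ ⟨p', q', h1, rfl, h'⟩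
    cases h1
    exact ⟨p, q', rfl, rfl, h.trans h'⟩
  lt_tot := by
    rintro _ _ ⟨p, rfl⟩ ⟨q, rfl⟩
    rcases lt_trichotomy p q with h | h | h
    · exact Or.inl ⟨p, q, rfl, rfl, h⟩
    · exact Or.inr (Or.inl (by rw [h]))
    · exact Or.inr (Or.inr ⟨q, p, rfl, rfl, h⟩)
  lt_dense := by
    rintro _ _ ⟨p, q, rfl, rfl, h⟩
    obtain ⟨r, h1, h2⟩ := exists_between h
    exact ⟨inl r, ⟨p, r, rfl, rfl, h1⟩, ⟨r, q, rfl, rfl, h2⟩⟩
  lt_up := by
    rintro _ ⟨p, rfl⟩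
    obtain ⟨q, hq⟩ := exists_gt p
    exact ⟨inl q, p, q, rfl, rfl, hq⟩
  lt_dn := by
    rintro _ ⟨p, rfl⟩
    obtain ⟨q, hq⟩ := exists_lt p
    exact ⟨inl q, q, p, rfl, rfl, hq⟩
  hh_ty := by rintro k _ rfl; exact ⟨_, rfl⟩
  hh_ex := fun k => ⟨_, rfl⟩
  hh_un := by rintro k _ _ rfl rfl; rfl
  hh_lt := by
    rintro k _ _ rfl rfl
    exact ⟨_, _, rfl, rfl, by push_cast; linarith⟩
  eta_ty := by
    rintro _ _ _ ⟨z, z', q, rfl, rfl, rfl, h⟩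
    refine ⟨⟨_, rfl⟩, ⟨_, rfl⟩, ⟨_, rfl⟩, ?_⟩
    intro h'
    cases h'
    rw [(D.eta_bot z z).2 rfl] at h
    exact WithBot.coe_ne_bot h.symm
  eta_un := by
    rintro _ _ _ _ ⟨z, z', q, rfl, rfl, rfl, h⟩ ⟨w, w', q', h1, h2, rfl, h'⟩
    cases h1; cases h2
    rw [h] at h'
    rw [WithBot.coe_inj.1 h']
  eta_ex := by
    rintro _ _ ⟨z, rfl⟩ ⟨z', rfl⟩ h
    obtain ⟨q, hq⟩ := WithBot.ne_bot_iff_exists.1
      (fun h' => h (by rw [(D.eta_bot z z').1 h']))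
    exact ⟨inl q, z, z', q, rfl, rfl, rfl, hq.symm⟩
  eta_symm := by
    rintro _ _ _ ⟨z, z', q, rfl, rfl, rfl, h⟩
    exact ⟨z', z, q, rfl, rfl, rfl, by rw [D.eta_symm, h]⟩
  eta_ultra := by
    rintro _ _ _ _ _ _ ⟨z1, z2, q1, rfl, rfl, rfl, h1⟩ ⟨z2', z3, q2, h, rfl, rfl, h2⟩
      ⟨z1', z3', q3, h', h'', rfl, h3⟩
    cases h; cases h'; cases h''
    rw [D.le_iff, D.le_iff]
    have := D.eta_ultra z1 z2 z3
    rw [h1, h2, h3] at this
    rcases le_max_iff.1 this with h | h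
    · exact Or.inl (WithBot.coe_le_coe.1 h)
    · exact Or.inr (WithBot.coe_le_coe.1 h)
  lam_ty := by
    rintro _ _ ⟨o, rfl, rfl⟩
    exact ⟨(D.Bp_iff x _).2 ⟨o, rfl⟩, ⟨_, rfl⟩⟩
  lam_un := by
    rintro _ _ _ ⟨o, rfl, rfl⟩ ⟨o', h, rfl⟩
    cases h; rfl
  lam_ex := by
    intro u hu
    obtain ⟨o, rfl⟩ := (D.Bp_iff x u).1 hu
    exact ⟨_, o, rfl, rfl⟩
  lam_surj := by
    rintro _ ⟨q, rfl⟩
    obtain ⟨o, rfl⟩ := D.Bne q
    exact ⟨_, o, rfl, rfl⟩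
  rho_ty := by
    rintro _ _ _ ⟨o, p, q, rfl, rfl, rfl, hl, h⟩
    refine ⟨⟨_, rfl⟩, ?_, inl (D.lam o), ⟨o, rfl, rfl⟩, ⟨p, rfl, by rw [hl]⟩⟩
    intro h'
    cases h'
    rw [D.rho_self] at h
    exact WithTop.coe_ne_top h.symm
  rho_un := by
    rintro _ _ _ _ ⟨z, z', q, rfl, rfl, rfl, _, h⟩ ⟨w, w', q', h1, h2, rfl, _, h'⟩
    cases h1; cases h2
    rw [h] at h'
    rw [WithTop.coe_inj.1 h']
  rho_ex := by
    rintro _ _ _ ⟨z, rfl, rfl⟩ ⟨z', rfl, hz⟩ h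
    have hl : D.lam z = D.lam z' := Sum.inl.inj hz
    obtain ⟨q, hq⟩ := WithTop.ne_top_iff_exists.1
      (fun h' => h (by rw [(D.rho_top z z' hl).1 h']))
    exact ⟨inl q, z, z', q, rfl, rfl, rfl, hl, hq.symm⟩
  rho_symm := by
    rintro _ _ _ ⟨z, z', q, rfl, rfl, rfl, hl, h⟩
    exact ⟨z', z, q, rfl, rfl, rfl, hl.symm, by rw [D.rho_symm _ _ hl.symm, h]⟩
  rho_ultra := by
    rintro _ _ _ _ _ _ ⟨z1, z2, q1, rfl, rfl, rfl, l1, h1⟩ ⟨z2', z3, q2, h, rfl, rfl, l2, h2⟩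
      ⟨z1', z3', q3, h', h'', rfl, l3, h3⟩
    cases h; cases h'; cases h''
    rw [D.le_iff, D.le_iff]
    have := D.rho_ultra z1 z2 z3 l1 l2
    rw [h1, h2, h3] at this
    rcases min_le_iff.1 this with h | h
    · exact Or.inl (WithTop.coe_le_coe.1 h)
    · exact Or.inr (WithTop.coe_le_coe.1 h)
  R_ty := by
    rintro _ _ ⟨z, o, rfl, rfl, h⟩
    exact ⟨⟨z, rfl⟩, (D.Bp_iff x _).2 ⟨o, rfl⟩⟩
  R_inv := by
    rintro _ _ _ _ _ ⟨z, z', q, rfl, rfl, rfl, h⟩ ⟨o, rfl, rfl⟩ hle ⟨z1, o1, h1, h2, h3⟩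
    cases h1; cases h2
    rw [D.le_iff] at hle
    refine ⟨z', o, rfl, rfl, (D.R_inv z z' o ?_).1 h3⟩
    rw [h]
    exact WithBot.coe_le_coe.2 hle
  C_ex := fun n k => ⟨_, D.o n (x n), rfl, D.o_lam _ _, by rw [D.rho_self]; exact le_top⟩
  C_ty := by
    rintro n k _ _ ⟨o, rfl, h1, h2⟩ rfl
    exact ⟨o, rfl, by rw [h1]⟩
  C_mono := by
    rintro n k _ ⟨o, rfl, h1, h2⟩
    refine ⟨o, rfl, h1, le_trans (WithTop.coe_le_coe.2 ?_) h2⟩
    push_cast; linarith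
  C_ball := by
    rintro n k _ _ _ _ ⟨o, rfl, h1, h2⟩ rfl rfl ⟨p, rfl, h3⟩
    have h3' : (n : ℚ) = D.lam p := Sum.inl.inj h3
    have hop : D.lam o = D.lam p := h1.trans h3'
    have hon : D.lam p = D.lam (D.o n (x n)) := h3'.symm.trans (D.o_lam n (x n)).symm
    constructor
    · rintro ⟨p', h4, h5, h6⟩
      cases h4
      by_cases hpo : p = o
      · exact Or.inl (by rw [hpo])
      · obtain ⟨q, hq⟩ := WithTop.ne_top_iff_exists.1
          (fun h' => hpo ((D.rho_top o p hop).1 h').symm)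
        refine Or.inr ⟨inl q, ⟨o, p, q, rfl, rfl, rfl, hop, hq.symm⟩, ?_⟩
        rw [D.le_iff]
        apply WithTop.coe_le_coe.1
        rw [hq]
        refine le_trans (le_min h2 ?_) (D.rho_ultra o (D.o n (x n)) p (hop.trans hon) hon.symm)
        rw [D.rho_symm _ _ hon.symm]
        exact h6
    · rintro (h4 | ⟨_, ⟨o', p', q, h4, h5, rfl, h6, h7⟩, h8⟩)
      · cases h4
        exact ⟨_, rfl, h1, h2⟩
      · cases h4; cases h5
        rw [D.le_iff] at h8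
        refine ⟨p, rfl, h3'.symm, le_trans (le_min ?_ h2)
          (D.rho_ultra p o (D.o n (x n)) hop.symm (hop.trans hon))⟩
        rw [D.rho_symm _ _ hop.symm, h7]
        exact WithTop.coe_le_coe.2 h8
  S_ex := ⟨_, D.z0, rfl⟩
  XS := by
    rintro a p q x' y w _ _ ⟨z, rfl⟩ ⟨d, rfl⟩ hx hy hw hyw
    choose xx hxx using hx
    choose yc hy using hy
    choose wc hw using hw
    have hy1 : ∀ i, ∃ o, y i = inr (inr o) ∧ D.lam o < d := by
      intro i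
      obtain ⟨⟨o, h1, h2⟩, ⟨r, s, h3, h4, h5⟩⟩ := hy i
      rw [h2] at h3
      cases h3; cases h4
      exact ⟨o, h1, h5⟩
    have hw1 : ∀ i, ∃ o, w i = inr (inr o) ∧ D.lam o < d := by
      intro i
      obtain ⟨⟨o, h1, h2⟩, ⟨r, s, h3, h4, h5⟩⟩ := hw i
      rw [h2] at h3
      cases h3; cases h4
      exact ⟨o, h1, h5⟩
    choose yy hyy1 hyy2 using hy1
    choose ww hww1 hww2 using hw1
    obtain ⟨s, h1, h2, h3, h4⟩ := D.XS z d (Set.range xx) (Set.range yy) (Set.range ww)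
      (Set.finite_range _) (Set.finite_range _) (Set.finite_range _)
      (by
        rw [Set.disjoint_left]
        rintro _ ⟨i, rfl⟩ ⟨j, hj⟩
        exact hyw i j (by rw [hyy1, hww1, hj]))
      (by rintro _ ⟨i, rfl⟩; exact hyy2 i) (by rintro _ ⟨i, rfl⟩; exact hww2 i)
    refine ⟨inr (inl s), ⟨s, z, d, rfl, rfl, rfl, h1⟩, ?_, ?_, ?_⟩
    · intro i
      have h5 := h2 (xx i) ⟨i, rfl⟩
      obtain ⟨c, hc⟩ := WithBot.ne_bot_iff_exists.1
        (ne_of_gt (lt_of_lt_of_le (WithBot.bot_lt_coe d) h5))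
      refine ⟨inl c, ⟨s, xx i, c, rfl, hxx i, rfl, hc.symm⟩, ?_⟩
      rw [D.le_iff]
      rw [← hc] at h5
      exact WithBot.coe_le_coe.1 h5
    · intro i
      exact ⟨s, yy i, rfl, hyy1 i, h3 _ ⟨i, rfl⟩⟩
    · rintro i ⟨s', o', h5, h6, h7⟩
      cases h5
      rw [hww1 i] at h6
      cases h6
      exact h4 _ ⟨i, rfl⟩ h7
  XB := by
    rintro a p q x' y w _ _ _ ⟨u, rfl, rfl⟩ ⟨d, rfl⟩ hx hy hw hyw
    choose xx hxx1 hxx2 using hx
    choose yy hyy using hy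
    choose ww hww using hw
    have hxl : ∀ i, D.lam (xx i) = D.lam u := by
      intro i
      exact (Sum.inl.inj (hxx2 i)).symm
    obtain ⟨s, h0, h1, h2, h3, h4⟩ := D.XB u d (Set.range xx) (Set.range yy) (Set.range ww)
      (Set.finite_range _) (Set.finite_range _) (Set.finite_range _)
      (by rintro _ ⟨i, rfl⟩; exact hxl i)
      (by
        rintro _ ⟨i, rfl⟩ _ ⟨j, rfl⟩ hle
        obtain ⟨_, ⟨z, z', c, k1, k2, rfl, k3⟩, ⟨r, s, k4, k5, k6⟩⟩ := hyw i j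
        rw [hyy i] at k1
        rw [hww j] at k2
        cases k1; cases k2; cases k4; cases k5
        rw [k3] at hle
        exact absurd (WithBot.coe_le_coe.1 hle) (not_le.2 k6))
    refine ⟨inr (inr s), ⟨s, rfl, by rw [h0]⟩, ⟨s, u, d, rfl, rfl, rfl, h0, h1⟩, ?_, ?_, ?_⟩
    · intro i
      have h5 := h2 (xx i) ⟨i, rfl⟩
      obtain ⟨c, hc⟩ := WithTop.ne_top_iff_exists.1
        (ne_of_lt (lt_of_le_of_lt h5 (WithTop.coe_lt_top d)))
      refine ⟨inl c, ⟨s, xx i, c, rfl, hxx1 i, rfl, h0.trans (hxl i).symm, hc.symm⟩, ?_⟩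
      rw [D.le_iff]
      rw [← hc] at h5
      exact WithTop.coe_le_coe.1 h5
    · intro i
      exact ⟨yy i, s, hyy i, rfl, h3 _ ⟨i, rfl⟩⟩
    · rintro i ⟨s', o', h5, h6, h7⟩
      rw [hww i] at h5
      cases h5; cases h6
      exact h4 _ ⟨i, rfl⟩ h7

theorem BD.cof (D : BD) (x : ℕ → Bool) : iCof (D.rawx x) := by
  rintro _ ⟨q, rfl⟩
  obtain ⟨k, hk⟩ := exists_nat_gt q
  exact ⟨k, _, rfl, q, k, rfl, rfl, hk⟩

theorem BD.nmin (D : BD) (x : ℕ → Bool) : ¬ iMin (D.rawx x) := by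
  rintro ⟨_, ⟨q, rfl⟩, h, -⟩
  obtain ⟨k, hk⟩ := exists_nat_gt q
  obtain ⟨p, r, h1, h2, h3⟩ := h k _ rfl
  cases h1; cases h2
  exact lt_asymm h3 hk

theorem BD.isA (D : BD) (x : ℕ → Bool) (n : ℕ) : iA (D.rawx x) n :=
  ⟨_, fun k => ⟨D.o n (x n), rfl, D.o_lam _ _, by rw [D.rho_self]; exact le_top⟩⟩

theorem BD.isR (D : BD) (x : ℕ → Bool) (n : ℕ) :
    iR (D.rawx x) (inr (inl D.z0)) n ↔ x n = true := by
  constructor
  · rintro ⟨u, hu, ⟨z, o, h1, h2, h3⟩⟩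
    cases h1
    subst h2
    obtain ⟨o', h4, h5, h6⟩ := hu 0
    cases h4
    have hl : D.lam o = D.lam (D.o n (x n)) := h5.trans (D.o_lam _ _).symm
    have : o = D.o n (x n) := by
      rw [← D.rho_top _ _ hl]
      by_contra hne
      obtain ⟨c, hc⟩ := WithTop.ne_top_iff_exists.1 hne
      obtain ⟨k, hk⟩ := exists_nat_gt c
      obtain ⟨o'', h7, h8, h9⟩ := hu k
      cases h7
      rw [← hc] at h9
      exact absurd (WithTop.coe_le_coe.1 h9) (not_le.2 hk)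
    rw [this] at h3
    exact (D.o_R n (x n)).1 h3
  · intro h
    exact ⟨inr (inr (D.o n (x n))),
      fun k => ⟨D.o n (x n), rfl, D.o_lam _ _, by rw [D.rho_self]; exact le_top⟩,
      ⟨D.z0, D.o n (x n), rfl, rfl, (D.o_R n (x n)).2 h⟩⟩

/-- The axioms are invariant under bijections. -/
theorem Raw.Ax.comap {U V : Type} {Y : Raw V} (h : Y.Ax) (e : U ≃ V) : (Y.comap e).Ax where
  disj := fun x => h.disj (e x)
  lt_ty := fun x y => h.lt_ty (e x) (e y)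
  lt_irrefl := fun x => h.lt_irrefl (e x)
  lt_trans := fun x y z => h.lt_trans (e x) (e y) (e z)
  lt_tot := fun x y hx hy => by
    rcases h.lt_tot (e x) (e y) hx hy with k | k | k
    · exact Or.inl k
    · exact Or.inr (Or.inl (e.injective k))
    · exact Or.inr (Or.inr k)
  lt_dense := fun x y k => by
    obtain ⟨z, hz⟩ := h.lt_dense (e x) (e y) k
    obtain ⟨z, rfl⟩ := e.surjective z
    exact ⟨z, hz⟩
  lt_up := fun x k => by
    obtain ⟨z, hz⟩ := h.lt_up (e x) k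
    obtain ⟨z, rfl⟩ := e.surjective z
    exact ⟨z, hz⟩
  lt_dn := fun x k => by
    obtain ⟨z, hz⟩ := h.lt_dn (e x) k
    obtain ⟨z, rfl⟩ := e.surjective z
    exact ⟨z, hz⟩
  hh_ty := fun k x => h.hh_ty k (e x)
  hh_ex := fun k => by
    obtain ⟨z, hz⟩ := h.hh_ex k
    obtain ⟨z, rfl⟩ := e.surjective z
    exact ⟨z, hz⟩
  hh_un := fun k x y h1 h2 => e.injective (h.hh_un k _ _ h1 h2)
  hh_lt := fun k x y => h.hh_lt k (e x) (e y)
  eta_ty := fun x y d k => ⟨(h.eta_ty _ _ _ k).1, (h.eta_ty _ _ _ k).2.1,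
    (h.eta_ty _ _ _ k).2.2.1, fun h' => (h.eta_ty _ _ _ k).2.2.2 (by rw [h'])⟩
  eta_un := fun x y c d h1 h2 => e.injective (h.eta_un _ _ _ _ h1 h2)
  eta_ex := fun x y hx hy hxy => by
    obtain ⟨z, hz⟩ := h.eta_ex (e x) (e y) hx hy (fun k => hxy (e.injective k))
    obtain ⟨z, rfl⟩ := e.surjective z
    exact ⟨z, hz⟩
  eta_symm := fun x y d => h.eta_symm (e x) (e y) (e d)
  eta_ultra := fun x y z a b c h1 h2 h3 => by
    rcases h.eta_ultra _ _ _ _ _ _ h1 h2 h3 with (k | k) | (k | k)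
    · exact Or.inl (Or.inl (e.injective k))
    · exact Or.inl (Or.inr k)
    · exact Or.inr (Or.inl (e.injective k))
    · exact Or.inr (Or.inr k)
  lam_ty := fun o d => h.lam_ty (e o) (e d)
  lam_un := fun o c d h1 h2 => e.injective (h.lam_un _ _ _ h1 h2)
  lam_ex := fun o ho => by
    obtain ⟨z, hz⟩ := h.lam_ex (e o) ho
    obtain ⟨z, rfl⟩ := e.surjective z
    exact ⟨z, hz⟩
  lam_surj := fun d hd => by
    obtain ⟨z, hz⟩ := h.lam_surj (e d) hd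
    obtain ⟨z, rfl⟩ := e.surjective z
    exact ⟨z, hz⟩
  rho_ty := fun x y c k => by
    obtain ⟨h1, h2, d, h3, h4⟩ := h.rho_ty _ _ _ k
    obtain ⟨d, rfl⟩ := e.surjective d
    exact ⟨h1, fun h' => h2 (by rw [h']), d, h3, h4⟩
  rho_un := fun x y c d h1 h2 => e.injective (h.rho_un _ _ _ _ h1 h2)
  rho_ex := fun x y d hx hy hxy => by
    obtain ⟨z, hz⟩ := h.rho_ex (e x) (e y) (e d) hx hy (fun k => hxy (e.injective k))
    obtain ⟨z, rfl⟩ := e.surjective z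
    exact ⟨z, hz⟩
  rho_symm := fun x y d => h.rho_symm (e x) (e y) (e d)
  rho_ultra := fun x y z a b c h1 h2 h3 => by
    rcases h.rho_ultra _ _ _ _ _ _ h1 h2 h3 with (k | k) | (k | k)
    · exact Or.inl (Or.inl (e.injective k))
    · exact Or.inl (Or.inr k)
    · exact Or.inr (Or.inl (e.injective k))
    · exact Or.inr (Or.inr k)
  R_ty := fun x o => h.R_ty (e x) (e o)
  R_inv := fun x y o c d h1 h2 h3 => h.R_inv _ _ _ _ _ h1 h2 (by
    rcases h3 with k | k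
    · exact Or.inl (by rw [k])
    · exact Or.inr k)
  C_ex := fun n k => by
    obtain ⟨z, hz⟩ := h.C_ex n k
    obtain ⟨z, rfl⟩ := e.surjective z
    exact ⟨z, hz⟩
  C_ty := fun n k o d => h.C_ty n k (e o) (e d)
  C_mono := fun n k o => h.C_mono n k (e o)
  C_ball := fun n k o p d c h1 h2 h3 h4 => by
    change Y.C n k (e p) ↔ _
    rw [h.C_ball n k (e o) (e p) (e d) (e c) h1 h2 h3 h4]
    constructor
    · rintro (k1 | ⟨c', k1, k2⟩)
      · exact Or.inl (e.injective k1)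
      · obtain ⟨c', rfl⟩ := e.surjective c'
        refine Or.inr ⟨c', k1, ?_⟩
        rcases k2 with k | k
        · exact Or.inl (e.injective k)
        · exact Or.inr k
    · rintro (k1 | ⟨c', k1, k2⟩)
      · exact Or.inl (by rw [k1])
      · refine Or.inr ⟨e c', k1, ?_⟩
        rcases k2 with k | k
        · exact Or.inl (by rw [k])
        · exact Or.inr k
  S_ex := by
    obtain ⟨z, hz⟩ := h.S_ex
    obtain ⟨z, rfl⟩ := e.surjective z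
    exact ⟨z, hz⟩
  XS := fun a p q x y w z d h1 h2 h3 h4 h5 h6 => by
    obtain ⟨s, k1, k2, k3, k4⟩ := h.XS a p q (fun i => e (x i)) (fun i => e (y i))
      (fun i => e (w i)) (e z) (e d) h1 h2 h3
      (fun i => by obtain ⟨c, hc⟩ := h4 i; exact ⟨e c, hc⟩)
      (fun i => by obtain ⟨c, hc⟩ := h5 i; exact ⟨e c, hc⟩)
      (fun i j k => h6 i j (e.injective k))
    obtain ⟨s, rfl⟩ := e.surjective s
    refine ⟨s, k1, fun i => ?_, k3, k4⟩
    obtain ⟨c, k5, k6⟩ := k2 i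
    obtain ⟨c, rfl⟩ := e.surjective c
    refine ⟨c, k5, ?_⟩
    rcases k6 with k | k
    · exact Or.inl (e.injective k)
    · exact Or.inr k
  XB := fun a p q x y w u l d h1 h2 h3 h4 h5 h6 => by
    obtain ⟨s, k0, k1, k2, k3, k4⟩ := h.XB a p q (fun i => e (x i)) (fun i => e (y i))
      (fun i => e (w i)) (e u) (e l) (e d) h1 h2 h3 h4 h5
      (fun i j => by obtain ⟨c, hc⟩ := h6 i j; exact ⟨e c, hc⟩)
    obtain ⟨s, rfl⟩ := e.surjective s
    refine ⟨s, k0, k1, fun i => ?_, k3, k4⟩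
    obtain ⟨c, k5, k6⟩ := k2 i
    obtain ⟨c, rfl⟩ := e.surjective c
    refine ⟨c, k5, ?_⟩
    rcases k6 with k | k
    · exact Or.inl (e.injective k)
    · exact Or.inr k

/-- Family of raw models on `ℕ` realising `E_0`. -/
theorem BD.iso_iff (D : BD) (e : ℕ ≃ ℚ ⊕ (D.S ⊕ D.B)) (x y : ℕ → Bool) :
    (∃ e' : ℕ ≃ ℕ, (D.rawx x).comap e = ((D.rawx y).comap e).comap e') ↔
      ∃ m, ∀ n, m ≤ n → x n = y n := by
  have hz : ∀ x : ℕ → Bool, ((D.rawx x).comap e).Sp (e.symm (inr (inl D.z0))) := by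
    intro x
    change (D.rawx x).Sp (e (e.symm _))
    rw [e.apply_symm_apply]
    exact ⟨_, rfl⟩
  have key : ∀ x : ℕ → Bool, iCof ((D.rawx x).comap e) ∧ ¬ iMin ((D.rawx x).comap e) ∧
      (∀ n, iA ((D.rawx x).comap e) n) ∧
      ∀ n, iR ((D.rawx x).comap e) (e.symm (inr (inl D.z0))) n ↔ x n = true := by
    intro x
    obtain ⟨h1, h2, h3, h4⟩ := inv_of_iso (X := (D.rawx x).comap e) e rfl
    refine ⟨h1.2 (D.cof x), fun h => D.nmin x (h2.1 h), fun n => (h3 n).2 (D.isA x n), ?_⟩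
    intro n
    rw [h4, e.apply_symm_apply, D.isR]
  rw [classify ((D.ax x).comap e) ((D.ax y).comap e) _ (hz x) _ (hz y)]
  obtain ⟨x1, x2, x3, x4⟩ := key x
  obtain ⟨y1, y2, y3, y4⟩ := key y
  constructor
  · rintro ⟨-, -, -, h⟩
    obtain ⟨m, hm⟩ := h x1
    refine ⟨m, fun n hn => ?_⟩
    have := hm n hn
    rw [x4, y4] at this
    exact Bool.eq_iff_iff.2 this
  · rintro ⟨m, hm⟩
    refine ⟨iff_of_true x1 y1, iff_of_false x2 y2, fun n => iff_of_true (x3 n) (y3 n), fun _ =>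
      ⟨m, fun n hn => ?_⟩⟩
    rw [x4, y4, hm n hn]

end Pool.Agent.HK
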