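import Mathlib

/-!
MP_e47bfc_lc, module E0: eventual equality on `ℕ → Bool` is not smooth.
-/

set_option autoImplicit false

namespace Pool.Agent.HK

namespace E0Aux

open Set Filter Topology

/-- flipping the coordinates in `s`. -/
def flip (s : Set ℕ) [DecidablePred (· ∈ s)] : (ℕ → Bool) ≃ₜ (ℕ → Bool) where
  toFun x i := if i ∈ s then !x i else x i
  invFun x i := if i ∈ s then !x i else x i
  left_inv x := by funext i; by_cases h : i ∈ s <;> simp [h]
  right_inv x := by funext i; by_cases h : i ∈ s <;> simp [h]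
  continuous_toFun := by
    refine continuous_pi fun i => ?_
    by_cases h : i ∈ s
    · simp only [h, if_true]
      exact (continuous_of_discreteTopology (f := Bool.not)).comp
        (continuous_apply (A := fun _ : ℕ => Bool) i)
    · simp only [h, if_false]
      exact continuous_apply i
  continuous_invFun := by
    refine continuous_pi fun i => ?_
    by_cases h : i ∈ s
    · simp only [h, if_true]
      exact (continuous_of_discreteTopology (f := Bool.not)).comp
        (continuous_apply (A := fun _ : ℕ => Bool) i)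
    · simp only [h, if_false]
      exact continuous_apply i

lemma flip_apply (s : Set ℕ) [DecidablePred (· ∈ s)] (x : ℕ → Bool) (i : ℕ) :
    flip s x i = if i ∈ s then !x i else x i := rfl

lemma preimage_residual (φ : (ℕ → Bool) ≃ₜ (ℕ → Bool)) {A : Set (ℕ → Bool)}
    (hA : A ∈ residual (ℕ → Bool)) : φ ⁻¹' A ∈ residual (ℕ → Bool) := by
  rw [← φ.residual_map_eq] at hA
  exact hA

/-- 0-1 law. -/
lemma zero_one {A : Set (ℕ → Bool)} (hA : MeasurableSet A)
    (hinv : ∀ x y : ℕ → Bool, (∃ m, ∀ n, m ≤ n → x n = y n) → (x ∈ A ↔ y ∈ A)) :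
    A ∈ residual (ℕ → Bool) ∨ Aᶜ ∈ residual (ℕ → Bool) := by
  classical
  obtain ⟨U, hU, hAU⟩ := hA.residualEq_isOpen
  have hev : ∀ᶠ x in residual (ℕ → Bool), (x ∈ A ↔ x ∈ U) := by
    have := hAU
    rw [eventuallyEq_set] at this
    exact this
  rcases U.eq_empty_or_nonempty with rfl | ⟨u0, hu0⟩
  · right
    filter_upwards [hev] with x hx
    simpa using hx
  · left
    obtain ⟨I, u, hu, hsub⟩ := isOpen_pi_iff.1 hU u0 hu0
    have h1 : ∀ g : Finset ℕ, ∀ᶠ x in residual (ℕ → Bool),
        (flip (g : Set ℕ) x ∈ U → x ∈ A) := by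
      intro g
      have h2 := preimage_residual (flip (g : Set ℕ)) hev
      filter_upwards [h2] with x hx hxU
      have h3 : flip (g : Set ℕ) x ∈ A := (hx : _ ↔ _).2 hxU
      refine (hinv _ _ ?_).1 h3
      refine ⟨g.sup id + 1, fun n hn => ?_⟩
      rw [flip_apply, if_neg]
      intro hmem
      have : n ≤ g.sup id := Finset.le_sup (f := id) (Finset.mem_coe.1 hmem)
      omega
    have h4 := eventually_countable_forall.2 h1
    filter_upwards [h4] with x hx
    refine hx (I.filter fun i => x i ≠ u0 i) (hsub ?_)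
    intro i hi
    have h5 : flip ((I.filter fun i => x i ≠ u0 i : Finset ℕ) : Set ℕ) x i = u0 i := by
      rw [flip_apply]
      by_cases h6 : x i = u0 i
      · rw [if_neg (by simp [h6]), h6]
      · rw [if_pos (by simp [h6, Finset.mem_coe.1 hi])]
        cases hxi : x i <;> cases hui : u0 i <;> simp_all
    rw [h5]
    exact (hu i hi).2

end E0Aux

open E0Aux Filter in
theorem E0_not_smooth : ¬ ∃ G : (ℕ → Bool) → (ℕ → Bool), Measurable G ∧
    ∀ x y : ℕ → Bool, (G x = G y ↔ ∃ m, ∀ n, m ≤ n → x n = y n) := by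
  classical
  rintro ⟨G, hG, hiff⟩
  have hA : ∀ n, ∃ b : Bool, ∀ᶠ x in residual (ℕ → Bool), G x n = b := by
    intro n
    have hm : MeasurableSet {x | G x n = true} :=
      measurableSet_eq_fun ((measurable_pi_apply n).comp hG) measurable_const
    rcases zero_one hm (fun x y hxy => by
      have := (hiff x y).2 hxy
      show G x n = true ↔ G y n = true
      rw [this]) with h | h
    · exact ⟨true, h⟩
    · refine ⟨false, ?_⟩
      filter_upwards [h] with x hx
      simpa using hx
  choose c hc using hA
  have h1 : ∀ᶠ x in residual (ℕ → Bool), ∀ n, G x n = c n := eventually_countable_forall.2 hc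
  have h2 := preimage_residual (flip Set.univ) h1
  obtain ⟨x, hx1, hx2⟩ := (dense_of_mem_residual (Filter.inter_mem h1 h2)).nonempty
  have h3 : G x = G (flip Set.univ x) := by
    funext n
    rw [(hx1 : ∀ n, G x n = c n) n]
    exact ((hx2 : ∀ n, G (flip Set.univ x) n = c n) n).symm
  obtain ⟨m, hm⟩ := (hiff _ _).1 h3
  have h4 := hm m le_rfl
  rw [flip_apply, if_pos (Set.mem_univ _)] at h4
  cases hxm : x m <;> simp_all

end Pool.Agent.HK
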