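import Pool.Agent.MP_e47bfc_lc.Concrete
import Pool.Agent.MP_e47bfc_lc.E0

set_option autoImplicit false
set_option linter.unusedVariables false
set_option linter.unusedSectionVars false
set_option linter.style.haveILetI false

namespace Pool.Agent.HK

open FirstOrder FirstOrder.Language

/-- The Borel structure on the space of `L`-structures. -/
def mS : MeasurableSpace (L.Structure ℕ) := MeasurableSpace.comap
      (fun S : L.Structure ℕ =>
        (((fun n (f : L.Functions n) =>
            FirstOrder.Language.Structure.funMap (L := L) (M := ℕ) f),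
          (fun n (r : L.Relations n) =>
            FirstOrder.Language.Structure.RelMap (L := L) (M := ℕ) r)) :
          ((n : ℕ) → L.Functions n → (Fin n → ℕ) → ℕ) ×
          ((n : ℕ) → L.Relations n → (Fin n → ℕ) → Prop)))
      (inferInstance : MeasurableSpace
          (((n : ℕ) → L.Functions n → (Fin n → ℕ) → ℕ) ×
          ((n : ℕ) → L.Relations n → (Fin n → ℕ) → Prop)))

theorem meas_rel {n : ℕ} (r : L.Relations n) (v : Fin n → ℕ) :
    @Measurable _ _ mS _ (fun A : L.Structure ℕ => A.RelMap r v) := by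
  letI := mS
  have h1 : Measurable (fun S : L.Structure ℕ =>
        (((fun n (f : L.Functions n) =>
            FirstOrder.Language.Structure.funMap (L := L) (M := ℕ) f),
          (fun n (r : L.Relations n) =>
            FirstOrder.Language.Structure.RelMap (L := L) (M := ℕ) r)) :
          ((n : ℕ) → L.Functions n → (Fin n → ℕ) → ℕ) ×
          ((n : ℕ) → L.Relations n → (Fin n → ℕ) → Prop))) := comap_measurable _
  have h2 : Measurable (fun p : ((n : ℕ) → L.Functions n → (Fin n → ℕ) → ℕ) ×
          ((n : ℕ) → L.Relations n → (Fin n → ℕ) → Prop) => p.2 n r v) := by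
    exact (measurable_pi_apply v).comp ((measurable_pi_apply r).comp
      ((measurable_pi_apply n).comp measurable_snd))
  exact h2.comp h1

section
attribute [local instance] mS

theorem meas_Hp (x : ℕ) : Measurable (fun A : L.Structure ℕ => (raw A).Hp x) := meas_rel _ _
theorem meas_Sp (x : ℕ) : Measurable (fun A : L.Structure ℕ => (raw A).Sp x) := meas_rel _ _
theorem meas_hh (k x : ℕ) : Measurable (fun A : L.Structure ℕ => (raw A).hh k x) := meas_rel _ _
theorem meas_C (n k x : ℕ) : Measurable (fun A : L.Structure ℕ => (raw A).C n k x) := meas_rel _ _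
theorem meas_lt (x y : ℕ) : Measurable (fun A : L.Structure ℕ => (raw A).lt x y) := meas_rel _ _
theorem meas_R (x y : ℕ) : Measurable (fun A : L.Structure ℕ => (raw A).R x y) := meas_rel _ _
theorem meas_le (x y : ℕ) : Measurable (fun A : L.Structure ℕ => (raw A).le x y) :=
  measurable_const.or (meas_lt x y)

theorem meas_iCof : Measurable (fun A : L.Structure ℕ => iCof (raw A)) :=
  Measurable.forall fun d => (meas_Hp d).imp <| Measurable.exists fun k => Measurable.exists fun c =>
    (meas_hh k c).and (meas_lt d c)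

theorem meas_iMin : Measurable (fun A : L.Structure ℕ => iMin (raw A)) :=
  Measurable.exists fun d => (meas_Hp d).and <| (Measurable.forall fun k => Measurable.forall fun c =>
    (meas_hh k c).imp (meas_lt c d)).and <| Measurable.forall fun d' => (meas_Hp d').imp <|
    (Measurable.forall fun k => Measurable.forall fun c => (meas_hh k c).imp (meas_lt c d')).imp
      (meas_le d d')

theorem meas_iA (n : ℕ) : Measurable (fun A : L.Structure ℕ => iA (raw A) n) :=
  Measurable.exists fun o => Measurable.forall fun k => meas_C n k o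

theorem meas_iR (x n : ℕ) : Measurable (fun A : L.Structure ℕ => iR (raw A) x n) :=
  Measurable.exists fun o => (Measurable.forall fun k => meas_C n k o).and (meas_R x o)

/-- The trace of the least element of `S`. -/
def tr (X : Raw ℕ) (n : ℕ) : Prop :=
  iCof X ∧ ∃ x, (X.Sp x ∧ ∀ y, y < x → ¬ X.Sp y) ∧ iR X x n

theorem meas_tr (n : ℕ) : Measurable (fun A : L.Structure ℕ => tr (raw A) n) :=
  meas_iCof.and <| Measurable.exists fun x =>
    ((meas_Sp x).and (Measurable.forall fun y => measurable_const.imp (meas_Sp y).not)).and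
      (meas_iR x n)

/-- The target space. -/
abbrev Yt : Type := (Prop × Prop) × ((ℕ → Prop) × (ℕ → Prop))

/-- The countable Borel equivalence relation on the target space. -/
def Et (y z : Yt) : Prop := (y.1.1 ↔ z.1.1) ∧ (y.1.2 ↔ z.1.2) ∧ (∀ n, y.2.1 n ↔ z.2.1 n) ∧
  ∃ m, ∀ n, m ≤ n → (y.2.2 n ↔ z.2.2 n)

theorem Et_equiv : Equivalence Et where
  refl y := ⟨Iff.rfl, Iff.rfl, fun _ => Iff.rfl, 0, fun _ _ => Iff.rfl⟩
  symm := by
    rintro y z ⟨h1, h2, h3, m, h4⟩
    exact ⟨h1.symm, h2.symm, fun n => (h3 n).symm, m, fun n hn => (h4 n hn).symm⟩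
  trans := by
    rintro x y z ⟨h1, h2, h3, m, h4⟩ ⟨k1, k2, k3, l, k4⟩
    exact ⟨h1.trans k1, h2.trans k2, fun n => (h3 n).trans (k3 n), max m l,
      fun n hn => (h4 n (le_trans (le_max_left _ _) hn)).trans
        (k4 n (le_trans (le_max_right _ _) hn))⟩

theorem Et_meas : MeasurableSet {p : Yt × Yt | Et p.1 p.2} := by
  apply Measurable.setOf
  have a1 : Measurable (fun p : Yt × Yt => p.1.1.1) := measurable_fst.fst.fst
  have a2 : Measurable (fun p : Yt × Yt => p.1.1.2) := measurable_fst.fst.snd
  have a3 : Measurable (fun p : Yt × Yt => p.2.1.1) := measurable_snd.fst.fst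
  have a4 : Measurable (fun p : Yt × Yt => p.2.1.2) := measurable_snd.fst.snd
  have a5 : ∀ n, Measurable (fun p : Yt × Yt => p.1.2.1 n) := fun n =>
    (measurable_pi_apply n).comp measurable_fst.snd.fst
  have a6 : ∀ n, Measurable (fun p : Yt × Yt => p.1.2.2 n) := fun n =>
    (measurable_pi_apply n).comp measurable_fst.snd.snd
  have a7 : ∀ n, Measurable (fun p : Yt × Yt => p.2.2.1 n) := fun n =>
    (measurable_pi_apply n).comp measurable_snd.snd.fst
  have a8 : ∀ n, Measurable (fun p : Yt × Yt => p.2.2.2 n) := fun n =>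
    (measurable_pi_apply n).comp measurable_snd.snd.snd
  exact (a1.iff a3).and <| (a2.iff a4).and <| (Measurable.forall fun n => (a5 n).iff (a7 n)).and <|
    Measurable.exists fun m => Measurable.forall fun n => measurable_const.imp ((a6 n).iff (a8 n))

theorem Et_countable (y : Yt) : ({z : Yt | Et y z} : Set Yt).Countable := by
  have h1 : ∀ m : ℕ, (Set.range (fun s : Fin m → Prop =>
      ((y.1, (y.2.1, fun n => if h : n < m then s ⟨n, h⟩ else y.2.2 n)) : Yt))).Countable :=
    fun m => Set.countable_range _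
  refine (Set.countable_iUnion h1).mono ?_
  rintro ⟨⟨z1, z2⟩, z3, z4⟩ ⟨k1, k2, k3, m, k4⟩
  rw [Set.mem_iUnion]
  refine ⟨m, fun i => z4 i, ?_⟩
  simp only at k1 k2 k3 k4 ⊢
  refine Prod.ext (Prod.ext (propext k1) (propext k2)) (Prod.ext (funext fun n => propext (k3 n)) ?_)
  funext n
  by_cases hn : n < m
  · simp [hn]
  · simp only [hn, dite_false]
    exact propext (k4 n (not_lt.1 hn))

/-- The classifying map. -/
def ft (A : {S : L.Structure ℕ // @Theory.Model L ℕ S T}) : Yt :=
  ((iCof (raw A.1), iMin (raw A.1)), (fun n => iA (raw A.1) n, fun n => tr (raw A.1) n))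

theorem meas_ft : Measurable ft := by
  have h : Measurable (fun A : L.Structure ℕ =>
      (((iCof (raw A), iMin (raw A)), (fun n => iA (raw A) n, fun n => tr (raw A) n)) : Yt)) :=
    (meas_iCof.prodMk meas_iMin).prodMk
      ((measurable_pi_lambda _ meas_iA).prodMk (measurable_pi_lambda _ meas_tr))
  exact h.comp measurable_subtype_coe

theorem ft_iff (A B : {S : L.Structure ℕ // @Theory.Model L ℕ S T}) :
    Nonempty (@FirstOrder.Language.Equiv L ℕ ℕ A.1 B.1) ↔ Et (ft A) (ft B) := by
  classical
  have hA := ax_of_model A.1 A.2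
  have hB := ax_of_model B.1 B.2
  have least : ∀ X : Raw ℕ, X.Ax → ∃ x, X.Sp x ∧ ∀ n, tr X n ↔ iCof X ∧ iR X x n := by
    intro X hX
    refine ⟨Nat.find hX.S_ex, Nat.find_spec hX.S_ex, fun n => ?_⟩
    unfold tr
    refine and_congr_right fun hc => ?_
    constructor
    · rintro ⟨x, ⟨h1, h2⟩, h3⟩
      have : x = Nat.find hX.S_ex := by
        apply le_antisymm
        · by_contra hlt
          exact h2 _ (not_le.1 hlt) (Nat.find_spec hX.S_ex)
        · exact Nat.find_min' _ h1
      rw [← this]
      exact h3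
    · intro h
      exact ⟨_, ⟨Nat.find_spec hX.S_ex, fun y hy => Nat.find_min _ hy⟩, h⟩
  obtain ⟨x, hx, hx'⟩ := least _ hA
  obtain ⟨y, hy, hy'⟩ := least _ hB
  rw [iso_iff, classify hA hB x hx y hy]
  unfold Et ft
  simp only
  constructor
  · rintro ⟨h1, h2, h3, h4⟩
    refine ⟨h1, h2, h3, ?_⟩
    by_cases hc : iCof (raw A.1)
    · obtain ⟨m, hm⟩ := h4 hc
      refine ⟨m, fun n hn => ?_⟩
      rw [hx', hy', hm n hn, h1]
    · refine ⟨0, fun n _ => ?_⟩
      rw [hx', hy']
      exact iff_of_false (fun h => hc h.1) (fun h => hc (h1.2 h.1))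
  · rintro ⟨h1, h2, h3, m, h4⟩
    refine ⟨h1, h2, h3, fun hc => ⟨m, fun n hn => ?_⟩⟩
    have := h4 n hn
    rw [hx', hy'] at this
    constructor
    · intro h; exact (this.1 ⟨hc, h⟩).2
    · intro h; exact (this.2 ⟨h1.1 hc, h⟩).2

/-- Measurability of the family of models. -/
theorem meas_family (D : BD) (e : ℕ ≃ ℚ ⊕ (D.S ⊕ D.B)) :
    Measurable (fun x : ℕ → Bool => ofRaw ((D.rawx x).comap e)) := by
  apply measurable_comap_iff.2
  apply Measurable.prodMk
  · exact measurable_pi_lambda _ fun n => measurable_pi_lambda _ fun f => Empty.elim f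
  · refine measurable_pi_lambda _ fun n => measurable_pi_lambda _ fun r =>
      measurable_pi_lambda _ fun v => ?_
    cases r
    · exact measurable_const
    · exact measurable_const
    · exact measurable_const
    · rename_i n k
      have h1 : Measurable (fun x : ℕ → Bool => x n) := measurable_pi_apply n
      have h2 : Measurable (fun b : Bool => ∃ o, e (v 0) = Sum.inr (Sum.inr o) ∧
        D.lam o = (n : ℚ) ∧ (((k : ℚ) : WithTop ℚ)) ≤ D.rho o (D.o n b)) := measurable_of_countable _
      exact h2.comp h1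
    · exact measurable_const
    · exact measurable_const
    · exact measurable_const
    · exact measurable_const
    · exact measurable_const

theorem not_smooth : ¬ ∃ g : {S : L.Structure ℕ // @Theory.Model L ℕ S T} → (ℕ → Bool),
    Measurable g ∧ ∀ A B : {S : L.Structure ℕ // @Theory.Model L ℕ S T},
        (Nonempty (@FirstOrder.Language.Equiv L ℕ ℕ A.1 B.1) ↔ g A = g B) := by
  rintro ⟨g, hg, hg'⟩
  obtain ⟨D⟩ := exists_BD
  haveI := D.cS
  haveI := D.cB
  haveI : Infinite (ℚ ⊕ (D.S ⊕ D.B)) := Sum.infinite_of_left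
  obtain ⟨e⟩ : Nonempty (ℕ ≃ ℚ ⊕ (D.S ⊕ D.B)) := nonempty_equiv_of_countable
  have hm : ∀ x : ℕ → Bool, @Theory.Model L ℕ (ofRaw ((D.rawx x).comap e)) T := fun x =>
    model_of_ax _ (by rw [raw_ofRaw]; exact (D.ax x).comap e)
  apply E0_not_smooth
  refine ⟨fun x => g ⟨ofRaw ((D.rawx x).comap e), hm x⟩, ?_, ?_⟩
  · exact hg.comp ((meas_family D e).subtype_mk)
  · intro x y
    rw [← hg', iso_iff, raw_ofRaw, raw_ofRaw, D.iso_iff]

end

end Pool.Agent.HK
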