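import Pool.Agent.MP_e47bfc_lc.BackForth

set_option autoImplicit false
set_option linter.unusedSectionVars false
set_option linter.unusedVariables false
set_option linter.style.haveILetI false

namespace Pool.Agent.HK

/-- Typed models over a fixed distance set `(H, h)`. -/
structure GM (H : Type) [LinearOrder H] (h : ℕ → H) where
  S : Type
  B : Type
  eta : S → S → WithBot H
  lam : B → H
  rho : B → B → WithTop H
  R : S → B → Prop
  e : B → WithTop H
  eta_bot : ∀ x y, eta x y = ⊥ ↔ x = y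
  eta_symm : ∀ x y, eta x y = eta y x
  eta_ultra : ∀ x y z, eta x z ≤ max (eta x y) (eta y z)
  rho_top : ∀ x y, lam x = lam y → (rho x y = ⊤ ↔ x = y)
  rho_symm : ∀ x y, lam x = lam y → rho x y = rho y x
  rho_ultra : ∀ x y z, lam x = lam y → lam y = lam z → min (rho x y) (rho y z) ≤ rho x z
  R_inv : ∀ x y o, eta x y ≤ ((lam o : H) : WithBot H) → (R x o ↔ R y o)
  e_or : ∀ n o, lam o = h n → e o = ⊤ ∨ ∃ k, e o < ((h k : H) : WithTop H)
  e_tri1 : ∀ n k (c : H) o p, lam o = h n → lam p = h n → c ≤ h k →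
    (c : WithTop H) ≤ e o → (c : WithTop H) ≤ rho o p → (c : WithTop H) ≤ e p
  e_tri2 : ∀ n k (c : H) o p, lam o = h n → lam p = h n → c ≤ h k →
    (c : WithTop H) ≤ e o → (c : WithTop H) ≤ e p → (c : WithTop H) ≤ rho o p
  e_ne : ∀ n k, ∃ o, lam o = h n ∧ ((h k : H) : WithTop H) ≤ e o
  Bne : ∀ d, ∃ o, lam o = d
  XS : ∀ (z : S) (d : H) (A : Set S) (P Q : Set B), A.Finite → P.Finite → Q.Finite →
    Disjoint P Q → (∀ o ∈ P, lam o < d) → (∀ o ∈ Q, lam o < d) →
    ∃ w, eta w z = (d : WithBot H) ∧ (∀ a ∈ A, (d : WithBot H) ≤ eta w a) ∧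
      (∀ o ∈ P, R w o) ∧ (∀ o ∈ Q, ¬ R w o)
  XB : ∀ (u : B) (d : H) (A : Set B) (P Q : Set S), A.Finite → P.Finite → Q.Finite →
    (∀ a ∈ A, lam a = lam u) → (∀ p ∈ P, ∀ q ∈ Q, ¬ eta p q ≤ ((lam u : H) : WithBot H)) →
    ∃ o, lam o = lam u ∧ rho o u = (d : WithTop H) ∧ (∀ a ∈ A, rho o a ≤ (d : WithTop H)) ∧
      (∀ p ∈ P, R p o) ∧ (∀ q ∈ Q, ¬ R q o)

variable {H : Type} [LinearOrder H] {h : ℕ → H}

def Cof (h : ℕ → H) : Prop := ∀ d : H, ∃ k, d < h k

/-- `x` is related to the (unique) limit object of level `n`. -/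
def GM.r (M : GM H h) (x : M.S) (n : ℕ) : Prop := ∃ o, M.lam o = h n ∧ M.e o = ⊤ ∧ M.R x o

def GM.a (M : GM H h) (n : ℕ) : Prop := ∃ o, M.lam o = h n ∧ M.e o = ⊤

structure Good (M M' : GM H h) (f : Set (M.S × M'.S)) (g : Set (M.B × M'.B)) : Prop where
  ff : f.Finite
  gf : g.Finite
  eta : ∀ p ∈ f, ∀ q ∈ f, M.eta p.1 q.1 = M'.eta p.2 q.2
  lam : ∀ p ∈ g, M.lam p.1 = M'.lam p.2
  rho : ∀ p ∈ g, ∀ q ∈ g, M.lam p.1 = M.lam q.1 → M.rho p.1 q.1 = M'.rho p.2 q.2
  e : ∀ p ∈ g, ∀ n, M.lam p.1 = h n → M.e p.1 = M'.e p.2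
  R : ∀ p ∈ f, ∀ q ∈ g, (M.R p.1 q.1 ↔ M'.R p.2 q.2)
  r : Cof h → ∀ p ∈ f, ∀ n, M.r p.1 n ↔ M'.r p.2 n
  ne : f.Nonempty

theorem Good.swap {M M' : GM H h} {f : Set (M.S × M'.S)} {g : Set (M.B × M'.B)}
    (G : Good M M' f g) : Good M' M (Prod.swap '' f) (Prod.swap '' g) where
  ff := G.ff.image _
  gf := G.gf.image _
  eta := by
    rintro _ ⟨p, hp, rfl⟩ _ ⟨q, hq, rfl⟩
    exact (G.eta p hp q hq).symm
  lam := by
    rintro _ ⟨p, hp, rfl⟩
    exact (G.lam p hp).symm
  rho := by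
    rintro _ ⟨p, hp, rfl⟩ _ ⟨q, hq, rfl⟩ hl
    simp only [Prod.fst_swap, Prod.snd_swap] at *
    rw [← G.lam p hp, ← G.lam q hq] at hl
    exact (G.rho p hp q hq hl).symm
  e := by
    rintro _ ⟨p, hp, rfl⟩ n hn
    simp only [Prod.fst_swap, Prod.snd_swap] at *
    rw [← G.lam p hp] at hn
    exact (G.e p hp n hn).symm
  R := by
    rintro _ ⟨p, hp, rfl⟩ _ ⟨q, hq, rfl⟩
    exact (G.R p hp q hq).symm
  r := by
    rintro hc _ ⟨p, hp, rfl⟩ n
    exact (G.r hc p hp n).symm
  ne := G.ne.image _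

/-- isosceles computation for `eta`. -/
theorem GM.eta_iso (M : GM H h) {w z a : M.S} {d : H} (h1 : M.eta w z = d)
    (h2 : (d : WithBot H) ≤ M.eta w a) : M.eta w a = max (d : WithBot H) (M.eta z a) := by
  apply le_antisymm
  · have := M.eta_ultra w z a
    rwa [h1] at this
  · apply max_le h2
    have := M.eta_ultra z w a
    rw [M.eta_symm z w, h1] at this
    exact this.trans (max_le h2 le_rfl)

/-- isosceles computation for `rho`. -/
theorem GM.rho_iso (M : GM H h) {w z a : M.B} {d : H} (hz : M.lam w = M.lam z)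
    (ha : M.lam a = M.lam z) (h1 : M.rho w z = d)
    (h2 : M.rho w a ≤ (d : WithTop H)) : M.rho w a = min (d : WithTop H) (M.rho z a) := by
  apply le_antisymm
  · apply le_min h2
    have := M.rho_ultra z w a hz.symm (hz.trans ha.symm)
    rw [M.rho_symm z w hz.symm, h1] at this
    exact (le_min h2 le_rfl).trans this
  · have := M.rho_ultra w z a hz ha.symm
    rwa [h1] at this

theorem GM.uniq (M : GM H h) (hc : Cof h) {n : ℕ} {o p : M.B} (ho : M.lam o = h n)
    (hp : M.lam p = h n) (eo : M.e o = ⊤) (ep : M.e p = ⊤) : o = p := by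
  rw [← M.rho_top o p (ho.trans hp.symm)]
  by_contra hne
  obtain ⟨c, hc'⟩ := WithTop.ne_top_iff_exists.1 hne
  obtain ⟨k, hk⟩ := hc c
  have := M.e_tri2 n k (h k) o p ho hp le_rfl (by rw [eo]; exact le_top) (by rw [ep]; exact le_top)
  rw [← hc'] at this
  exact absurd (WithTop.coe_le_coe.1 this) (not_le.2 hk)

/-- In the fibre over `h n`: relation of a point of infinite `e` with a point of finite `e`. -/
theorem GM.rho_eq_e (M : GM H h) {n : ℕ} {o p : M.B} (ho : M.lam o = h n)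
    (hp : M.lam p = h n) {c : H} (ep : M.e p = c) (eo : (c : WithTop H) < M.e o) :
    M.rho o p = c := by
  have hck : ∃ k, c < h k := by
    rcases M.e_or n p hp with h1 | ⟨k, hk⟩
    · rw [ep] at h1; exact absurd h1 (WithTop.coe_ne_top)
    · rw [ep] at hk; exact ⟨k, WithTop.coe_lt_coe.1 hk⟩
  obtain ⟨k, hk⟩ := hck
  apply le_antisymm
  · by_contra hlt
    rw [not_le] at hlt
    -- find c' with c < c' ≤ h k, c' ≤ e o, c' ≤ rho o p
    have : ∃ c' : H, c < c' ∧ c' ≤ h k ∧ (c' : WithTop H) ≤ M.e o ∧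
        (c' : WithTop H) ≤ M.rho o p := by
      have key : (c : WithTop H) < min (min (M.e o) (M.rho o p)) (h k) :=
        lt_min (lt_min eo hlt) (WithTop.coe_lt_coe.2 hk)
      have h3 : min (min (M.e o) (M.rho o p)) ((h k : H) : WithTop H) ≠ ⊤ := by
        intro h4
        have := (min_le_right (min (M.e o) (M.rho o p)) ((h k : H) : WithTop H))
        rw [h4] at this
        exact WithTop.coe_ne_top (top_le_iff.1 this)
      obtain ⟨c', hc'⟩ := WithTop.ne_top_iff_exists.1 h3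
      rw [← hc'] at key
      refine ⟨c', WithTop.coe_lt_coe.1 key, ?_, ?_, ?_⟩
      · apply WithTop.coe_le_coe.1; rw [hc']; exact min_le_right _ _
      · rw [hc']; exact (min_le_left _ _).trans (min_le_left _ _)
      · rw [hc']; exact (min_le_left _ _).trans (min_le_right _ _)
    obtain ⟨c', h1, h2, h3, h4⟩ := this
    have := M.e_tri1 n k c' o p ho hp h2 h3 h4
    rw [ep] at this
    exact absurd (WithTop.coe_le_coe.1 this) (not_le.2 h1)
  · exact M.e_tri2 n k c o p ho hp hk.le eo.le (by rw [ep])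


theorem GM.r_inv (M : GM H h) {x y : M.S} {n : ℕ} (hxy : M.eta x y ≤ ((h n : H) : WithBot H)) :
    M.r x n ↔ M.r y n := by
  constructor
  · rintro ⟨o, h1, h2, h3⟩
    exact ⟨o, h1, h2, (M.R_inv x y o (by rw [h1]; exact hxy)).1 h3⟩
  · rintro ⟨o, h1, h2, h3⟩
    exact ⟨o, h1, h2, (M.R_inv x y o (by rw [h1]; exact hxy)).2 h3⟩

theorem Good.injS {M M' : GM H h} {f : Set (M.S × M'.S)} {g : Set (M.B × M'.B)}
    (G : Good M M' f g) : ∀ p ∈ f, ∀ q ∈ f, (p.1 = q.1 ↔ p.2 = q.2) := by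
  intro p hp q hq
  rw [← M.eta_bot, ← M'.eta_bot, G.eta p hp q hq]

theorem Good.injB {M M' : GM H h} {f : Set (M.S × M'.S)} {g : Set (M.B × M'.B)}
    (G : Good M M' f g) : ∀ p ∈ g, ∀ q ∈ g, (p.1 = q.1 ↔ p.2 = q.2) := by
  intro p hp q hq
  constructor
  · intro h1
    have hl : M.lam p.1 = M.lam q.1 := by rw [h1]
    rw [← M'.rho_top _ _ (by rw [← G.lam p hp, ← G.lam q hq, hl]), ← G.rho p hp q hq hl,
      M.rho_top _ _ hl]
    exact h1
  · intro h1
    have hl : M.lam p.1 = M.lam q.1 := by rw [G.lam p hp, G.lam q hq, h1]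
    rw [← M.rho_top _ _ hl, G.rho p hp q hq hl, M'.rho_top _ _ (by rw [h1])]
    exact h1

theorem forthS {M M' : GM H h} (hm : StrictMono h) (ha : ∀ n, M.a n ↔ M'.a n)
    {f : Set (M.S × M'.S)} {g : Set (M.B × M'.B)} (G : Good M M' f g) (x : M.S) :
    ∃ f', f ⊆ f' ∧ Good M M' f' g ∧ ∃ x', (x, x') ∈ f' := by
  by_cases hx : ∃ p ∈ f, p.1 = x
  · obtain ⟨p, hp, rfl⟩ := hx
    exact ⟨f, subset_rfl, G, p.2, hp⟩
  push Not at hx
  obtain ⟨p1, hp1, hmin⟩ := Set.exists_min_image f (fun p => M.eta x p.1) G.ff G.ne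
  obtain ⟨d, hd⟩ := WithBot.ne_bot_iff_exists.1
    (fun hb => hx p1 hp1 ((M.eta_bot _ _).1 hb).symm : M.eta x p1.1 ≠ ⊥)
  set P' : Set M'.B := {o' | ∃ o, (o, o') ∈ g ∧ M.lam o < d ∧ M.R x o} ∪
    {o' | Cof h ∧ ∃ n, h n < d ∧ M'.lam o' = h n ∧ M'.e o' = ⊤ ∧ M.r x n} with hP'
  set Q' : Set M'.B := {o' | ∃ o, (o, o') ∈ g ∧ M.lam o < d ∧ ¬ M.R x o} ∪
    {o' | Cof h ∧ ∃ n, h n < d ∧ M'.lam o' = h n ∧ M'.e o' = ⊤ ∧ ¬ M.r x n} with hQ'
  have gfin : ∀ T : Set M'.B, T ⊆ Prod.snd '' g → T.Finite := fun T hT => (G.gf.image _).subset hT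
  have spfin : {o' | Cof h ∧ ∃ n, h n < d ∧ M'.lam o' = h n ∧ M'.e o' = ⊤}.Finite := by
    by_cases hc : Cof h
    · obtain ⟨k, hk⟩ := hc d
      have : {o' | Cof h ∧ ∃ n, h n < d ∧ M'.lam o' = h n ∧ M'.e o' = ⊤} ⊆
          ⋃ n ∈ Set.Iio k, {o' | M'.lam o' = h n ∧ M'.e o' = ⊤} := by
        rintro o' ⟨_, n, h1, h2, h3⟩
        simp only [Set.mem_iUnion]
        exact ⟨n, hm.lt_iff_lt.1 (h1.trans hk), h2, h3⟩
      refine Set.Finite.subset (Set.Finite.biUnion (Set.finite_Iio k) ?_) this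
      intro n _
      apply Set.Subsingleton.finite
      rintro a ⟨h1, h2⟩ b ⟨h3, h4⟩
      exact M'.uniq hc h1 h3 h2 h4
    · apply Set.Finite.subset Set.finite_empty
      rintro o' ⟨h1, _⟩
      exact hc h1
  obtain ⟨x', h1, h2, h3, h4⟩ := M'.XS p1.2 d (Prod.snd '' f) P' Q' (G.ff.image _)
    (by
      apply Set.Finite.union
      · apply gfin; rintro o' ⟨o, h1, _⟩; exact ⟨_, h1, rfl⟩
      · apply spfin.subset; rintro o' ⟨h0, n, h1, h2, h3, _⟩; exact ⟨h0, n, h1, h2, h3⟩)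
    (by
      apply Set.Finite.union
      · apply gfin; rintro o' ⟨o, h1, _⟩; exact ⟨_, h1, rfl⟩
      · apply spfin.subset; rintro o' ⟨h0, n, h1, h2, h3, _⟩; exact ⟨h0, n, h1, h2, h3⟩)
    (by
      rw [Set.disjoint_left]
      rintro o' (⟨o, ho, hod, hR⟩ | ⟨hc, n, hn, hl, he, hr⟩) (⟨p, hp, hpd, hR'⟩ | ⟨hc', m, hm', hl', he', hr'⟩)
      · have := (G.injB _ ho _ hp).2 rfl
        simp only at this
        subst this
        exact hR' hR
      · apply hr'
        refine ⟨o, (G.lam _ ho).trans hl', ?_, hR⟩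
        rw [G.e _ ho m ((G.lam _ ho).trans hl')]
        exact he'
      · obtain ⟨q, hq1, hq2, hq3⟩ := hr
        have hpl := (G.lam _ hp).trans hl
        have hpe := G.e _ hp n hpl
        simp only at hpl hpe
        rw [he] at hpe
        have := M.uniq hc hpl hq1 hpe hq2
        subst this
        exact hR' hq3
      · have : n = m := hm.injective (hl.symm.trans hl')
        subst this
        exact hr' hr)
    (by
      rintro o' (⟨o, ho, hod, hR⟩ | ⟨hc, n, hn, hl, he, hr⟩)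
      · rw [← G.lam _ ho]; exact hod
      · rw [hl]; exact hn)
    (by
      rintro o' (⟨o, ho, hod, hR⟩ | ⟨hc, n, hn, hl, he, hr⟩)
      · rw [← G.lam _ ho]; exact hod
      · rw [hl]; exact hn)
  have hnew : ∀ q ∈ f, M.eta x q.1 = M'.eta x' q.2 := by
    intro q hq
    rw [M.eta_iso hd.symm (by rw [hd]; exact hmin q hq), M'.eta_iso h1 (h2 _ ⟨q, hq, rfl⟩),
      G.eta p1 hp1 q hq]
  refine ⟨insert (x, x') f, Set.subset_insert _ _, ?_, x', Set.mem_insert _ _⟩
  refine ⟨G.ff.insert _, G.gf, ?_, G.lam, G.rho, G.e, ?_, ?_, ⟨_, Set.mem_insert _ _⟩⟩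
  · rintro p (rfl | hp) q (rfl | hq)
    · simp only
      rw [(M.eta_bot x x).2 rfl, (M'.eta_bot x' x').2 rfl]
    · exact hnew q hq
    · rw [M.eta_symm, M'.eta_symm]; exact hnew p hp
    · exact G.eta p hp q hq
  · rintro p (rfl | hp) q hq
    · simp only
      by_cases hlt : M.lam q.1 < d
      · by_cases hR : M.R x q.1
        · simp only [hR, true_iff]
          exact h3 _ (Or.inl ⟨q.1, hq, hlt, hR⟩)
        · simp only [hR, false_iff]
          exact h4 _ (Or.inl ⟨q.1, hq, hlt, hR⟩)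
      · rw [not_lt] at hlt
        rw [M.R_inv x p1.1 q.1 (by rw [← hd]; exact WithBot.coe_le_coe.2 hlt), G.R p1 hp1 q hq,
          M'.R_inv x' p1.2 q.2 (by rw [h1, ← G.lam q hq]; exact WithBot.coe_le_coe.2 hlt)]
    · exact G.R p hp q hq
  · rintro hc p (rfl | hp) n
    · simp only
      by_cases hlt : h n < d
      · constructor
        · intro hr
          obtain ⟨o, ho1, ho2, _⟩ := id hr
          obtain ⟨o', ho1', ho2'⟩ := (ha n).1 ⟨o, ho1, ho2⟩
          exact ⟨o', ho1', ho2', h3 _ (Or.inr ⟨hc, n, hlt, ho1', ho2', hr⟩)⟩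
        · rintro ⟨o', ho1', ho2', hR⟩
          by_contra hr
          exact h4 _ (Or.inr ⟨hc, n, hlt, ho1', ho2', hr⟩) hR
      · rw [not_lt] at hlt
        rw [M.r_inv (x := x) (y := p1.1) (by rw [← hd]; exact WithBot.coe_le_coe.2 hlt),
          G.r hc p1 hp1 n, M'.r_inv (x := x') (y := p1.2) (by rw [h1]; exact WithBot.coe_le_coe.2 hlt)]
    · exact G.r hc p hp n

theorem extB {M M' : GM H h} {f : Set (M.S × M'.S)} {g : Set (M.B × M'.B)}
    (G : Good M M' f g) (o : M.B) (u : M'.B) (d : H) (hu : M'.lam u = M.lam o)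
    (h1 : ∀ p ∈ g, M.lam p.1 = M.lam o →
      M.rho o p.1 = min (d : WithTop H) (M'.rho u p.2))
    (h2 : ∀ n, M.lam o = h n → ∀ o', M'.lam o' = h n → M'.rho o' u = (d : WithTop H) →
      M.e o = M'.e o') :
    ∃ o', Good M M' f (insert (o, o') g) := by
  obtain ⟨o', k1, k2, k3, k4, k5⟩ := M'.XB u d {a | ∃ p ∈ g, p.2 = a ∧ M.lam p.1 = M.lam o}
    {x' | ∃ x, (x, x') ∈ f ∧ M.R x o} {x' | ∃ x, (x, x') ∈ f ∧ ¬ M.R x o}
    ((G.gf.image Prod.snd).subset (by rintro _ ⟨p, hp, rfl, _⟩; exact ⟨p, hp, rfl⟩))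
    ((G.ff.image Prod.snd).subset (by rintro _ ⟨x, hx, _⟩; exact ⟨_, hx, rfl⟩))
    ((G.ff.image Prod.snd).subset (by rintro _ ⟨x, hx, _⟩; exact ⟨_, hx, rfl⟩))
    (by rintro _ ⟨p, hp, rfl, hl⟩; rw [← G.lam p hp, hl, hu])
    (by
      rintro _ ⟨x, hx, hR⟩ _ ⟨y, hy, hR'⟩ hle
      rw [← G.eta _ hx _ hy, hu] at hle
      exact hR' ((M.R_inv x y o hle).1 hR))
  have hlo : M'.lam o' = M.lam o := k1.trans hu
  have hnew : ∀ p ∈ g, M.lam p.1 = M.lam o → M.rho o p.1 = M'.rho o' p.2 := by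
    intro p hp hl
    rw [h1 p hp hl, M'.rho_iso k1 (by rw [← G.lam p hp, hl, hu]) k2 (k3 _ ⟨p, hp, rfl, hl⟩)]
  refine ⟨o', G.ff, G.gf.insert _, G.eta, ?_, ?_, ?_, ?_, G.r, G.ne⟩
  · rintro p (rfl | hp)
    · exact hlo.symm
    · exact G.lam p hp
  · rintro p (rfl | hp) q (rfl | hq) hl
    · simp only
      rw [(M.rho_top o o rfl).2 rfl, (M'.rho_top o' o' rfl).2 rfl]
    · exact hnew q hq hl.symm
    · simp only at hl ⊢
      rw [M.rho_symm _ _ hl, hnew p hp hl, M'.rho_symm]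
      rw [← G.lam p hp, hl, hlo]
    · exact G.rho p hp q hq hl
  · rintro p (rfl | hp) n hn
    · exact h2 n hn o' (hlo.trans hn) k2
    · exact G.e p hp n hn
  · rintro p hp q (rfl | hq)
    · simp only
      by_cases hR : M.R p.1 o
      · simp only [hR, true_iff]
        exact k4 _ ⟨p.1, hp, hR⟩
      · simp only [hR, false_iff]
        exact k5 _ ⟨p.1, hp, hR⟩
    · exact G.R p hp q hq

/-- adding a limit point in the cofinal case -/
theorem extBtop {M M' : GM H h} {f : Set (M.S × M'.S)} {g : Set (M.B × M'.B)}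
    (G : Good M M' f g) (hc : Cof h) (o : M.B) (o' : M'.B) {n : ℕ} (ho : M.lam o = h n)
    (ho' : M'.lam o' = h n) (eo : M.e o = ⊤) (eo' : M'.e o' = ⊤) (hog : ∀ p ∈ g, p.1 ≠ o) :
    Good M M' f (insert (o, o') g) := by
  have hnew : ∀ p ∈ g, M.lam p.1 = M.lam o → M.rho o p.1 = M'.rho o' p.2 := by
    intro p hp hl
    have hpe : M.e p.1 ≠ ⊤ := fun h1 => hog p hp (M.uniq hc (hl.trans ho) ho h1 eo)
    obtain ⟨c, hc'⟩ := WithTop.ne_top_iff_exists.1 hpe
    have hpe' := G.e p hp n (hl.trans ho)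
    rw [M.rho_eq_e ho (hl.trans ho) hc'.symm (by rw [eo]; exact WithTop.coe_lt_top _),
      M'.rho_eq_e ho' (by rw [← G.lam p hp, hl, ho]) (hpe'.symm.trans hc'.symm)
        (by rw [eo']; exact WithTop.coe_lt_top _)]
  refine ⟨G.ff, G.gf.insert _, G.eta, ?_, ?_, ?_, ?_, G.r, G.ne⟩
  · rintro p (rfl | hp)
    · exact ho.trans ho'.symm
    · exact G.lam p hp
  · rintro p (rfl | hp) q (rfl | hq) hl
    · simp only
      rw [(M.rho_top o o rfl).2 rfl, (M'.rho_top o' o' rfl).2 rfl]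
    · exact hnew q hq hl.symm
    · simp only at hl ⊢
      rw [M.rho_symm _ _ hl, hnew p hp hl, M'.rho_symm]
      rw [← G.lam p hp, hl, ho, ho']
    · exact G.rho p hp q hq hl
  · rintro p (rfl | hp) m hn
    · exact eo.trans eo'.symm
    · exact G.e p hp m hn
  · rintro p hp q (rfl | hq)
    · simp only
      have key := G.r hc p hp n
      have e1 : M.r p.1 n ↔ M.R p.1 o := by
        constructor
        · rintro ⟨q, h1, h2, h3⟩
          rwa [← M.uniq hc h1 ho h2 eo]
        · intro hR; exact ⟨o, ho, eo, hR⟩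
      have e2 : M'.r p.2 n ↔ M'.R p.2 o' := by
        constructor
        · rintro ⟨q, h1, h2, h3⟩
          rwa [← M'.uniq hc h1 ho' h2 eo']
        · intro hR; exact ⟨o', ho', eo', hR⟩
      rw [← e1, ← e2]; exact key
    · exact G.R p hp q hq

theorem forthB {M M' : GM H h} (hm : StrictMono h) (ha : ∀ n, M.a n ↔ M'.a n)
    {f : Set (M.S × M'.S)} {g : Set (M.B × M'.B)} (G : Good M M' f g) (o : M.B) :
    ∃ g', g ⊆ g' ∧ Good M M' f g' ∧ ∃ o', (o, o') ∈ g' := by
  by_cases hx : ∃ p ∈ g, p.1 = o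
  · obtain ⟨p, hp, rfl⟩ := hx
    exact ⟨g, subset_rfl, G, p.2, hp⟩
  push Not at hx
  suffices hs : ∃ o', Good M M' f (insert (o, o') g) by
    obtain ⟨o', ho'⟩ := hs
    exact ⟨_, Set.subset_insert _ _, ho', o', Set.mem_insert _ _⟩
  -- the points of the fibre
  set T : Set (M.B × M'.B) := {p | p ∈ g ∧ M.lam p.1 = M.lam o} with hT
  have hTf : T.Finite := G.gf.subset (fun p hp => hp.1)
  by_cases hfib : ∃ n, M.lam o = h n
  · obtain ⟨n, hn⟩ := hfib
    have hnn : ∀ m, M.lam o = h m → m = n := fun m hm' => hm.injective (hm'.symm.trans hn)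
    by_cases heo : M.e o = ⊤
    · obtain ⟨u, hu1, hu2⟩ := (ha n).1 ⟨o, hn, heo⟩
      by_cases hc : Cof h
      · exact ⟨u, extBtop G hc o u hn hu1 heo hu2 hx⟩
      · -- noncofinal case
        have hc' : ∃ d, ∀ k, h k ≤ d := by
          unfold Cof at hc; push Not at hc; exact hc
        -- e values after extension
        have heD : ∀ (u : M'.B) (d : H), (∀ k, h k ≤ d) → M'.lam u = h n → M'.e u = ⊤ →
            ∀ o', M'.lam o' = h n → M'.rho o' u = (d : WithTop H) → M'.e o' = ⊤ := by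
          intro u d hd hu hue o' ho' hr
          rcases M'.e_or n o' ho' with h1 | ⟨k, hk⟩
          · exact h1
          · exfalso
            have := M'.e_tri1 n k (h k) u o' hu ho' le_rfl (by rw [hue]; exact le_top)
              (by rw [M'.rho_symm u o' (hu.trans ho'.symm), hr]; exact WithTop.coe_le_coe.2 (hd k))
            exact absurd this (not_le.2 hk)
        by_cases hex : ∃ p ∈ T, M.e p.1 = ⊤
        · -- choose the closest such point
          obtain ⟨p1, ⟨hp1, hp1e⟩, hmax⟩ := Set.exists_max_image {p | p ∈ T ∧ M.e p.1 = ⊤}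
            (fun p => M.rho o p.1) (hTf.subset (fun p hp => hp.1))
            (by obtain ⟨p, hp, hpe⟩ := hex; exact ⟨p, hp, hpe⟩)
          have hl1 : M.lam p1.1 = h n := hp1.2.trans hn
          obtain ⟨d, hd⟩ := WithTop.ne_top_iff_exists.1
            (fun hb => hx p1 hp1.1 ((M.rho_top _ _ (hp1.2.symm)).1 hb).symm : M.rho o p1.1 ≠ ⊤)
          have hdk : ∀ k, h k ≤ d := by
            intro k
            apply WithTop.coe_le_coe.1
            rw [hd]
            exact M.e_tri2 n k (h k) o p1.1 hn hl1 le_rfl (by rw [heo]; exact le_top)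
              (by rw [hp1e]; exact le_top)
          have he1' : M'.e p1.2 = ⊤ := by rw [← G.e p1 hp1.1 n hl1]; exact hp1e
          have hl1' : M'.lam p1.2 = h n := by rw [← G.lam p1 hp1.1]; exact hl1
          refine extB G o p1.2 d (hl1'.trans hn.symm) ?_ ?_
          · intro p hp hl
            rw [← G.rho p1 hp1.1 p hp (hp1.2.trans hl.symm)]
            refine M.rho_iso hp1.2.symm (hl.trans hp1.2.symm) hd.symm ?_
            by_cases hpe : M.e p.1 = ⊤
            · rw [hd]; exact hmax p ⟨⟨hp, hl⟩, hpe⟩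
            · obtain ⟨c, hcc⟩ := WithTop.ne_top_iff_exists.1 hpe
              rw [M.rho_eq_e hn (hl.trans hn) hcc.symm (by rw [heo]; exact WithTop.coe_lt_top _)]
              rcases M.e_or n p.1 (hl.trans hn) with h1 | ⟨k, hk⟩
              · exact absurd h1 hpe
              · rw [← hcc] at hk
                exact hk.le.trans (WithTop.coe_le_coe.2 (hdk k))
          · intro m hm' o' ho' hr
            obtain rfl := hnn m hm'
            rw [heo, heD p1.2 d hdk hl1' he1' o' ho' hr]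
        · push Not at hex
          obtain ⟨d, hd⟩ := hc'
          refine extB G o u d (hu1.trans hn.symm) ?_ ?_
          · intro p hp hl
            obtain ⟨c, hcc⟩ := WithTop.ne_top_iff_exists.1 (hex p ⟨hp, hl⟩)
            have hpe' := G.e p hp n (hl.trans hn)
            rw [M.rho_eq_e hn (hl.trans hn) hcc.symm (by rw [heo]; exact WithTop.coe_lt_top _),
              M'.rho_eq_e hu1 (by rw [← G.lam p hp, hl, hn]) (hpe'.symm.trans hcc.symm)
                (by rw [hu2]; exact WithTop.coe_lt_top _)]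
            rcases M.e_or n p.1 (hl.trans hn) with h1 | ⟨k, hk⟩
            · exact absurd h1 (hex p ⟨hp, hl⟩)
            · rw [← hcc] at hk
              exact (min_eq_right (hk.le.trans (WithTop.coe_le_coe.2 (hd k)))).symm
          · intro m hm' o' ho' hr
            obtain rfl := hnn m hm'
            rw [heo, heD u d hd hu1 hu2 o' ho' hr]
    · -- finite `e`
      obtain ⟨c, hcc⟩ := WithTop.ne_top_iff_exists.1 heo
      have hck : ∃ k, c < h k := by
        rcases M.e_or n o hn with h1 | ⟨k, hk⟩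
        · exact absurd h1 heo
        · rw [← hcc] at hk; exact ⟨k, WithTop.coe_lt_coe.1 hk⟩
      obtain ⟨K, hK⟩ := hck
      by_cases hex : ∃ p ∈ T, (c : WithTop H) < M.rho o p.1
      · obtain ⟨p0, hp0, hp0c⟩ := hex
        obtain ⟨p1, hp1, hmax⟩ := Set.exists_max_image T (fun p => M.rho o p.1) hTf ⟨p0, hp0⟩
        have hc1 : (c : WithTop H) < M.rho o p1.1 := hp0c.trans_le (hmax p0 hp0)
        have hl1 : M.lam p1.1 = h n := hp1.2.trans hn
        have hl1' : M'.lam p1.2 = h n := by rw [← G.lam p1 hp1.1]; exact hl1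
        obtain ⟨d, hd⟩ := WithTop.ne_top_iff_exists.1
            (fun hb => hx p1 hp1.1 ((M.rho_top _ _ (hp1.2.symm)).1 hb).symm : M.rho o p1.1 ≠ ⊤)
        have hcd : c < d := by rw [← hd] at hc1; exact WithTop.coe_lt_coe.1 hc1
        -- general fact in any model: if rho o p > c and e o = c then e p = c
        have gen : ∀ (N : GM H h) (a b : N.B), N.lam a = h n → N.lam b = h n →
            N.e a = (c : WithTop H) → (c : WithTop H) < N.rho a b → N.e b = (c : WithTop H) := by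
          intro N a b hla hlb hea hr
          apply le_antisymm
          · by_contra hlt
            rw [not_le] at hlt
            rw [N.rho_symm a b (hla.trans hlb.symm), N.rho_eq_e hlb hla hea hlt] at hr
            exact lt_irrefl _ hr
          · exact N.e_tri1 n K c a b hla hlb hK.le (by rw [hea]) hr.le
        have he1 : M.e p1.1 = c := gen M o p1.1 hn hl1 hcc.symm hc1
        have he1' : M'.e p1.2 = c := by rw [← G.e p1 hp1.1 n hl1]; exact he1
        refine extB G o p1.2 d (hl1'.trans hn.symm) ?_ ?_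
        · intro p hp hl
          rw [← G.rho p1 hp1.1 p hp (hp1.2.trans hl.symm)]
          exact M.rho_iso hp1.2.symm (hl.trans hp1.2.symm) hd.symm
            (by rw [hd]; exact hmax p ⟨hp, hl⟩)
        · intro m hm' o' ho' hr
          obtain rfl := hnn m hm'
          rw [← hcc]
          refine (gen M' p1.2 o' hl1' ho' he1' ?_).symm
          rw [M'.rho_symm _ _ (hl1'.trans ho'.symm), hr]
          exact WithTop.coe_lt_coe.2 hcd
      · push Not at hex
        obtain ⟨u, hu1, hu2⟩ := M'.e_ne n K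
        have hcu : (c : WithTop H) < M'.e u := (WithTop.coe_lt_coe.2 hK).trans_le hu2
        refine extB G o u c (hu1.trans hn.symm) ?_ ?_
        · intro p hp hl
          have hlp : M.lam p.1 = h n := hl.trans hn
          have hlp' : M'.lam p.2 = h n := by rw [← G.lam p hp]; exact hlp
          have hpe' := G.e p hp n hlp
          have hle := hex p ⟨hp, hl⟩
          rcases lt_or_ge (M.e p.1) (c : WithTop H) with hlt | hge
          · obtain ⟨b, hb⟩ := WithTop.ne_top_iff_exists.1 (hlt.trans_le le_top).ne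
            have hlt' := hlt
            rw [← hb] at hlt'
            rw [M.rho_eq_e hn hlp hb.symm (by rw [← hcc]; exact hlt'),
              M'.rho_eq_e hu1 hlp' (hpe'.symm.trans hb.symm) (hlt'.trans hcu)]
            exact (min_eq_right hlt'.le).symm
          · have k1 : (c : WithTop H) ≤ M.rho o p.1 :=
              M.e_tri2 n K c o p.1 hn hlp hK.le (by rw [← hcc]) hge
            have k2 : (c : WithTop H) ≤ M'.rho u p.2 :=
              M'.e_tri2 n K c u p.2 hu1 hlp' hK.le hcu.le (by rw [← hpe']; exact hge)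
            rw [min_eq_left k2]
            exact le_antisymm hle k1
        · intro m hm' o' ho' hr
          obtain rfl := hnn m hm'
          rw [← hcc]
          apply le_antisymm
          · exact M'.e_tri1 m K c u o' hu1 ho' hK.le hcu.le
              (by rw [M'.rho_symm _ _ (hu1.trans ho'.symm), hr])
          · by_contra hlt
            rw [not_le] at hlt
            obtain ⟨c', h1, h2, h3, h4⟩ : ∃ c' : H, c < c' ∧ c' ≤ h K ∧
                (c' : WithTop H) ≤ M'.e o' ∧ (c' : WithTop H) ≤ M'.e u := by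
              have key : (c : WithTop H) < min (M'.e o') (h K) :=
                lt_min hlt (WithTop.coe_lt_coe.2 hK)
              have h3 : min (M'.e o') ((h K : H) : WithTop H) ≠ ⊤ := by
                intro h4
                have := (min_le_right (M'.e o') ((h K : H) : WithTop H))
                rw [h4] at this
                exact WithTop.coe_ne_top (top_le_iff.1 this)
              obtain ⟨c', hc'⟩ := WithTop.ne_top_iff_exists.1 h3
              rw [← hc'] at key
              refine ⟨c', WithTop.coe_lt_coe.1 key, ?_, ?_, ?_⟩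
              · apply WithTop.coe_le_coe.1; rw [hc']; exact min_le_right _ _
              · rw [hc']; exact min_le_left _ _
              · rw [hc']; exact (min_le_right _ _).trans hu2
            have := M'.e_tri2 m K c' o' u ho' hu1 h2 h3 h4
            rw [hr] at this
            exact absurd (WithTop.coe_le_coe.1 this) (not_le.2 h1)
  · push Not at hfib
    by_cases hne : T.Nonempty
    · obtain ⟨p1, hp1, hmax⟩ := Set.exists_max_image T (fun p => M.rho o p.1) hTf hne
      obtain ⟨d, hd⟩ := WithTop.ne_top_iff_exists.1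
            (fun hb => hx p1 hp1.1 ((M.rho_top _ _ (hp1.2.symm)).1 hb).symm : M.rho o p1.1 ≠ ⊤)
      refine extB G o p1.2 d (by rw [← G.lam p1 hp1.1]; exact hp1.2) ?_ ?_
      · intro p hp hl
        rw [← G.rho p1 hp1.1 p hp (hp1.2.trans hl.symm)]
        exact M.rho_iso hp1.2.symm (hl.trans hp1.2.symm) hd.symm
            (by rw [hd]; exact hmax p ⟨hp, hl⟩)
      · intro m hm'
        exact absurd hm' (hfib m)
    · obtain ⟨u, hu⟩ := M'.Bne (M.lam o)
      refine extB G o u (M.lam o) hu ?_ ?_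
      · intro p hp hl
        exact absurd ⟨p, hp, hl⟩ hne
      · intro m hm'
        exact absurd hm' (hfib m)

/-- Isomorphism theorem for typed models. -/
theorem typed_iso (M M' : GM H h) [Countable M.S] [Countable M.B] [Countable M'.S]
    [Countable M'.B] (hm : StrictMono h) (ha : ∀ n, M.a n ↔ M'.a n)
    (x : M.S) (x' : M'.S) (hr : Cof h → ∀ n, M.r x n ↔ M'.r x' n) :
    ∃ (eS : M.S ≃ M'.S) (eB : M.B ≃ M'.B),
      (∀ x y, M.eta x y = M'.eta (eS x) (eS y)) ∧
      (∀ o, M.lam o = M'.lam (eB o)) ∧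
      (∀ o p, M.lam o = M.lam p → M.rho o p = M'.rho (eB o) (eB p)) ∧
      (∀ o n, M.lam o = h n → M.e o = M'.e (eB o)) ∧
      (∀ x o, M.R x o ↔ M'.R (eS x) (eB o)) := by
  obtain ⟨eS, eB, h1, h2, h3⟩ := bf2 (fun f g => Good M M' f g) {(x, x')} ∅
    (by
      refine ⟨Set.finite_singleton _, Set.finite_empty, ?_, ?_, ?_, ?_, ?_, ?_, ⟨_, rfl⟩⟩
      · rintro _ rfl _ rfl
        simp only
        rw [(M.eta_bot x x).2 rfl, (M'.eta_bot x' x').2 rfl]
      · rintro _ ⟨⟩
      · rintro _ ⟨⟩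
      · rintro _ ⟨⟩
      · rintro _ _ _ ⟨⟩
      · rintro hc _ rfl n
        exact hr hc n)
    (fun f g G => G.injS) (fun f g G => G.injB)
    (fun f g G a => by
      obtain ⟨f', k1, k2, k3⟩ := forthS hm ha G a
      exact ⟨f', g, k1, subset_rfl, k2, k3⟩)
    (fun f g G b => by
      obtain ⟨f', k1, k2, b', k3⟩ := forthS hm (fun n => (ha n).symm) G.swap b
      refine ⟨Prod.swap '' f', Prod.swap '' (Prod.swap '' g), ?_, ?_, k2.swap, b', ⟨_, k3, rfl⟩⟩
      · intro p hp
        exact ⟨p.swap, k1 ⟨p, hp, rfl⟩, rfl⟩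
      · intro p hp
        exact ⟨p.swap, ⟨p, hp, rfl⟩, rfl⟩)
    (fun f g G a => by
      obtain ⟨g', k1, k2, k3⟩ := forthB hm ha G a
      exact ⟨f, g', subset_rfl, k1, k2, k3⟩)
    (fun f g G b => by
      obtain ⟨g', k1, k2, b', k3⟩ := forthB hm (fun n => (ha n).symm) G.swap b
      refine ⟨Prod.swap '' (Prod.swap '' f), Prod.swap '' g', ?_, ?_, k2.swap, b', ⟨_, k3, rfl⟩⟩
      · intro p hp
        exact ⟨p.swap, ⟨p, hp, rfl⟩, rfl⟩
      · intro p hp
        exact ⟨p.swap, k1 ⟨p, hp, rfl⟩, rfl⟩)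
  refine ⟨eS, eB, ?_, ?_, ?_, ?_, ?_⟩
  · intro x y
    obtain ⟨f, g, G, p1, p2⟩ := h1 x y
    exact G.eta _ p1 _ p2
  · intro o
    obtain ⟨f, g, G, p1, p2⟩ := h2 o o
    exact G.lam _ p1
  · intro o p hl
    obtain ⟨f, g, G, p1, p2⟩ := h2 o p
    exact G.rho _ p1 _ p2 hl
  · intro o n hn
    obtain ⟨f, g, G, p1, p2⟩ := h2 o o
    exact G.e _ p1 n hn
  · intro x o
    obtain ⟨f, g, G, p1, p2⟩ := h3 x o
    exact G.R _ p1 _ p2

end Pool.Agent.HK
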